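import Mathlib

/-!
Stability of groups in unitary groups (normalized Hilbert-Schmidt distance) and in symmetric
groups (normalized Hamming distance); almost normal subgroups; amalgamated free products.
-/

set_option autoImplicit false

namespace Pool.Agent.H845Z.StDefs

open Filter Topology Matrix

/-- Normalized Hilbert-Schmidt distance `tr((A - B)^* (A - B))^(1/2)`, `tr` the normalized
trace. -/
noncomputable def dHS {X : Type} [Fintype X] (A B : Matrix X X ℂ) : ℝ :=
  √((trace ((A - B)ᴴ * (A - B))).re / Fintype.card X)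

/-- Normalized Hamming distance. -/
noncomputable def dP {X : Type} [Fintype X] [DecidableEq X] (σ τ : Equiv.Perm X) : ℝ :=
  ((Finset.univ.filter fun x => σ x ≠ τ x).card : ℝ) / Fintype.card X

/-- `G` is stable with respect to the family of metric groups `(C k, d k)`, `k ≥ 1`: every
asymptotic homomorphism `φ n : G → C (k n)` is asymptotic to a sequence of homomorphisms into the
same groups. -/
def Stable (C : ℕ → Type) [∀ k, Group (C k)] (d : ∀ k, C k → C k → ℝ) (G : Type) [Group G] :
    Prop :=
  ∀ k : ℕ → ℕ, (∀ n, 0 < k n) → ∀ φ : ∀ n, G → C (k n),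
    (∀ a b, Tendsto (fun n => d (k n) (φ n a * φ n b) (φ n (a * b))) atTop (𝓝 0)) →
    ∃ ψ : ∀ n, G →* C (k n), ∀ a, Tendsto (fun n => d (k n) (φ n a) (ψ n a)) atTop (𝓝 0)

/-- Hilbert-Schmidt stability. -/
def HSStable (G : Type) [Group G] : Prop :=
  Stable (fun k => unitaryGroup (Fin k) ℂ) (fun _ A B => dHS A.1 B.1) G

/-- Stability in permutations. -/
def PStable (G : Type) [Group G] : Prop :=
  Stable (fun k => Equiv.Perm (Fin k)) (fun _ σ τ => dP σ τ) G

/-- A subgroup with only finitely many conjugates. -/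
def AlmostNormal {G : Type} [Group G] (K : Subgroup G) : Prop :=
  (Set.range fun g : G => K.map (MulAut.conj g).toMonoidHom).Finite

/-- The amalgamated free product: the free product modulo the normal closure of the elements
`i₁(h) i₂(h)⁻¹`. -/
abbrev Amalgam {H G₁ G₂ : Type} [Group H] [Group G₁] [Group G₂] (i₁ : H →* G₁) (i₂ : H →* G₂) :
    Type :=
  Monoid.Coprod G₁ G₂ ⧸ Subgroup.normalClosure (Set.range fun h : H =>
    (Monoid.Coprod.inl (i₁ h) * (Monoid.Coprod.inr (i₂ h))⁻¹ : Monoid.Coprod G₁ G₂))

end Pool.Agent.H845Z.StDefs
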