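import Pool.Agent.H845Z.St.UniC
import Pool.Agent.H845Z.St.Defs

/-!
From the plain definitions to the matrix framework.
-/

set_option autoImplicit false

namespace Pool.Agent.H845Z.St

open Matrix Finset Filter Asymptotics Obj Topology StDefs
open scoped Matrix.Norms.Frobenius

open scoped commutatorElement in
theorem dietzmann {Γ : Type} [Group Γ] (S : Finset Γ) (hS : ∀ s ∈ S, ∀ g, g * s * g⁻¹ ∈ S)
    (ht : ∀ s ∈ S, IsOfFinOrder s) : Finite (Subgroup.closure (S : Set Γ)) := by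
  classical
  let K := Subgroup.closure (S : Set Γ)
  let f : K →* Equiv.Perm S := MonoidHom.mk' (fun g =>
    { toFun := fun s => ⟨g.1 * s.1 * g.1⁻¹, hS _ s.2 _⟩
      invFun := fun s => ⟨g.1⁻¹ * s.1 * g.1⁻¹⁻¹, hS _ s.2 _⟩
      left_inv := fun s => Subtype.ext (by simp [mul_assoc])
      right_inv := fun s => Subtype.ext (by simp [mul_assoc]) }) fun g k => by
    ext s; simp [mul_assoc]
  have hker : f.ker ≤ Subgroup.center K := by
    intro g hg
    rw [Subgroup.mem_center_iff]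
    rintro ⟨x, hx⟩
    apply Subtype.ext
    change x * g.1 = g.1 * x
    have : Subgroup.closure (S : Set Γ) ≤ Subgroup.centralizer {g.1} := by
      rw [Subgroup.closure_le]
      intro s hs
      have h1 := congrArg Subtype.val (DFunLike.congr_fun (MonoidHom.mem_ker.1 hg) ⟨s, hs⟩)
      change g.1 * s * g.1⁻¹ = s at h1
      rw [SetLike.mem_coe, Subgroup.mem_centralizer_singleton_iff]
      exact (mul_inv_eq_iff_eq_mul.1 h1).symm
    exact Subgroup.mem_centralizer_singleton_iff.1 (this hx)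
  have : (Subgroup.center K).FiniteIndex := Subgroup.finiteIndex_of_le hker
  have : Finite (commutatorSet K) := by
    refine Set.Finite.subset (Set.finite_range
      fun p : (K ⧸ Subgroup.center K) × (K ⧸ Subgroup.center K) => ⁅p.1.out, p.2.out⁆) ?_
    rintro _ ⟨a, b, rfl⟩
    refine ⟨(a, b), ?_⟩
    obtain ⟨z, hz⟩ := QuotientGroup.mk_out_eq_mul (Subgroup.center K) a
    obtain ⟨w, hw⟩ := QuotientGroup.mk_out_eq_mul (Subgroup.center K) b
    have z1 := Subgroup.mem_center_iff.1 z.2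
    have w1 := Subgroup.mem_center_iff.1 w.2
    simp only [hz, hw, commutatorElement_def, _root_.mul_inv_rev]
    calc a * z * (b * w) * ((z : K)⁻¹ * a⁻¹) * ((w : K)⁻¹ * b⁻¹)
        = a * (z * (b * w)) * ((z : K)⁻¹ * (a⁻¹ * (w : K)⁻¹)) * b⁻¹ := by group
      _ = a * (b * w * z) * ((z : K)⁻¹ * (w * a)⁻¹) * b⁻¹ := by rw [← z1]; group
      _ = _ := by rw [← w1]; group
  have : Group.FG K := Group.closure_finset_fg S
  have : Group.FG (Abelianization K) :=
    Group.fg_of_surjective (f := Abelianization.of) (QuotientGroup.mk_surjective)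
  have tor : IsMulTorsion (Abelianization K) := by
    intro x
    obtain ⟨⟨y, hy⟩, rfl⟩ : ∃ y, Abelianization.of y = x := QuotientGroup.mk_surjective x
    induction hy using Subgroup.closure_induction with
    | mem s hs =>
      apply MonoidHom.isOfFinOrder
      rw [← K.subtype_injective.isOfFinOrder_iff]
      exact ht s hs
    | one => exact (MonoidHom.isOfFinOrder _ IsOfFinOrder.one : IsOfFinOrder (Abelianization.of (1 : K)))
    | mul x y hx hy h1 h2 =>
      have := h1.mul h2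
      rwa [← map_mul] at this
    | inv x hx h1 =>
      have := h1.inv
      rwa [← map_inv] at this
  have : Finite (K ⧸ commutator K) := CommGroup.finite_of_fg_isMulTorsion (Abelianization K) tor
  exact Finite.of_equiv _ (Subgroup.groupEquivQuotientProdSubgroup (s := commutator K)).symm

lemma exists_conj_closed {H Γ : Type} [Group H] [Finite H] [Group Γ] (i : H →* Γ)
    (h : AlmostNormal i.range) : ∃ S : Finset Γ, (∀ s ∈ S, ∀ g, g * s * g⁻¹ ∈ S) ∧
      (∀ h, i h ∈ S) ∧ ∀ s ∈ S, IsOfFinOrder s := by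
  have hf : {s : Γ | ∃ g h, s = g * i h * g⁻¹}.Finite := by
    refine (Set.Finite.biUnion h (t := fun L : Subgroup Γ => (L : Set Γ)) ?_).subset ?_
    · rintro _ ⟨g, rfl⟩
      simp only [Subgroup.coe_map, MonoidHom.coe_range]
      exact (Set.finite_range i).image _
    · rintro _ ⟨g, h, rfl⟩
      exact Set.mem_biUnion ⟨g, rfl⟩ ⟨i h, ⟨h, rfl⟩, rfl⟩
  refine ⟨hf.toFinset, ?_, fun h => ?_, ?_⟩
  · intro s hs g
    rw [Set.Finite.mem_toFinset] at hs ⊢
    obtain ⟨k, h, rfl⟩ := hs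
    exact ⟨g * k, h, by group⟩
  · rw [Set.Finite.mem_toFinset]
    exact ⟨1, h, by group⟩
  · intro s hs
    rw [Set.Finite.mem_toFinset] at hs
    obtain ⟨k, h, rfl⟩ := hs
    exact (MulAut.conj k).toMonoidHom.isOfFinOrder (i.isOfFinOrder (isOfFinOrder_of_finite h))

section amal
variable {H G₁ G₂ : Type} [Group H] [Group G₁] [Group G₂] (i₁ : H →* G₁) (i₂ : H →* G₂)

/-- the concrete amalgam has the universal property -/
def amal : Amal H G₁ G₂ (Amalgam i₁ i₂) where
  i₁ := i₁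
  i₂ := i₂
  j₁ := (QuotientGroup.mk' _).comp Monoid.Coprod.inl
  j₂ := (QuotientGroup.mk' _).comp Monoid.Coprod.inr
  comm h := by
    rw [← mul_inv_eq_one, MonoidHom.comp_apply, MonoidHom.comp_apply, ← map_inv, ← map_mul]
    exact (QuotientGroup.eq_one_iff _).2 (Subgroup.subset_normalClosure ⟨h, rfl⟩)
  lift K _ f₁ f₂ hf := by
    refine ⟨QuotientGroup.lift _ (Monoid.Coprod.lift f₁ f₂) ?_, fun g => rfl, fun g => rfl⟩
    apply Subgroup.normalClosure_le_normal
    rintro _ ⟨h, rfl⟩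
    simp [hf]
  ind P h1 h2 h3 g := by
    obtain ⟨x, rfl⟩ := QuotientGroup.mk_surjective g
    induction x using Monoid.Coprod.induction_on with
    | inl m => exact h1 m
    | inr m => exact h2 m
    | mul x y hx hy => exact h3 _ _ hx hy

lemma countable_amalgam [Countable G₁] [Countable G₂] : Countable (Amalgam i₁ i₂) :=
  ((QuotientGroup.mk_surjective).comp Monoid.Coprod.mk_surjective).countable

end amal

lemma dHS_eq {X : Type} [Fintype X] (A B : Matrix X X ℂ) :
    dHS A B = ‖A - B‖ / √(Fintype.card X) := by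
  rw [dHS, ← norm_sq_trace, Real.sqrt_div' _ (Nat.cast_nonneg _), Real.sqrt_sq (norm_nonneg _)]

lemma lo_iff {k : ℕ → ℕ} (hk : ∀ n, 0 < k n) (f : ℕ → ℝ) :
    f =o[atTop] (fun n => √(k n : ℝ)) ↔ Tendsto (fun n => f n / √(k n : ℝ)) atTop (𝓝 0) :=
  isLittleO_iff_tendsto fun n h => absurd h (Real.sqrt_pos.2 (by exact_mod_cast hk n)).ne'

lemma tendsto_dHS {k : ℕ → ℕ} (hk : ∀ n, 0 < k n) (A B : ∀ n, Matrix (Fin (k n)) (Fin (k n)) ℂ) :
    Tendsto (fun n => dHS (A n) (B n)) atTop (𝓝 0) ↔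
      (fun n => ‖A n - B n‖) =o[atTop] fun n => √(k n : ℝ) := by
  simp only [lo_iff hk, dHS_eq, Fintype.card_fin]

theorem hsStable_iff {G : Type} [Group G] : HSStable G ↔ StabM clsU G := by
  constructor
  · intro h k hk φ h1 h2
    obtain ⟨ψ, hψ⟩ := h k hk (fun n g => ⟨φ n g, (h1 n g).2⟩)
      fun a b => (tendsto_dHS hk _ _).2 (h2 a b)
    exact ⟨fun n g => (ψ n g).1, fun n => hom_iff_urep.2 ⟨fun g => (ψ n g).2, fun g k => by
      change (ψ n (g * k)).1 = (ψ n g).1 * (ψ n k).1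
      rw [map_mul]; rfl⟩, fun g => (tendsto_dHS hk _ _).1 (hψ g)⟩
  · intro h k hk φ h1
    obtain ⟨ψ, h2, h3⟩ := h k hk (fun n g => (φ n g).1)
      (fun n g => ⟨mor_of_isometry (φ n g).2.1, (φ n g).2⟩)
      fun a b => (tendsto_dHS hk _ _).1 (h1 a b)
    exact ⟨fun n => MonoidHom.mk' (fun g => ⟨ψ n g, ((h2 n).1 g).2⟩)
      fun g k => Subtype.ext ((h2 n).2 g k), fun g => (tendsto_dHS hk _ _).2 (h3 g)⟩

lemma norm_sq_emb_sub {X Y : Type} [Fintype X] [Fintype Y] [DecidableEq Y] (σ τ : X → Y) :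
    ‖emb σ - emb τ‖ ^ 2 = 2 * ((univ.filter fun x => σ x ≠ τ x).card : ℝ) := by
  rw [norm_sq, Finset.sum_comm, Finset.card_filter]
  push_cast
  rw [Finset.mul_sum]
  refine Finset.sum_congr rfl fun x _ => ?_
  simp only [Matrix.sub_apply, emb_apply]
  by_cases h : σ x = τ x
  · simp [h]
  · rw [if_pos h, Finset.sum_eq_add (σ x) (τ x) h]
    · simp [h, Ne.symm h]; norm_num
    · intro c _ hc
      simp [hc.1, hc.2]
    · simp
    · simp

lemma tendsto_dP {k : ℕ → ℕ} (hk : ∀ n, 0 < k n) (σ τ : ∀ n, Equiv.Perm (Fin (k n))) :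
    Tendsto (fun n => dP (σ n) (τ n)) atTop (𝓝 0) ↔
      (fun n => ‖emb (σ n) - emb (τ n)‖) =o[atTop] fun n => √(k n : ℝ) := by
  have e : (fun n => ‖emb (σ n) - emb (τ n)‖) =o[atTop] (fun n => √(k n : ℝ)) ↔
      (fun n => ‖emb (σ n) - emb (τ n)‖ ^ 2) =o[atTop] (fun n => √(k n : ℝ) ^ 2) :=
    ⟨fun h => h.pow two_pos, lo_of_sq⟩
  rw [e, isLittleO_iff_tendsto fun n h =>
    absurd h (pow_pos (Real.sqrt_pos.2 (by exact_mod_cast hk n)) 2).ne']
  simp only [norm_sq_emb_sub, Real.sq_sqrt (Nat.cast_nonneg (α := ℝ) _), dP, Fintype.card_fin,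
    mul_div_assoc]
  constructor
  · intro h; simpa using h.const_mul 2
  · intro h; simpa using h.const_mul 2⁻¹

theorem pStable_iff {G : Type} [Group G] : PStable G ↔ StabM clsP G := by
  constructor
  · intro h k hk φ h1 h2
    choose π hπ using fun n => inA_perm (h1 n)
    obtain ⟨ψ, hψ⟩ := h k hk π fun a b => (tendsto_dP hk _ _).2 (by
      refine (h2 a b).congr_left fun n => ?_
      rw [hπ, hπ, hπ, emb_mul_emb]; rfl)
    refine ⟨fun n g => emb (ψ n g), fun n => hom_pobj (ψ n), fun g => ?_⟩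
    refine ((tendsto_dP hk _ _).1 (hψ g)).congr_left fun n => ?_
    rw [← hπ]
  · intro h k hk φ h1
    obtain ⟨ψ, h2, h3⟩ := h k hk (fun n g => emb (φ n g))
      (fun n g => ⟨isPP_emb (φ n g).injective, emb_adj_emb (φ n g).injective, emb_perm_unit _⟩)
      fun a b => ((tendsto_dP hk _ _).1 (h1 a b)).congr_left fun n => by
        change _ = ‖emb (φ n a) * emb (φ n b) - emb (φ n (a * b))‖
        rw [emb_mul_emb]; rfl
    choose π hπ using fun n => hom_perm (h2 n)
    refine ⟨π, fun g => (tendsto_dP hk _ _).2 ((h3 g).congr_left fun n => ?_)⟩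
    rw [← hπ]

theorem amalgam_stable {H G₁ G₂ : Type} [Group H] [Group G₁] [Group G₂] [Finite H] [Countable G₁]
    [Countable G₂] (i₁ : H →* G₁) (i₂ : H →* G₂) (n₁ : AlmostNormal i₁.range)
    (n₂ : AlmostNormal i₂.range) :
    (HSStable G₁ → HSStable G₂ → HSStable (Amalgam i₁ i₂)) ∧
      (PStable G₁ → PStable G₂ → PStable (Amalgam i₁ i₂)) := by
  let _ : Fintype H := Fintype.ofFinite H
  have := countable_amalgam i₁ i₂
  obtain ⟨S₁, a1, a2, a3⟩ := exists_conj_closed i₁ n₁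
  obtain ⟨S₂, b1, b2, b3⟩ := exists_conj_closed i₂ n₂
  simp only [hsStable_iff, pStable_iff]
  constructor
  · obtain ⟨L₁⟩ := exists_labU i₁ a1 a2 (dietzmann S₁ a1 a3)
    obtain ⟨L₂⟩ := exists_labU i₂ b1 b2 (dietzmann S₂ b1 b3)
    exact (amal i₁ i₂).stab (tyDataU H) L₁ L₂
  · exact (amal i₁ i₂).stab (tyDataP H) (labP S₁ a1 i₁ a2) (labP S₂ b1 i₂ b2)

end Pool.Agent.H845Z.St
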