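import Pool.Agent.H845Z.St.Mat

/-!
Abstract classes of (partial) isometries, objects, and asymptotic closeness.
-/

set_option autoImplicit false

namespace Pool.Agent.H845Z.St

open Matrix Finset Filter Asymptotics
open scoped Matrix.Norms.Frobenius

/-! ### Diagonal arguments -/

lemma diag_choice (α : ℕ → Type*) [∀ n, Nonempty (α n)] (P : ℕ → ∀ n, α n → Prop)
    (mono : ∀ j n a, P (j + 1) n a → P j n a) (h : ∀ j, ∀ᶠ n in atTop, ∃ a, P j n a) :
    ∃ a : ∀ n, α n, ∀ j, ∀ᶠ n in atTop, P j n (a n) := by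
  classical
  have mono' : ∀ i j n a, j ≤ i → P i n a → P j n a := by
    intro i j n a hij
    induction hij with
    | refl => exact id
    | step _ ih => exact fun hp => ih (mono _ _ _ hp)
  let J : ℕ → ℕ := fun n => Nat.findGreatest (fun j => ∃ a, P j n a) n
  refine ⟨fun n => if h : ∃ a, P (J n) n a then h.choose else Classical.arbitrary _, fun j => ?_⟩
  filter_upwards [h j, eventually_ge_atTop j] with n hn hjn
  have h1 : ∃ a, P (J n) n a := Nat.findGreatest_spec (P := fun j => ∃ a, P j n a) hjn hn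
  have h2 : j ≤ J n := Nat.le_findGreatest hjn hn
  rw [dif_pos h1]
  exact mono' _ _ _ _ h2 h1.choose_spec

lemma approx_choice {Γ : Type*} [Countable Γ] [Nonempty Γ] (α : ℕ → Type*) [∀ n, Nonempty (α n)]
    (Q : ∀ n, α n → Prop) (e : ∀ n, α n → Γ → ℝ) (r : ℕ → ℝ)
    (h : ∀ (F : Finset Γ) (ε : ℝ), 0 < ε →
      ∀ᶠ n in atTop, ∃ a, Q n a ∧ ∀ g ∈ F, ‖e n a g‖ ≤ ε * ‖r n‖) :
    ∃ a : ∀ n, α n, (∀ᶠ n in atTop, Q n (a n)) ∧ ∀ g, (fun n => e n (a n) g) =o[atTop] r := by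
  classical
  obtain ⟨u, hu⟩ := exists_surjective_nat Γ
  obtain ⟨a, ha⟩ := diag_choice α
    (fun j n a => Q n a ∧ ∀ i ≤ j, ‖e n a (u i)‖ ≤ (1 / ((j : ℝ) + 1)) * ‖r n‖) (by
      rintro j n a ⟨h1, h2⟩
      refine ⟨h1, fun i hi => (h2 i (by omega)).trans ?_⟩
      apply mul_le_mul_of_nonneg_right _ (norm_nonneg _)
      apply one_div_le_one_div_of_le (by positivity)
      push_cast; linarith) (by
      intro j
      filter_upwards [h ((range (j + 1)).image u) (1 / ((j : ℝ) + 1)) (by positivity)] with n hn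
      obtain ⟨a, h1, h2⟩ := hn
      exact ⟨a, h1, fun i hi => h2 _ (mem_image_of_mem _ (mem_range.2 (by omega)))⟩)
  refine ⟨a, (ha 0).mono fun n hn => hn.1, fun g => ?_⟩
  obtain ⟨i, rfl⟩ := hu g
  rw [isLittleO_iff]
  intro c hc
  obtain ⟨j0, hj0⟩ := exists_nat_one_div_lt hc
  filter_upwards [ha (max i j0)] with n hn
  refine (hn.2 i (le_max_left _ _)).trans ?_
  apply mul_le_mul_of_nonneg_right _ (norm_nonneg _)
  refine le_trans ?_ hj0.le
  apply one_div_le_one_div_of_le (by positivity)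
  have : (j0 : ℝ) ≤ ((max i j0 : ℕ) : ℝ) := by exact_mod_cast le_max_right i j0
  linarith

lemma ev_of_subseq (Q : ℕ → Prop)
    (h : ∀ ns : ℕ → ℕ, StrictMono ns → (∀ m, ¬ Q (ns m)) → False) : ∀ᶠ n in atTop, Q n := by
  by_contra hc
  rw [Filter.not_eventually] at hc
  obtain ⟨ns, h1, h2⟩ := extraction_of_frequently_atTop hc
  exact h ns h1 h2

lemma lo_of_le {f g r : ℕ → ℝ} (hg : g =o[atTop] r) (h0 : ∀ n, 0 ≤ f n) (h : ∀ n, f n ≤ g n) :
    f =o[atTop] r :=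
  IsBigO.trans_isLittleO (IsBigO.of_bound' (Eventually.of_forall fun n => by
    rw [Real.norm_of_nonneg (h0 n)]; exact (h n).trans (le_abs_self _))) hg

lemma lo_of_sq {f r : ℕ → ℝ} (h : (fun n => f n ^ 2) =o[atTop] fun n => r n ^ 2) :
    f =o[atTop] r := IsLittleO.of_pow h two_ne_zero

lemma lo_sum {ι : Type*} [Fintype ι] {f : ι → ℕ → ℝ} {r : ℕ → ℝ} (h : ∀ i, f i =o[atTop] r) :
    (fun n => ∑ i, f i n) =o[atTop] r := by
  have := IsLittleO.sum (s := univ) fun i _ => h i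
  refine this.congr_left fun n => ?_
  simp

/-! ### Objects -/

/-- A family of square matrices indexed by `Γ`. -/
structure Obj (Γ : Type) where
  X : Type
  [fin : Fintype X]
  [dec : DecidableEq X]
  ρ : Γ → Matrix X X ℂ

attribute [instance] Obj.fin Obj.dec

/-- A class of allowed partial isometries / contractions. -/
structure Cls where
  mor : ∀ {X Y : Type} [Fintype X] [Fintype Y], Matrix Y X ℂ → Prop
  ctr : ∀ {X Y : Type} [Fintype X] [Fintype Y] {T : Matrix Y X ℂ}, mor T → Ctr T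
  adj : ∀ {X Y : Type} [Fintype X] [Fintype Y] {T : Matrix Y X ℂ}, mor T → mor Tᴴ
  mul : ∀ {X Y Z : Type} [Fintype X] [Fintype Y] [Fintype Z] {S : Matrix Z Y ℂ}
    {T : Matrix Y X ℂ}, mor S → mor T → mor (S * T)
  emb : ∀ {X Y : Type} [Fintype X] [Fintype Y] [DecidableEq Y] {f : X → Y},
    Function.Injective f → mor (emb f)
  blk : ∀ {ι : Type} [Fintype ι] [DecidableEq ι] {A B : ι → Type} [∀ i, Fintype (A i)]
    [∀ i, Fintype (B i)] {T : ∀ i, Matrix (B i) (A i) ℂ}, (∀ i, mor (T i)) →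
    mor (blockDiagonal' T)
  cpl : ∀ {X Y : Type} [Fintype X] [Fintype Y] [DecidableEq X] [DecidableEq Y]
    {T : Matrix Y X ℂ}, mor T → Fintype.card X = Fintype.card Y →
    ∃ U : Matrix Y X ℂ, mor U ∧ Uᴴ * U = 1 ∧ U * Uᴴ = 1 ∧ ‖U - T‖ ≤ ‖1 - Tᴴ * T‖

variable (C : Cls) {Γ : Type}

lemma Cls.left {X Y Z : Type} [Fintype X] [Fintype Y] [Fintype Z] {T : Matrix Y X ℂ}
    (h : C.mor T) (B : Matrix X Z ℂ) : ‖T * B‖ ≤ ‖B‖ := (C.ctr h).left B

lemma Cls.right {X Y Z : Type} [Fintype X] [Fintype Y] [Fintype Z] {T : Matrix Y X ℂ}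
    (h : C.mor T) (B : Matrix Z Y ℂ) : ‖B * T‖ ≤ ‖B‖ := (C.ctr (C.adj h)).right B

lemma Cls.one {X : Type} [Fintype X] [DecidableEq X] : C.mor (1 : Matrix X X ℂ) := by
  rw [← emb_id]; exact C.emb Function.injective_id

namespace Obj

/-- dimension -/
def dim (a : Obj Γ) : ℕ := Fintype.card a.X

/-- values are unitaries of the class -/
def InA (a : Obj Γ) : Prop :=
  ∀ g, C.mor (a.ρ g) ∧ (a.ρ g)ᴴ * a.ρ g = 1 ∧ a.ρ g * (a.ρ g)ᴴ = 1

/-- a homomorphism into the unitaries of the class -/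
def Hom [Group Γ] (a : Obj Γ) : Prop := a.InA C ∧ ∀ g h, a.ρ (g * h) = a.ρ g * a.ρ h

/-- direct sum -/
@[reducible] def sum {ι : Type} [Fintype ι] [DecidableEq ι] (f : ι → Obj Γ) : Obj Γ where
  X := Σ i, (f i).X
  ρ g := blockDiagonal' fun i => (f i).ρ g

/-- trivial object on a type -/
@[reducible] def triv (Γ : Type) (X : Type) [Fintype X] [DecidableEq X] : Obj Γ where
  X := X
  ρ _ := 1

/-- restriction along a map -/
@[reducible] def res {H : Type} (i : H → Γ) (a : Obj Γ) : Obj H where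
  X := a.X
  ρ h := a.ρ (i h)

/-- same space, new matrices -/
@[reducible] def re {H : Type} (a : Obj Γ) (ψ : H → Matrix a.X a.X ℂ) : Obj H where
  X := a.X
  ρ := ψ

lemma dim_sum {ι : Type} [Fintype ι] [DecidableEq ι] (f : ι → Obj Γ) :
    (sum f).dim = ∑ i, (f i).dim := Fintype.card_sigma

lemma dim_triv (X : Type) [Fintype X] [DecidableEq X] : (triv Γ X).dim = Fintype.card X := rfl

variable {C}

lemma InA.sum {ι : Type} [Fintype ι] [DecidableEq ι] {f : ι → Obj Γ} (h : ∀ i, (f i).InA C) :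
    (sum f).InA C := by
  intro g
  refine ⟨C.blk fun i => (h i g).1, ?_, ?_⟩
  · change (blockDiagonal' fun i => (f i).ρ g)ᴴ * (blockDiagonal' fun i => (f i).ρ g) = 1
    rw [blockDiagonal'_conjTranspose, ← blockDiagonal'_mul, ← blockDiagonal'_one]
    congr 1; funext i; exact (h i g).2.1
  · change (blockDiagonal' fun i => (f i).ρ g) * (blockDiagonal' fun i => (f i).ρ g)ᴴ = 1
    rw [blockDiagonal'_conjTranspose, ← blockDiagonal'_mul, ← blockDiagonal'_one]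
    congr 1; funext i; exact (h i g).2.2

lemma Hom.sum [Group Γ] {ι : Type} [Fintype ι] [DecidableEq ι] {f : ι → Obj Γ}
    (h : ∀ i, (f i).Hom C) : (sum f).Hom C := by
  refine ⟨InA.sum fun i => (h i).1, fun g k => ?_⟩
  change (blockDiagonal' fun i => (f i).ρ (g * k)) =
    (blockDiagonal' fun i => (f i).ρ g) * (blockDiagonal' fun i => (f i).ρ k)
  rw [← blockDiagonal'_mul]
  congr 1; funext i; exact (h i).2 g k

lemma hom_triv [Group Γ] (X : Type) [Fintype X] [DecidableEq X] : (triv Γ X).Hom C :=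
  ⟨fun _ => ⟨C.one, by simp, by simp⟩, fun _ _ => by simp⟩

lemma Hom.res [Group Γ] {H : Type} [Group H] (i : H →* Γ) {a : Obj Γ} (h : a.Hom C) :
    (res i a).Hom C :=
  ⟨fun g => h.1 (i g), fun g k => by
    change a.ρ (i (g * k)) = a.ρ (i g) * a.ρ (i k)
    rw [map_mul, h.2]⟩

lemma Hom.one [Group Γ] {a : Obj Γ} (h : a.Hom C) : a.ρ 1 = 1 := by
  have h1 := h.2 1 1
  rw [mul_one] at h1
  calc a.ρ 1 = ((a.ρ 1)ᴴ * a.ρ 1) * a.ρ 1 := by rw [(h.1 1).2.1, Matrix.one_mul]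
    _ = (a.ρ 1)ᴴ * (a.ρ 1 * a.ρ 1) := by rw [Matrix.mul_assoc]
    _ = 1 := by rw [← h1, (h.1 1).2.1]

lemma Hom.inv [Group Γ] {a : Obj Γ} (h : a.Hom C) (g : Γ) : a.ρ g⁻¹ = (a.ρ g)ᴴ := by
  calc a.ρ g⁻¹ = a.ρ g⁻¹ * (a.ρ g * (a.ρ g)ᴴ) := by rw [(h.1 g).2.2, Matrix.mul_one]
    _ = a.ρ (g⁻¹ * g) * (a.ρ g)ᴴ := by rw [h.2, Matrix.mul_assoc]
    _ = _ := by rw [inv_mul_cancel, h.one, Matrix.one_mul]

end Obj

open Obj

/-- `a` is a subobject of `b`. -/
def Sub (a b : Obj Γ) : Prop :=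
  ∃ J : Matrix b.X a.X ℂ, C.mor J ∧ Jᴴ * J = 1 ∧ ∀ g, b.ρ g * J = J * a.ρ g

/-- exact isomorphism -/
def Iso (a b : Obj Γ) : Prop :=
  ∃ U : Matrix b.X a.X ℂ, C.mor U ∧ Uᴴ * U = 1 ∧ U * Uᴴ = 1 ∧ ∀ g, b.ρ g * U = U * a.ρ g

/-- asymptotic closeness at scale `r` -/
def Close (r : ℕ → ℝ) (a b : ℕ → Obj Γ) : Prop :=
  ∃ T : ∀ n, Matrix (b n).X (a n).X ℂ, (∀ n, C.mor (T n)) ∧
    (fun n => ‖1 - (T n)ᴴ * T n‖) =o[atTop] r ∧ (fun n => ‖1 - T n * (T n)ᴴ‖) =o[atTop] r ∧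
    ∀ g, (fun n => ‖(b n).ρ g * T n - T n * (a n).ρ g‖) =o[atTop] r

variable {C}

lemma Iso.sub {a b : Obj Γ} (h : Iso C a b) : Sub C a b := by
  obtain ⟨U, h1, h2, -, h4⟩ := h
  exact ⟨U, h1, h2, h4⟩

lemma Iso.symm {a b : Obj Γ} (h : Iso C a b) : Iso C b a := by
  obtain ⟨U, h1, h2, h3, h4⟩ := h
  refine ⟨Uᴴ, C.adj h1, by simpa using h3, by simpa using h2, fun g => ?_⟩
  calc a.ρ g * Uᴴ = (Uᴴ * U) * a.ρ g * Uᴴ := by rw [h2, Matrix.one_mul]
    _ = Uᴴ * (U * a.ρ g) * Uᴴ := by simp only [Matrix.mul_assoc]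
    _ = Uᴴ * b.ρ g * (U * Uᴴ) := by rw [← h4]; simp only [Matrix.mul_assoc]
    _ = _ := by rw [h3, Matrix.mul_one]

lemma Iso.dim_eq {a b : Obj Γ} (h : Iso C a b) : a.dim = b.dim := by
  obtain ⟨U, -, h2, h3, -⟩ := h
  have : trace (Uᴴ * U) = trace (U * Uᴴ) := trace_mul_comm _ _
  rw [h2, h3, trace_one, trace_one] at this
  exact_mod_cast this

lemma Iso.res {H : Type} (i : H → Γ) {a b : Obj Γ} (h : Iso C a b) :
    Iso C (res i a) (res i b) := by
  obtain ⟨U, h1, h2, h3, h4⟩ := h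
  exact ⟨U, h1, h2, h3, fun g => h4 (i g)⟩

lemma Sub.trans {a b c : Obj Γ} (h : Sub C a b) (h' : Sub C b c) : Sub C a c := by
  obtain ⟨J, h1, h2, h3⟩ := h
  obtain ⟨K, k1, k2, k3⟩ := h'
  refine ⟨K * J, C.mul k1 h1, ?_, fun g => ?_⟩
  · rw [conjTranspose_mul]
    calc Jᴴ * Kᴴ * (K * J) = Jᴴ * (Kᴴ * K) * J := by simp only [Matrix.mul_assoc]
      _ = 1 := by rw [k2, Matrix.mul_one, h2]
  · rw [← Matrix.mul_assoc, k3, Matrix.mul_assoc, h3, Matrix.mul_assoc]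

lemma sub_sum {ι : Type} [Fintype ι] [DecidableEq ι] (f : ι → Obj Γ) (i : ι) :
    Sub C (f i) (Obj.sum f) := by
  let J : Matrix (Σ j, (f j).X) (f i).X ℂ := emb (fun x : (f i).X => (⟨i, x⟩ : Σ j, (f j).X))
  have hi : Function.Injective (fun x : (f i).X => (⟨i, x⟩ : Σ j, (f j).X)) :=
    sigma_mk_injective (β := fun j => (f j).X)
  exact ⟨J, C.emb hi, emb_adj_emb hi, fun g => blk_mul_emb_mk (fun i => (f i).ρ g) i⟩

lemma close_of_sub {r : ℕ → ℝ} {a b : ℕ → Obj Γ} (h : ∀ n, Sub C (a n) (b n))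
    (hd : (fun n => ((b n).dim : ℝ) - (a n).dim) =o[atTop] fun n => r n ^ 2) :
    Close C r a b := by
  choose J h1 h2 h3 using h
  refine ⟨J, h1, ?_, ?_, fun g => ?_⟩
  · simp [h2]
  · apply lo_of_sq
    refine hd.congr_left fun n => ?_
    rw [norm_one_sub_isometry (h2 n)]; rfl
  · simp [h3]

lemma close_of_iso {r : ℕ → ℝ} {a b : ℕ → Obj Γ} (h : ∀ n, Iso C (a n) (b n)) :
    Close C r a b :=
  close_of_sub (fun n => (h n).sub) (by simp [fun n => (h n).dim_eq])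

lemma close_of_near {r : ℕ → ℝ} {a : ℕ → Obj Γ} (ψ : ∀ n, Γ → Matrix (a n).X (a n).X ℂ)
    (h : ∀ g, (fun n => ‖(a n).ρ g - ψ n g‖) =o[atTop] r) :
    Close C r a (fun n => (a n).re (ψ n)) := by
  have h0 : (fun n => ‖(1 : Matrix (a n).X (a n).X ℂ) - 1ᴴ * 1‖) =o[atTop] r := by simp
  have h1 : (fun n => ‖(1 : Matrix (a n).X (a n).X ℂ) - 1 * 1ᴴ‖) =o[atTop] r := by simp
  have h2 : ∀ g, (fun n => ‖ψ n g * (1 : Matrix (a n).X (a n).X ℂ) - 1 * (a n).ρ g‖)
      =o[atTop] r := fun g => (h g).congr_left fun n => by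
    rw [Matrix.mul_one, Matrix.one_mul, norm_sub_rev]
  exact ⟨fun n => (1 : Matrix (a n).X (a n).X ℂ), fun n => C.one, h0, h1, h2⟩

lemma Close.res {H : Type} (i : H → Γ) {r : ℕ → ℝ} {a b : ℕ → Obj Γ} (h : Close C r a b) :
    Close C r (fun n => res i (a n)) (fun n => res i (b n)) := by
  obtain ⟨T, h1, h2, h3, h4⟩ := h
  exact ⟨T, h1, h2, h3, fun g => h4 (i g)⟩

lemma Close.symm {r : ℕ → ℝ} {a b : ℕ → Obj Γ} (h : Close C r a b) (ha : ∀ n, (a n).InA C)
    (hb : ∀ n, (b n).InA C) : Close C r b a := by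
  obtain ⟨T, h1, h2, h3, h4⟩ := h
  refine ⟨fun n => (T n)ᴴ, fun n => C.adj (h1 n), by simpa using h3, by simpa using h2,
    fun g => (h4 g).congr_left fun n => ?_⟩
  rw [← frobenius_norm_conjTranspose ((a n).ρ g * (T n)ᴴ - _), conjTranspose_sub,
    conjTranspose_mul, conjTranspose_mul, conjTranspose_conjTranspose,
    ← norm_isometry_mul (hb n g).2.1 (T n * _ - _),
    ← norm_mul_coisometry (ha n g).2.2 ((b n).ρ g * _)]
  congr 1
  rw [Matrix.mul_sub, Matrix.sub_mul]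
  congr 1
  · rw [Matrix.mul_assoc, Matrix.mul_assoc, (ha n g).2.1, Matrix.mul_one]
  · rw [← Matrix.mul_assoc, (hb n g).2.2, Matrix.one_mul]

lemma Close.trans {r : ℕ → ℝ} {a b c : ℕ → Obj Γ} (h : Close C r a b) (h' : Close C r b c) :
    Close C r a c := by
  obtain ⟨T, h1, h2, h3, h4⟩ := h
  obtain ⟨S, k1, k2, k3, k4⟩ := h'
  refine ⟨fun n => S n * T n, fun n => C.mul (k1 n) (h1 n), ?_, ?_, fun g => ?_⟩
  · refine lo_of_le (h2.add k2) (fun n => norm_nonneg _) fun n => ?_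
    have : 1 - (S n * T n)ᴴ * (S n * T n) =
        (1 - (T n)ᴴ * T n) + (T n)ᴴ * ((1 - (S n)ᴴ * S n) * T n) := by
      simp only [conjTranspose_mul, Matrix.sub_mul, Matrix.mul_sub, Matrix.one_mul,
        Matrix.mul_assoc]
      abel
    rw [this]
    exact (norm_add_le _ _).trans (add_le_add le_rfl
      ((C.left (C.adj (h1 n)) _).trans (C.right (h1 n) _)))
  · refine lo_of_le (k3.add h3) (fun n => norm_nonneg _) fun n => ?_
    have : 1 - (S n * T n) * (S n * T n)ᴴ =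
        (1 - S n * (S n)ᴴ) + S n * ((1 - T n * (T n)ᴴ) * (S n)ᴴ) := by
      simp only [conjTranspose_mul, Matrix.sub_mul, Matrix.mul_sub, Matrix.one_mul,
        Matrix.mul_assoc]
      abel
    rw [this]
    exact (norm_add_le _ _).trans (add_le_add le_rfl
      ((C.left (k1 n) _).trans (C.right (C.adj (k1 n)) _)))
  · refine lo_of_le ((k4 g).add (h4 g)) (fun n => norm_nonneg _) fun n => ?_
    have : (c n).ρ g * (S n * T n) - S n * T n * (a n).ρ g =
        ((c n).ρ g * S n - S n * (b n).ρ g) * T n +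
          S n * ((b n).ρ g * T n - T n * (a n).ρ g) := by
      simp only [Matrix.sub_mul, Matrix.mul_sub, Matrix.mul_assoc]
      abel
    rw [this]
    exact (norm_add_le _ _).trans (add_le_add (C.right (h1 n) _) (C.left (k1 n) _))

lemma Close.sum {ι : Type} [Fintype ι] [DecidableEq ι] {r : ℕ → ℝ} {a b : ι → ℕ → Obj Γ}
    (h : ∀ i, Close C r (a i) (b i)) :
    Close C r (fun n => Obj.sum fun i => a i n) (fun n => Obj.sum fun i => b i n) := by
  choose T h1 h2 h3 h4 using h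
  refine ⟨fun n => blockDiagonal' fun i => T i n, fun n => C.blk fun i => h1 i n, ?_, ?_,
    fun g => ?_⟩
  · refine lo_of_le (lo_sum h2) (fun n => norm_nonneg _)
      fun n => ?_
    refine le_trans (le_of_eq ?_) (norm_blk_le fun i => 1 - (T i n)ᴴ * T i n)
    congr 1
    rw [blockDiagonal'_conjTranspose, ← blockDiagonal'_mul]
    change (1 : Matrix (Σ i, (a i n).X) (Σ i, (a i n).X) ℂ) - _ = _
    rw [← blockDiagonal'_one, ← blockDiagonal'_sub]
    rfl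
  · refine lo_of_le (lo_sum h3) (fun n => norm_nonneg _)
      fun n => ?_
    refine le_trans (le_of_eq ?_) (norm_blk_le fun i => 1 - T i n * (T i n)ᴴ)
    congr 1
    rw [blockDiagonal'_conjTranspose, ← blockDiagonal'_mul]
    change (1 : Matrix (Σ i, (b i n).X) (Σ i, (b i n).X) ℂ) - _ = _
    rw [← blockDiagonal'_one, ← blockDiagonal'_sub]
    rfl
  · refine lo_of_le (lo_sum fun i => h4 i g) (fun n => norm_nonneg _)
      fun n => ?_
    refine le_trans (le_of_eq ?_) (norm_blk_le fun i => (b i n).ρ g * T i n - T i n * (a i n).ρ g)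
    congr 1
    change (blockDiagonal' fun i => (b i n).ρ g) * _ - _ * (blockDiagonal' fun i => (a i n).ρ g) = _
    rw [← blockDiagonal'_mul, ← blockDiagonal'_mul, ← blockDiagonal'_sub]
    rfl

end Pool.Agent.H845Z.St
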