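import Pool.Agent.H845Z.St.Cls

/-!
Two lemmas on lattice points.
-/

set_option autoImplicit false

namespace Pool.Agent.H845Z.St

open Finset Filter Asymptotics Topology

lemma exists_rat_functional {T : Type} [Fintype T] (p : T → ℝ) (δ : ℝ) (hδ : 0 < δ) :
    ∃ l : ℝ →ₗ[ℚ] ℚ, ∀ τ, |(l (p τ) : ℝ) - p τ| < δ := by
  classical
  let b := Module.Basis.ofVectorSpace ℚ ℝ
  let w : T → ℝ := fun τ => ∑ j ∈ (b.repr (p τ)).support, |((b.repr (p τ) j : ℚ) : ℝ)|
  have hw : ∀ τ, 0 ≤ w τ := fun τ => Finset.sum_nonneg fun _ _ => abs_nonneg _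
  let W : ℝ := 1 + ∑ τ, w τ
  have hW : ∀ τ, w τ < W := fun τ => by
    have := Finset.single_le_sum (f := w) (fun τ _ => hw τ) (mem_univ τ)
    simp only [W]; linarith
  have hW0 : 0 < W := by
    have : 0 ≤ ∑ τ, w τ := Finset.sum_nonneg fun τ _ => hw τ
    simp only [W]; linarith
  choose q hq using fun j => exists_rat_near (b j : ℝ) (div_pos hδ hW0)
  refine ⟨b.constr ℚ q, fun τ => ?_⟩
  have e1 : ((b.constr ℚ q (p τ) : ℚ) : ℝ) =
      ∑ j ∈ (b.repr (p τ)).support, ((b.repr (p τ) j : ℚ) : ℝ) * (q j : ℝ) := by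
    rw [Module.Basis.constr_apply, Finsupp.sum]
    push_cast
    simp
  have e2 : p τ = ∑ j ∈ (b.repr (p τ)).support, ((b.repr (p τ) j : ℚ) : ℝ) * (b j : ℝ) := by
    conv_lhs => rw [← b.linearCombination_repr (p τ)]
    rw [Finsupp.linearCombination_apply, Finsupp.sum]
    simp [Rat.smul_def]
  have e3 : ((b.constr ℚ q (p τ) : ℚ) : ℝ) - p τ =
      ∑ j ∈ (b.repr (p τ)).support, ((b.repr (p τ) j : ℚ) : ℝ) * ((q j : ℝ) - b j) := by
    simp only [mul_sub]
    rw [Finset.sum_sub_distrib, ← e1, ← e2]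
  rw [e3]
  calc _ ≤ ∑ j ∈ (b.repr (p τ)).support, |((b.repr (p τ) j : ℚ) : ℝ)| * (δ / W) := by
        refine (Finset.abs_sum_le_sum_abs _ _).trans (Finset.sum_le_sum fun j _ => ?_)
        rw [abs_mul]
        apply mul_le_mul_of_nonneg_left _ (abs_nonneg _)
        rw [abs_sub_comm]; exact (hq j).le
    _ = w τ * (δ / W) := by rw [← Finset.sum_mul]
    _ < W * (δ / W) := mul_lt_mul_of_pos_right (hW τ) (div_pos hδ hW0)
    _ = δ := by field_simp

lemma exists_rat_point {T I : Type} [Fintype T] (v : T → I → ℚ) (p : T → ℝ) (h0 : ∀ τ, 0 ≤ p τ)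
    (h1 : ∀ τ, p τ ≤ 1) (hp : ∀ i, ∑ τ, p τ * (v τ i : ℝ) = 0) (η : ℝ) (hη : 0 < η)
    (hη2 : η ≤ 1 / 2) :
    ∃ q : T → ℚ, (∀ τ, 0 ≤ q τ) ∧ (∀ τ, q τ = 0 ∨ (q τ : ℝ) < p τ) ∧ (∀ τ, (q τ : ℝ) ≤ 1) ∧
      (∀ τ, p τ - q τ ≤ 2 * η) ∧ ∀ i, ∑ τ, q τ * v τ i = 0 := by
  classical
  obtain ⟨δ, hδ, hδ1, hδ2⟩ : ∃ δ : ℝ, 0 < δ ∧ δ ≤ η ∧ ∀ τ, 0 < p τ → δ ≤ η * p τ := by
    have : ∀ᶠ δ : ℝ in 𝓝[>] 0, δ ≤ η ∧ ∀ τ, 0 < p τ → δ ≤ η * p τ := by
      apply Filter.Eventually.filter_mono nhdsWithin_le_nhds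
      refine (eventually_le_nhds hη).and (eventually_all.2 fun τ => ?_)
      by_cases h : 0 < p τ
      · exact (eventually_le_nhds (mul_pos hη h)).mono fun δ hδ _ => hδ
      · exact Eventually.of_forall fun δ h' => absurd h' h
    obtain ⟨δ, h1, h2⟩ := (this.and self_mem_nhdsWithin).exists
    exact ⟨δ, h2, h1.1, h1.2⟩
  obtain ⟨l, hl⟩ := exists_rat_functional (fun τ => (1 - η) * p τ) δ hδ
  have hz : ∀ τ, ¬ 0 < p τ → l ((1 - η) * p τ) = 0 := fun τ h => by
    rw [le_antisymm (not_lt.mp h) (h0 τ)]; simp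
  refine ⟨fun τ => l ((1 - η) * p τ), fun τ => ?_, fun τ => ?_, fun τ => ?_, fun τ => ?_,
    fun i => ?_⟩
  · by_cases h : 0 < p τ
    · have a1 := (abs_lt.mp (hl τ)).1
      have a2 := hδ2 τ h
      have : (0 : ℝ) ≤ (l ((1 - η) * p τ) : ℝ) := by nlinarith
      exact_mod_cast this
    · exact (hz τ h).ge
  · by_cases h : 0 < p τ
    · right
      have a1 := (abs_lt.mp (hl τ)).2
      have a2 := hδ2 τ h
      nlinarith
    · exact Or.inl (hz τ h)
  · by_cases h : 0 < p τ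
    · have a1 := (abs_lt.mp (hl τ)).2
      have a2 := hδ2 τ h
      nlinarith [h1 τ]
    · simp only [hz τ h]; norm_num
  · have a1 := (abs_lt.mp (hl τ)).1
    nlinarith [h1 τ, h0 τ]
  · have : ∑ τ, l ((1 - η) * p τ) * v τ i = l (∑ τ, v τ i • ((1 - η) * p τ)) := by
      rw [map_sum]
      refine Finset.sum_congr rfl fun τ _ => ?_
      rw [map_smul, smul_eq_mul, mul_comm]
    rw [this]
    have h2 : ∑ τ, v τ i • ((1 - η) * p τ) = (1 - η) * ∑ τ, p τ * (v τ i : ℝ) := by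
      rw [Finset.mul_sum]
      refine Finset.sum_congr rfl fun τ _ => ?_
      rw [Rat.smul_def]; ring
    rw [h2, hp i, mul_zero, map_zero]

lemma common_den {T : Type} [Fintype T] (q : T → ℚ) (h0 : ∀ τ, 0 ≤ q τ) :
    ∃ (D : ℕ) (a : T → ℕ), 0 < D ∧ ∀ τ, (a τ : ℚ) = D * q τ := by
  classical
  refine ⟨∏ τ, (q τ).den, fun τ => (∏ σ ∈ univ.erase τ, (q σ).den) * (q τ).num.toNat,
    Finset.prod_pos fun τ _ => (q τ).den_pos, fun τ => ?_⟩
  rw [← Finset.prod_erase_mul _ _ (mem_univ τ)]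
  have h1 : (((q τ).num.toNat : ℕ) : ℚ) = (q τ).num := by
    have := Int.toNat_of_nonneg (Rat.num_nonneg.mpr (h0 τ))
    exact_mod_cast this
  rw [Nat.cast_mul, Nat.cast_mul, h1, mul_assoc, Rat.den_mul_eq_num]

theorem cone {T I : Type} [Fintype T] (v : T → I → ℚ) (z : ℕ) (hz : 0 < z) (N : ℕ → ℕ)
    (hN : Tendsto N atTop atTop) (t : ℕ → T → ℕ) (ht : ∀ n τ, t n τ ≤ N n)
    (hv : ∀ i, (fun n => ∑ τ, (t n τ : ℝ) * (v τ i : ℝ)) =o[atTop] fun n => (N n : ℝ)) :
    ∃ s : ℕ → T → ℕ, (∀ n τ, s n τ ≤ t n τ ∧ z ∣ s n τ) ∧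
      (∀ᶠ n in atTop, ∀ i, ∑ τ, (s n τ : ℚ) * v τ i = 0) ∧
      ∀ τ, (fun n => (s n τ : ℝ) - t n τ) =o[atTop] fun n => (N n : ℝ) := by
  classical
  have : ∀ n, Nonempty {s : T → ℕ // ∀ τ, s τ ≤ t n τ ∧ z ∣ s τ} :=
    fun n => ⟨⟨fun _ => 0, fun τ => ⟨Nat.zero_le _, dvd_zero _⟩⟩⟩
  obtain ⟨s, hs1, hs2⟩ := approx_choice (Γ := Unit)
    (fun n => {s : T → ℕ // ∀ τ, s τ ≤ t n τ ∧ z ∣ s τ})
    (fun n s => ∀ i, ∑ τ, (s.1 τ : ℚ) * v τ i = 0)
    (fun n s _ => ∑ τ, |(s.1 τ : ℝ) - t n τ|) (fun n => (N n : ℝ)) (by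
      intro F ε hε
      apply ev_of_subseq
      intro ns hns hbad
      let x : ℕ → T → ℝ := fun m τ => (t (ns m) τ : ℝ) / N (ns m)
      have hx : ∀ m, x m ∈ Set.Icc (0 : T → ℝ) 1 := fun m =>
        ⟨fun τ => by simp only [x, Pi.zero_apply]; positivity, fun τ => by
          simp only [x, Pi.one_apply]
          apply div_le_one_of_le₀ _ (Nat.cast_nonneg _)
          exact_mod_cast ht _ _⟩
      obtain ⟨p, hp, ms, hms, hlim⟩ := isCompact_Icc.tendsto_subseq hx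
      have hl : ∀ τ, Tendsto (fun m => x (ms m) τ) atTop (𝓝 (p τ)) :=
        fun τ => tendsto_pi_nhds.mp hlim τ
      have hsub : Tendsto (fun m => ns (ms m)) atTop atTop := (hns.comp hms).tendsto_atTop
      have hpv : ∀ i, ∑ τ, p τ * (v τ i : ℝ) = 0 := by
        intro i
        have a1 : Tendsto (fun m => ∑ τ, x (ms m) τ * (v τ i : ℝ)) atTop
            (𝓝 (∑ τ, p τ * (v τ i : ℝ))) :=
          tendsto_finsetSum _ fun τ _ => (hl τ).mul_const _
        have a2 := ((hv i).comp_tendsto hsub).tendsto_div_nhds_zero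
        refine tendsto_nhds_unique a1 (a2.congr fun m => ?_)
        simp only [Function.comp, x, Finset.sum_div]
        exact Finset.sum_congr rfl fun τ _ => by ring
      set η : ℝ := min (1 / 2) (ε / (4 * (Fintype.card T + 1))) with hη
      have hη0 : 0 < η := lt_min (by norm_num) (by positivity)
      obtain ⟨q, q0, q1, q2, q3, q4⟩ := exists_rat_point v p hp.1 hp.2 hpv η hη0 (min_le_left _ _)
      obtain ⟨D, a, hD, ha⟩ := common_den q q0
      have ev1 : ∀ᶠ m in atTop, ∀ τ, q τ = 0 ∨ (q τ : ℝ) < x (ms m) τ := by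
        rw [eventually_all]
        intro τ
        rcases q1 τ with h | h
        · exact Eventually.of_forall fun m => Or.inl h
        · exact ((hl τ).eventually (lt_mem_nhds h)).mono fun m hm => Or.inr hm
      have ev2 : ∀ᶠ m in atTop, ∀ τ, x (ms m) τ < p τ + η := by
        rw [eventually_all]
        intro τ
        exact (hl τ).eventually (gt_mem_nhds (by linarith))
      have ev3 : ∀ᶠ m in atTop, ((z * D : ℕ) : ℝ) / η ≤ N (ns (ms m)) :=
        (tendsto_natCast_atTop_atTop.comp (hN.comp hsub)).eventually_ge_atTop _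
      obtain ⟨m, e1, e2, e3⟩ := (ev1.and (ev2.and ev3)).exists
      set n := ns (ms m) with hn
      have hzD : 0 < z * D := Nat.mul_pos hz hD
      have hzDR : (0 : ℝ) < ((z * D : ℕ) : ℝ) := by exact_mod_cast hzD
      have hNpos : (0 : ℝ) < N n := lt_of_lt_of_le (div_pos hzDR hη0) e3
      rw [div_le_iff₀ hη0] at e3
      set k := N n / (z * D) with hk
      have k1 : ((k * (z * D) : ℕ) : ℝ) ≤ N n := by exact_mod_cast Nat.div_mul_le_self _ _
      have k2 : (N n : ℝ) < ((k * (z * D) : ℕ) : ℝ) + ((z * D : ℕ) : ℝ) := by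
        have := Nat.lt_div_mul_add (a := N n) hzD
        exact_mod_cast this
      have hsR : ∀ τ, ((k * z * a τ : ℕ) : ℝ) = ((k * (z * D) : ℕ) : ℝ) * q τ := by
        intro τ
        have : ((a τ : ℚ) : ℝ) = ((D * q τ : ℚ) : ℝ) := by rw [ha τ]
        push_cast at this ⊢
        rw [this]; ring
      have hle : ∀ τ, ((k * z * a τ : ℕ) : ℝ) ≤ t n τ := by
        intro τ
        rw [hsR]
        rcases e1 τ with h | h
        · rw [h]; simp
        · simp only [x] at h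
          rw [lt_div_iff₀ hNpos] at h
          have : (0 : ℝ) ≤ q τ := by exact_mod_cast q0 τ
          nlinarith
      apply hbad (ms m)
      refine ⟨⟨fun τ => k * z * a τ, fun τ => ⟨by exact_mod_cast hle τ,
        Dvd.dvd.mul_right (Dvd.intro_left k rfl) _⟩⟩, fun i => ?_, fun _ _ => ?_⟩
      · have : ∑ τ, ((k * z * a τ : ℕ) : ℚ) * v τ i = (k * z * D : ℚ) * ∑ τ, q τ * v τ i := by
          rw [Finset.mul_sum]
          refine Finset.sum_congr rfl fun τ _ => ?_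
          push_cast
          rw [ha τ]; ring
        rw [this, q4 i, mul_zero]
      · have hb : ∀ τ, |((k * z * a τ : ℕ) : ℝ) - t n τ| ≤ 4 * η * N n := by
          intro τ
          rw [abs_sub_comm, abs_of_nonneg (sub_nonneg.mpr (hle τ)), hsR]
          have b1 := e2 τ
          simp only [x] at b1
          rw [div_lt_iff₀ hNpos] at b1
          have b2 := q3 τ
          have b3 := q2 τ
          have b4 : (0 : ℝ) ≤ q τ := by exact_mod_cast q0 τ
          have b5 : (N n - ((z * D : ℕ) : ℝ)) * q τ ≤ ((k * (z * D) : ℕ) : ℝ) * q τ :=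
            mul_le_mul_of_nonneg_right (by linarith) b4
          have b6 : ((z * D : ℕ) : ℝ) * q τ ≤ ((z * D : ℕ) : ℝ) := by nlinarith
          have b7 : (p τ - q τ) * N n ≤ 2 * η * N n := mul_le_mul_of_nonneg_right b2 hNpos.le
          nlinarith
        rw [Real.norm_of_nonneg (Finset.sum_nonneg fun _ _ => abs_nonneg _),
          Real.norm_of_nonneg hNpos.le]
        refine (Finset.sum_le_sum fun τ _ => hb τ).trans ?_
        rw [Finset.sum_const, card_univ, nsmul_eq_mul]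
        have b8 : η ≤ ε / (4 * (Fintype.card T + 1)) := min_le_right _ _
        rw [le_div_iff₀ (by positivity)] at b8
        have b9 : (0 : ℝ) ≤ Fintype.card T := Nat.cast_nonneg _
        nlinarith)
  refine ⟨fun n => (s n).1, fun n => (s n).2, hs1, fun τ => ?_⟩
  rw [← isLittleO_abs_left]
  exact lo_of_le (hs2 ()) (fun n => abs_nonneg _) fun n =>
    Finset.single_le_sum (f := fun τ => |((s n).1 τ : ℝ) - t n τ|) (fun _ _ => abs_nonneg _)
      (mem_univ τ)

theorem lattice {J : Type} [Fintype J] (M₁ M₂ : AddSubmonoid (J → ℤ))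
    (e₁ : ∀ x ∈ M₁, ∃ x' ∈ M₁, x + x' ∈ M₂) (e₂ : ∀ y ∈ M₂, ∃ y' ∈ M₂, y + y' ∈ M₁) (j₀ : J) :
    ∃ c : ℝ, ∀ x ∈ M₁, ∀ y ∈ M₂, ∃ u ∈ M₁, ∃ w ∈ M₂, x + u = y + w ∧
      |(u j₀ : ℝ)| ≤ c * ∑ j, |(x j : ℝ) - y j| := by
  classical
  let L' : AddSubgroup (J → ℤ) :=
    { carrier := {d | ∃ u ∈ M₁, ∃ w ∈ M₂, d = u - w}
      zero_mem' := ⟨0, M₁.zero_mem, 0, M₂.zero_mem, by simp⟩
      add_mem' := by
        rintro _ _ ⟨u, hu, w, hw, rfl⟩ ⟨u', hu', w', hw', rfl⟩
        exact ⟨u + u', M₁.add_mem hu hu', w + w', M₂.add_mem hw hw', by abel⟩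
      neg_mem' := by
        rintro _ ⟨u, hu, w, hw, rfl⟩
        obtain ⟨u', hu', h1⟩ := e₁ u hu
        obtain ⟨w', hw', h2⟩ := e₂ w hw
        exact ⟨u' + (w + w'), M₁.add_mem hu' h2, (u + u') + w', M₂.add_mem h1 hw', by abel⟩ }
  let L : Submodule ℤ (J → ℤ) := AddSubgroup.toIntSubmodule L'
  obtain ⟨n, snf⟩ := L.smithNormalForm (Pi.basisFun ℤ J)
  choose up hup wp hwp hp using fun k => (show (snf.bN k : J → ℤ) ∈ L' from (snf.bN k).2)
  choose um hum wm hwm hm using fun k => L'.neg_mem (show (snf.bN k : J → ℤ) ∈ L' from (snf.bN k).2)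
  let B : ℝ := ∑ k, ∑ j, |((snf.bM.repr (Pi.single j 1) (snf.f k) : ℤ) : ℝ)|
  let A : ℝ := ∑ k, (|(up k j₀ : ℝ)| + |(um k j₀ : ℝ)|)
  refine ⟨B * A, fun x hx y hy => ?_⟩
  have hd : y - x ∈ L' := by
    have := L'.neg_mem (show x - y ∈ L' from ⟨x, hx, y, hy, rfl⟩)
    rwa [neg_sub] at this
  let d : L := ⟨y - x, hd⟩
  let c : Fin n → ℤ := fun k => snf.bN.repr d k
  have hc : ∀ k, |(c k : ℝ)| ≤ B * ∑ j, |(x j : ℝ) - y j| := by
    intro k
    have ha : snf.a k ≠ 0 := by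
      intro h0
      have := snf.snf k
      rw [h0, zero_smul] at this
      exact snf.bN.ne_zero k (Subtype.ext this)
    have h1 := snf.repr_apply_embedding_eq_repr_smul (m := d) (i := k)
    rw [map_smul, Finsupp.smul_apply, smul_eq_mul] at h1
    have h2 : snf.bM.repr (d : J → ℤ) (snf.f k) =
        ∑ j, (y j - x j) * snf.bM.repr (Pi.single j 1) (snf.f k) := by
      have : (d : J → ℤ) = ∑ j, (y j - x j) • (Pi.single j 1 : J → ℤ) := by
        funext i
        simp [d, Finset.sum_apply, Pi.single_apply]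
      rw [this, map_sum, Finsupp.finsetSum_apply]
      refine Finset.sum_congr rfl fun j _ => ?_
      rw [map_smul, Finsupp.smul_apply, smul_eq_mul]
    have h3 : |(c k : ℝ)| ≤ |((snf.a k * c k : ℤ) : ℝ)| := by
      push_cast
      rw [abs_mul]
      have : (1 : ℝ) ≤ |(snf.a k : ℝ)| := by exact_mod_cast Int.one_le_abs ha
      nlinarith [abs_nonneg (c k : ℝ)]
    refine h3.trans ?_
    rw [← h1, h2]
    push_cast
    refine (Finset.abs_sum_le_sum_abs _ _).trans ?_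
    rw [Finset.mul_sum]
    refine Finset.sum_le_sum fun j _ => ?_
    rw [abs_mul, abs_sub_comm, mul_comm]
    apply mul_le_mul_of_nonneg_right _ (abs_nonneg _)
    calc _ ≤ ∑ j, |((snf.bM.repr (Pi.single j 1) (snf.f k) : ℤ) : ℝ)| :=
          Finset.single_le_sum (f := fun j => |((snf.bM.repr (Pi.single j 1) (snf.f k) : ℤ) : ℝ)|)
            (fun _ _ => abs_nonneg _) (mem_univ j)
      _ ≤ B := Finset.single_le_sum
          (f := fun k => ∑ j, |((snf.bM.repr (Pi.single j 1) (snf.f k) : ℤ) : ℝ)|)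
          (fun _ _ => Finset.sum_nonneg fun _ _ => abs_nonneg _) (mem_univ k)
  let u : Fin n → J → ℤ := fun k => (c k).natAbs • (if 0 ≤ c k then up k else um k)
  let w : Fin n → J → ℤ := fun k => (c k).natAbs • (if 0 ≤ c k then wp k else wm k)
  have huw : ∀ k, u k - w k = c k • (snf.bN k : J → ℤ) := by
    intro k
    simp only [u, w]
    rw [← smul_sub, ← natCast_zsmul]
    split_ifs with h
    · rw [← hp k, Int.natAbs_of_nonneg h]
    · rw [← hm k, Int.ofNat_natAbs_of_nonpos (not_le.mp h).le, neg_smul_neg]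
  refine ⟨∑ k, u k, M₁.sum_mem fun k _ => ?_, ∑ k, w k, M₂.sum_mem fun k _ => ?_, ?_, ?_⟩
  · apply M₁.nsmul_mem; split_ifs; exacts [hup k, hum k]
  · apply M₂.nsmul_mem; split_ifs; exacts [hwp k, hwm k]
  · have h1 : ∑ k, u k - ∑ k, w k = y - x := by
      rw [← Finset.sum_sub_distrib, Finset.sum_congr rfl fun k _ => huw k]
      have := congrArg L.subtype (snf.bN.sum_repr d)
      rw [map_sum] at this
      exact this
    rw [← sub_eq_zero, ← sub_eq_zero.mpr h1]; abel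
  · rw [Finset.sum_apply]
    push_cast
    refine (Finset.abs_sum_le_sum_abs _ _).trans ?_
    have hS : 0 ≤ B * ∑ j, |(x j : ℝ) - y j| := by positivity
    calc ∑ k, |(u k j₀ : ℝ)|
        ≤ ∑ k, (B * ∑ j, |(x j : ℝ) - y j|) * (|(up k j₀ : ℝ)| + |(um k j₀ : ℝ)|) := by
          refine Finset.sum_le_sum fun k _ => ?_
          have h4 : |(u k j₀ : ℝ)| = |(c k : ℝ)| * |((if 0 ≤ c k then up k else um k) j₀ : ℝ)| := by
            have h5 : u k j₀ = ((c k).natAbs : ℤ) * (if 0 ≤ c k then up k else um k) j₀ := by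
              simp only [u]
              rw [Pi.smul_apply, nsmul_eq_mul]
            rw [h5]
            push_cast
            rw [abs_mul, abs_abs]
          rw [h4]
          apply mul_le_mul (hc k) _ (abs_nonneg _) hS
          split_ifs
          · linarith [abs_nonneg (um k j₀ : ℝ)]
          · linarith [abs_nonneg (up k j₀ : ℝ)]
      _ = B * A * ∑ j, |(x j : ℝ) - y j| := by rw [← Finset.mul_sum]; ring

end Pool.Agent.H845Z.St
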