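import Pool.Agent.H845Z.St.Defs

/-!
Flexible stability, with respect to a presentation map `π : F_S → G`.
-/

set_option autoImplicit false

namespace Pool.Agent.H845Z.StDefs

open Matrix

/-- Flexible Hilbert-Schmidt stability: almost solutions on `X = ℂ^k` are close to compressions
to `X` of homomorphisms on `Y = ℂ^k ⊕ ℂ^m` with `|Y| ≤ (1 + ε) |X|`. -/
def FlexHS {S G : Type} [Group G] (π : FreeGroup S →* G) : Prop :=
  ∀ ε : ℝ, 0 < ε → ∃ δ : ℝ, 0 < δ ∧ ∃ E : Finset (FreeGroup S), (∀ e ∈ E, π e = 1) ∧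
    ∀ k : ℕ, 0 < k → ∀ φ : FreeGroup S →* unitaryGroup (Fin k) ℂ,
      (∀ e ∈ E, dHS (φ e).1 1 ≤ δ) →
      ∃ (m : ℕ) (ψ : G →* unitaryGroup (Fin k ⊕ Fin m) ℂ), (k + m : ℝ) ≤ (1 + ε) * k ∧
        ∀ s : S, dHS (φ (FreeGroup.of s)).1 (ψ (π (FreeGroup.of s))).1.toBlocks₁₁ ≤ ε

/-- Flexible stability in permutations: almost solutions on `X = Fin k` are close to restrictions
to `X` of actions on `Y = X ⊔ Fin m` with `|Y| ≤ (1 + ε) |X|`; the estimate holds for every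
permutation `τ` of `X` that agrees with `ψ(s)` on `X ∩ ψ(s)⁻¹(X)`. -/
def FlexP {S G : Type} [Group G] (π : FreeGroup S →* G) : Prop :=
  ∀ ε : ℝ, 0 < ε → ∃ δ : ℝ, 0 < δ ∧ ∃ E : Finset (FreeGroup S), (∀ e ∈ E, π e = 1) ∧
    ∀ k : ℕ, 0 < k → ∀ φ : FreeGroup S →* Equiv.Perm (Fin k),
      (∀ e ∈ E, dP (φ e) 1 ≤ δ) →
      ∃ (m : ℕ) (ψ : G →* Equiv.Perm (Fin k ⊕ Fin m)), (k + m : ℝ) ≤ (1 + ε) * k ∧
        ∀ (s : S) (τ : Equiv.Perm (Fin k)),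
          (∀ x y, ψ (π (FreeGroup.of s)) (Sum.inl x) = Sum.inl y → τ x = y) →
          dP (φ (FreeGroup.of s)) τ ≤ ε

/-- `i : H → G` stays injective in some finite quotient of `G`. -/
def SurvivesInFiniteQuotient {H G : Type} [Group H] [Group G] (i : H →* G) : Prop :=
  ∃ N : Subgroup G, N.Normal ∧ N.FiniteIndex ∧ ∀ h, i h ∈ N → h = 1

end Pool.Agent.H845Z.StDefs
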