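import Pool.Agent.H845Z.St.Bridge
import Pool.Agent.H845Z.St.FlexDefs

/-!
From sequential flexible stability to the quantitative definition.
-/

set_option autoImplicit false

namespace Pool.Agent.H845Z.St

open Matrix Finset Filter Asymptotics Obj Topology StDefs
open scoped Matrix.Norms.Frobenius

variable {C : Cls}

lemma place {G : Type} [Group G] {k m : ℕ} {φ : G → Matrix (Fin k) (Fin k) ℂ}
    (hφ : (finObj k φ).InA C) {b : Obj G} (hb : b.Hom C) (hd : b.dim = k + m)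
    {T : Matrix b.X (Fin k) ℂ} (hT : C.mor T) :
    ∃ ψ : G → Matrix (Fin k ⊕ Fin m) (Fin k ⊕ Fin m) ℂ,
      Obj.Hom C ({ X := Fin k ⊕ Fin m, ρ := ψ } : Obj G) ∧ ∀ g, ‖φ g - (ψ g).toBlocks₁₁‖ ≤
        ‖b.ρ g * T - T * φ g‖ + 2 * (√m + ‖1 - Tᴴ * T‖) := by
  let J : Matrix (Fin k ⊕ Fin m) (Fin k) ℂ := emb Sum.inl
  have j0 : C.mor J := C.emb Sum.inl_injective
  have j1 : Jᴴ * J = 1 := emb_adj_emb Sum.inl_injective
  have j2 : ‖1 - J * Jᴴ‖ = √m := by
    rw [← Real.sqrt_sq (norm_nonneg (1 - J * Jᴴ)), norm_one_sub_isometry j1]; simp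
  obtain ⟨U, u1, u2, u3, u4⟩ := C.cpl (C.mul hT (C.adj j0)) (by simpa [Obj.dim] using hd.symm)
  refine ⟨fun g => Uᴴ * b.ρ g * U, hom_conj hb u1 u2 u3, fun g => ?_⟩
  have e1 : ‖U * J - T‖ ≤ √m + ‖1 - Tᴴ * T‖ := by
    have h1 : U * J - T = (U - T * Jᴴ) * J := by
      rw [Matrix.sub_mul, Matrix.mul_assoc, j1, Matrix.mul_one]
    have h2 : 1 - (T * Jᴴ)ᴴ * (T * Jᴴ) = (1 - J * Jᴴ) + J * ((1 - Tᴴ * T) * Jᴴ) := by
      simp only [conjTranspose_mul, conjTranspose_conjTranspose, Matrix.sub_mul, Matrix.mul_sub,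
        Matrix.one_mul, Matrix.mul_assoc]
      abel
    rw [h1]
    refine (C.right j0 _).trans (u4.trans ?_)
    rw [h2, ← j2]
    exact (norm_add_le _ _).trans (add_le_add le_rfl ((C.left j0 _).trans (C.right (C.adj j0) _)))
  have e2 : (Uᴴ * b.ρ g * U).toBlocks₁₁ = Jᴴ * (Uᴴ * b.ρ g * U) * J := by
    ext x y
    rw [mul_emb, emb_adj_mul]; rfl
  have e3 : φ g - Jᴴ * (Uᴴ * b.ρ g * U) * J = (U * J)ᴴ * (((U * J - T) * φ g -
      b.ρ g * (U * J - T)) - (b.ρ g * T - T * φ g)) := by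
    have h1 : (U * J)ᴴ * (U * J) = 1 := by
      rw [conjTranspose_mul, Matrix.mul_assoc, ← Matrix.mul_assoc Uᴴ, u2, Matrix.one_mul, j1]
    have h2 : ((U * J - T) * φ g - b.ρ g * (U * J - T)) - (b.ρ g * T - T * φ g) =
        U * J * φ g - b.ρ g * (U * J) := by
      simp only [Matrix.sub_mul, Matrix.mul_sub]; abel
    rw [h2, Matrix.mul_sub, ← Matrix.mul_assoc (U * J)ᴴ (U * J), h1, Matrix.one_mul,
      conjTranspose_mul]
    simp only [Matrix.mul_assoc]
  rw [e2, e3]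
  refine (C.left (C.adj (C.mul u1 j0)) _).trans ((norm_sub_le _ _).trans ?_)
  have k1 := (C.right (hφ g).1 (U * J - T)).trans e1
  have k2 := (C.left (hb.1 g).1 (U * J - T)).trans e1
  have k3 := norm_sub_le ((U * J - T) * φ g) (b.ρ g * (U * J - T))
  linarith

theorem flex_eps {S G : Type} [Finite S] [Group G] (hG : FlexM C G) (π : FreeGroup S →* G)
    (hπ : Function.Surjective π) (ε : ℝ) (hε : 0 < ε) :
    ∃ δ : ℝ, 0 < δ ∧ ∃ E : Finset (FreeGroup S), (∀ e ∈ E, π e = 1) ∧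
      ∀ k : ℕ, 0 < k → ∀ φ : FreeGroup S → Matrix (Fin k) (Fin k) ℂ, (finObj k φ).Hom C →
        (∀ e ∈ E, ‖φ e - 1‖ ≤ δ * √k) →
        ∃ (m : ℕ) (ψ : G → Matrix (Fin k ⊕ Fin m) (Fin k ⊕ Fin m) ℂ),
          Obj.Hom C ({ X := Fin k ⊕ Fin m, ρ := ψ } : Obj G) ∧ (m : ℝ) ≤ ε * k ∧
          ∀ s, ‖φ (FreeGroup.of s) - (ψ (π (FreeGroup.of s))).toBlocks₁₁‖ ≤ ε * √k := by
  classical
  by_contra hc
  obtain ⟨u, hu⟩ := exists_surjective_nat π.ker
  have h1 : ∀ n : ℕ, ∃ k : ℕ, 0 < k ∧ ∃ φ : FreeGroup S → Matrix (Fin k) (Fin k) ℂ,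
      (finObj k φ).Hom C ∧ (∀ i ≤ n, ‖φ (u i) - 1‖ ≤ 1 / ((n : ℝ) + 1) * √k) ∧
      ¬ ∃ (m : ℕ) (ψ : G → Matrix (Fin k ⊕ Fin m) (Fin k ⊕ Fin m) ℂ),
          Obj.Hom C ({ X := Fin k ⊕ Fin m, ρ := ψ } : Obj G) ∧ (m : ℝ) ≤ ε * k ∧
          ∀ s, ‖φ (FreeGroup.of s) - (ψ (π (FreeGroup.of s))).toBlocks₁₁‖ ≤ ε * √k := by
    intro n
    by_contra h2
    refine hc ⟨1 / ((n : ℝ) + 1), by positivity, (range (n + 1)).image fun i => (u i).1, ?_,
      fun k hk φ hφ h3 => ?_⟩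
    · intro e he
      obtain ⟨i, -, rfl⟩ := mem_image.1 he
      exact (u i).2
    · by_contra h4
      exact h2 ⟨k, hk, φ, hφ, fun i hi => h3 _ (mem_image_of_mem _ (mem_range.2 (by omega))), h4⟩
  choose k hk φ hφ hsm hbad using h1
  have ker : ∀ e, π e = 1 → (fun n => ‖φ n e - 1‖) =o[atTop] fun n => √(k n : ℝ) := by
    intro e he
    obtain ⟨i, hi⟩ := hu ⟨e, he⟩
    rw [isLittleO_iff]
    intro c hc0
    obtain ⟨j, hj⟩ := exists_nat_one_div_lt hc0
    filter_upwards [eventually_ge_atTop i, eventually_ge_atTop j] with n h1 h2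
    have := hsm n i h1
    rw [hi] at this
    rw [norm_norm, Real.norm_of_nonneg (Real.sqrt_nonneg _)]
    refine this.trans (mul_le_mul_of_nonneg_right (le_trans ?_ hj.le) (Real.sqrt_nonneg _))
    apply one_div_le_one_div_of_le (by positivity)
    have : (j : ℝ) ≤ n := by exact_mod_cast h2
    linarith
  have same : ∀ v w, π v = π w → (fun n => ‖φ n v - φ n w‖) =o[atTop] fun n => √(k n : ℝ) := by
    intro v w h
    refine lo_of_le (ker (w⁻¹ * v) (by rw [map_mul, map_inv, h, inv_mul_cancel]))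
      (fun n => norm_nonneg _) fun n => ?_
    have : φ n v - φ n w = φ n w * (φ n (w⁻¹ * v) - 1) := by
      have h2 := (hφ n).2 w (w⁻¹ * v)
      rw [mul_inv_cancel_left] at h2
      rw [Matrix.mul_sub, Matrix.mul_one]
      exact congrArg (· - φ n w) h2
    rw [this]
    exact C.left ((hφ n).1 w).1 _
  let σ := Function.surjInv hπ
  have hσ : ∀ g, π (σ g) = g := Function.surjInv_eq hπ
  have hA : ∀ n, (finObj (k n) fun g => φ n (σ g)).InA C := fun n g => (hφ n).1 _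
  obtain ⟨b, hb, cb⟩ := hG k hk (fun n g => φ n (σ g)) hA fun g h => by
    refine (same (σ g * σ h) (σ (g * h)) (by rw [map_mul, hσ, hσ, hσ])).congr_left fun n => ?_
    exact congrArg (fun M => ‖M - φ n (σ (g * h))‖) ((hφ n).2 _ _)
  have hsq : (fun n => √(k n : ℝ) ^ 2) = fun n => (k n : ℝ) :=
    funext fun n => Real.sq_sqrt (Nat.cast_nonneg _)
  have hO : (fun n => ((Fintype.card (Fin (k n)) : ℕ) : ℝ)) =O[atTop] fun n => √(k n : ℝ) ^ 2 := by
    rw [hsq]; simpa using isBigO_refl _ _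
  have hdim : (fun n => |((b n).dim : ℝ) - k n|) =o[atTop] fun n => √(k n : ℝ) ^ 2 :=
    (cb.dim_lo hO).abs_left.congr_left fun n => by simp [Obj.dim]
  have hm : (fun n => (((b n).dim - k n : ℕ) : ℝ)) =o[atTop] fun n => √(k n : ℝ) ^ 2 := by
    refine lo_of_le hdim (fun n => Nat.cast_nonneg _) fun n => ?_
    rcases le_total (k n) (b n).dim with h | h
    · rw [Nat.cast_sub h]; exact le_abs_self _
    · rw [Nat.sub_eq_zero_of_le h]; simp
  have hp : (fun n => ((k n - (b n).dim : ℕ) : ℝ)) =o[atTop] fun n => √(k n : ℝ) ^ 2 := by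
    refine lo_of_le hdim (fun n => Nat.cast_nonneg _) fun n => ?_
    rcases le_total (b n).dim (k n) with h | h
    · rw [Nat.cast_sub h, abs_sub_comm]; exact le_abs_self _
    · rw [Nat.sub_eq_zero_of_le h]; simp
  obtain ⟨T, t1, t2, -, t4⟩ := cb.trans (close_of_sub
    (b := fun n => (b n).add (triv G (Fin (k n - (b n).dim)))) (fun n => sub_add _ _)
    (hp.congr_left fun n => by rw [dim_add, dim_triv]; simp))
  choose ψ hψ hb' using fun n => place (m := (b n).dim - k n) (hA n)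
    ((hb n).add (hom_triv (Fin (k n - (b n).dim)))) (by
      rw [dim_add, dim_triv, Fintype.card_fin]; omega) (t1 n)
  have hsm' : (fun n => √(((b n).dim - k n : ℕ) : ℝ)) =o[atTop] fun n => √(k n : ℝ) :=
    lo_of_sq (hm.congr_left fun n => (Real.sq_sqrt (Nat.cast_nonneg _)).symm)
  have fin : ∀ s, (fun n => ‖φ n (FreeGroup.of s) - (ψ n (π (FreeGroup.of s))).toBlocks₁₁‖)
      =o[atTop] fun n => √(k n : ℝ) := by
    intro s
    refine lo_of_le ((same (FreeGroup.of s) (σ (π (FreeGroup.of s))) (hσ _).symm).add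
      ((t4 (π (FreeGroup.of s))).add ((hsm'.add t2).const_mul_left 2))) (fun n => norm_nonneg _)
      fun n => ?_
    exact (norm_sub_le_norm_sub_add_norm_sub _ _ _).trans (add_le_add le_rfl (hb' n _))
  obtain ⟨n, h1, h2⟩ := ((hm.bound hε).and (eventually_all.2 fun s => (fin s).bound hε)).exists
  refine hbad n ⟨_, ψ n, hψ n, ?_, fun s => ?_⟩
  · rw [Real.sq_sqrt (Nat.cast_nonneg _)] at h1
    simpa using h1
  · have := h2 s
    rwa [norm_norm, Real.norm_of_nonneg (Real.sqrt_nonneg _)] at this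

theorem flexHS_of {S G : Type} [Finite S] [Group G] (hG : FlexM clsU G) (π : FreeGroup S →* G)
    (hπ : Function.Surjective π) : FlexHS π := by
  intro ε hε
  obtain ⟨δ, hδ, E, hE, h⟩ := flex_eps hG π hπ ε hε
  refine ⟨δ, hδ, E, hE, fun k hk φ hφ => ?_⟩
  have hk' : (0 : ℝ) < √k := Real.sqrt_pos.2 (by exact_mod_cast hk)
  obtain ⟨m, ψ, h1, h2, h3⟩ := h k hk (fun e => (φ e).1) (hom_iff_urep.2 ⟨fun g => (φ g).2,
    fun g h => by
      change (φ (g * h)).1 = (φ g).1 * (φ h).1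
      rw [map_mul]; rfl⟩) fun e he => by
    have := hφ e he
    rwa [dHS_eq, Fintype.card_fin, div_le_iff₀ hk'] at this
  refine ⟨m, MonoidHom.mk' (fun g => ⟨ψ g, (h1.1 g).2⟩) fun g k => Subtype.ext (h1.2 g k),
    by linarith, fun s => ?_⟩
  rw [dHS_eq, Fintype.card_fin, div_le_iff₀ hk']
  exact h3 s

theorem flexP_of {S G : Type} [Finite S] [Group G] (hG : FlexM clsP G) (π : FreeGroup S →* G)
    (hπ : Function.Surjective π) : FlexP π := by
  intro ε hε
  obtain ⟨δ, hδ, E, hE, h⟩ := flex_eps hG π hπ (min ε 1) (by positivity)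
  refine ⟨δ ^ 2 / 2, by positivity, E, hE, fun k hk φ hφ => ?_⟩
  have hk' : (0 : ℝ) < k := by exact_mod_cast hk
  obtain ⟨m, ψ, h1, h2, h3⟩ := h k hk (fun e => emb (φ e)) (hom_pobj φ) fun e he => by
    have := hφ e he
    rw [dP, Fintype.card_fin, div_le_iff₀ hk'] at this
    apply le_of_sq _ (by positivity)
    rw [← emb_id, norm_sq_emb_sub, mul_pow, Real.sq_sqrt hk'.le]
    have e1 : (univ.filter fun x => φ e x ≠ id x) =
      (univ.filter fun x => φ e x ≠ (1 : Equiv.Perm (Fin k)) x) := rfl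
    rw [e1]
    linarith
  obtain ⟨ρ, hρ⟩ := hom_perm h1
  have m1 := min_le_left ε 1
  have m2 := min_le_right ε 1
  have m0 : 0 < min ε 1 := by positivity
  refine ⟨m, ρ, by nlinarith, fun s τ hτ => ?_⟩
  rw [dP, Fintype.card_fin, div_le_iff₀ hk']
  have h4 := pow_le_pow_left₀ (norm_nonneg _) (h3 s) 2
  rw [mul_pow, Real.sq_sqrt hk'.le] at h4
  have hinj : Function.Injective fun x : Fin k => (φ (FreeGroup.of s) x, x) :=
    fun x y h => congrArg Prod.snd h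
  rw [← Finset.card_image_of_injective _ hinj]
  refine (card_le_norm_sq _ _ ?_).trans (h4.trans ?_)
  · intro p hp
    obtain ⟨x, hx, rfl⟩ := mem_image.1 hp
    have h5 : ψ (π (FreeGroup.of s)) = emb (ρ (π (FreeGroup.of s))) := hρ _
    rw [h5]
    change emb _ _ _ - emb (ρ (π (FreeGroup.of s))) (Sum.inl _) (Sum.inl x) = 1
    rw [emb_apply, emb_apply, if_pos rfl, if_neg, sub_zero]
    intro h6
    exact (mem_filter.1 hx).2 (hτ _ _ h6.symm).symm
  · apply mul_le_mul_of_nonneg_right _ hk'.le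
    nlinarith

theorem amalgam_flexHS {H G₁ G₂ S : Type} [Group H] [Group G₁] [Group G₂] [Finite H] [Finite S]
    (i₁ : H →* G₁) (i₂ : H →* G₂) (n₁ : SurvivesInFiniteQuotient i₁)
    (n₂ : SurvivesInFiniteQuotient i₂) (s₁ : HSStable G₁) (s₂ : HSStable G₂)
    (π : FreeGroup S →* Amalgam i₁ i₂) (hπ : Function.Surjective π) : FlexHS π := by
  let _ : Fintype H := Fintype.ofFinite H
  exact flexHS_of ((amal i₁ i₂).flex (tyDataU H) (extU n₁ n₂) (extU n₂ n₁)
    (hsStable_iff.1 s₁).flex (hsStable_iff.1 s₂).flex) π hπ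

theorem amalgam_flexP {H G₁ G₂ S : Type} [Group H] [Group G₁] [Group G₂] [Finite H] [Finite S]
    (i₁ : H →* G₁) (i₂ : H →* G₂) (n₁ : SurvivesInFiniteQuotient i₁)
    (n₂ : SurvivesInFiniteQuotient i₂) (s₁ : PStable G₁) (s₂ : PStable G₂)
    (π : FreeGroup S →* Amalgam i₁ i₂) (hπ : Function.Surjective π) : FlexP π := by
  let _ : Fintype H := Fintype.ofFinite H
  exact flexP_of ((amal i₁ i₂).flex (tyDataP H) (extP n₁ n₂) (extP n₂ n₁)
    (pStable_iff.1 s₁).flex (pStable_iff.1 s₂).flex) π hπ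

end Pool.Agent.H845Z.St
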