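import Pool.Agent.H845Z.St.Stab

/-!
Type invariants for a finite group and gluing over an amalgam.
-/

set_option autoImplicit false

namespace Pool.Agent.H845Z.St

open Matrix Finset Filter Asymptotics Obj
open scoped Matrix.Norms.Frobenius

/-- total defect of an almost intertwiner -/
noncomputable def dft {H : Type} [Fintype H] (a b : Obj H) (T : Matrix b.X a.X ℂ) : ℝ :=
  ‖1 - Tᴴ * T‖ + ‖1 - T * Tᴴ‖ + ∑ h, ‖b.ρ h * T - T * a.ρ h‖

lemma dft_nonneg {H : Type} [Fintype H] (a b : Obj H) (T : Matrix b.X a.X ℂ) : 0 ≤ dft a b T := by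
  unfold dft; positivity

/-- A complete, additive, integer valued invariant of homomorphisms of a finite group. -/
structure TyData (C : Cls) (H : Type) [Group H] [Fintype H] where
  I : Type
  [finI : Fintype I]
  ty : Obj H → I → ℤ
  c : ℝ
  ty_sum : ∀ {ι : Type} [Fintype ι] [DecidableEq ι] (f : ι → Obj H), (∀ i, (f i).Hom C) →
    ∀ j, ty (Obj.sum f) j = ∑ i, ty (f i) j
  cont : ∀ (a b : Obj H), a.Hom C → b.Hom C → ∀ T : Matrix b.X a.X ℂ, C.mor T →
    ∀ j, |(ty a j : ℝ) - ty b j| ≤ c * (√(a.dim) + √(b.dim)) * dft a b T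
  rig : ∀ (a b : Obj H), a.Hom C → b.Hom C → a.dim = b.dim → ty a = ty b →
    ∀ T : Matrix b.X a.X ℂ, C.mor T → ∃ U : Matrix b.X a.X ℂ, C.mor U ∧ Uᴴ * U = 1 ∧
      U * Uᴴ = 1 ∧ (∀ h, b.ρ h * U = U * a.ρ h) ∧ ‖U - T‖ ≤ c * dft a b T

attribute [instance] TyData.finI

variable {C : Cls}

lemma TyData.iso {H : Type} [Group H] [Fintype H] (D : TyData C H) {a b : Obj H} (ha : a.Hom C)
    (hb : b.Hom C) (h : Iso C a b) : D.ty a = D.ty b := by
  obtain ⟨U, h1, h2, h3, h4⟩ := h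
  funext j
  have := D.cont a b ha hb U h1 j
  have h0 : dft a b U = 0 := by simp [dft, h2, h3, h4]
  rw [h0, mul_zero] at this
  have h5 : (D.ty a j : ℝ) - D.ty b j = 0 := abs_nonpos_iff.mp this
  exact_mod_cast sub_eq_zero.mp h5

lemma TyData.zero {H : Type} [Group H] [Fintype H] (D : TyData C H) {a : Obj H} (ha : a.Hom C)
    (h : a.dim = 0) (j : D.I) : D.ty a j = 0 := by
  let f : Empty → Obj H := fun x => x.elim
  have hf : ∀ i, (f i).Hom C := fun i => i.elim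
  have h1 := D.ty_sum f hf j
  have hd : (Obj.sum f).dim = 0 := by rw [dim_sum]; simp
  have : IsEmpty a.X := Fintype.card_eq_zero_iff.mp h
  have h2 := D.cont a (Obj.sum f) ha (Hom.sum hf) (emb fun x => isEmptyElim x)
    (C.emb fun x => isEmptyElim x) j
  rw [h, hd, h1] at h2
  simpa using h2

lemma dft_lo {H : Type} [Fintype H] {r : ℕ → ℝ} {a b : ℕ → Obj H}
    {T : ∀ n, Matrix (b n).X (a n).X ℂ}
    (h2 : (fun n => ‖1 - (T n)ᴴ * T n‖) =o[atTop] r) (h3 : (fun n => ‖1 - T n * (T n)ᴴ‖) =o[atTop] r)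
    (h4 : ∀ g, (fun n => ‖(b n).ρ g * T n - T n * (a n).ρ g‖) =o[atTop] r) :
    (fun n => dft (a n) (b n) (T n)) =o[atTop] r :=
  (h2.add h3).add (lo_sum h4)

lemma sqrt_bigO {f r : ℕ → ℝ} (h0 : ∀ n, 0 ≤ f n) (h : f =O[atTop] fun n => r n ^ 2) :
    (fun n => √(f n)) =O[atTop] r := by
  apply IsBigO.of_pow two_ne_zero
  exact h.congr_left fun n => (Real.sq_sqrt (h0 n)).symm

lemma TyData.close {H : Type} [Group H] [Fintype H] (D : TyData C H) {r : ℕ → ℝ}
    {a b : ℕ → Obj H} (h : Close C r a b) (ha : ∀ n, (a n).Hom C) (hb : ∀ n, (b n).Hom C)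
    (da : (fun n => ((a n).dim : ℝ)) =O[atTop] fun n => r n ^ 2)
    (db : (fun n => ((b n).dim : ℝ)) =O[atTop] fun n => r n ^ 2) (j : D.I) :
    (fun n => (D.ty (a n) j : ℝ) - D.ty (b n) j) =o[atTop] fun n => r n ^ 2 := by
  obtain ⟨T, h1, h2, h3, h4⟩ := h
  have k1 := ((sqrt_bigO (fun n => Nat.cast_nonneg _) da).add
    (sqrt_bigO (fun n => Nat.cast_nonneg _) db)).const_mul_left D.c
  have k2 := k1.mul_isLittleO (dft_lo h2 h3 h4)
  rw [← isLittleO_abs_left]
  refine lo_of_le (k2.congr_right fun n => (sq (r n)).symm) (fun n => abs_nonneg _) fun n => ?_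
  exact D.cont _ _ (ha n) (hb n) (T n) (h1 n) j

/-- Dimension control for close objects. -/
lemma Close.dim_lo {Γ : Type} {r : ℕ → ℝ} {a b : ℕ → Obj Γ} (h : Close C r a b)
    (da : (fun n => ((a n).dim : ℝ)) =O[atTop] fun n => r n ^ 2) :
    (fun n => ((b n).dim : ℝ) - (a n).dim) =o[atTop] fun n => r n ^ 2 := by
  obtain ⟨T, h1, h2, h3, -⟩ := h
  have key : ∀ n, |((b n).dim : ℝ) - (a n).dim| ≤
      √((a n).dim) * ‖1 - (T n)ᴴ * T n‖ + √((b n).dim) * ‖1 - T n * (T n)ᴴ‖ := by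
    intro n
    have e1 : (((b n).dim : ℝ) - (a n).dim : ℝ) =
        (trace (1 * (1 - T n * (T n)ᴴ))).re - (trace (1 * (1 - (T n)ᴴ * T n))).re := by
      rw [Matrix.one_mul, Matrix.one_mul, trace_sub, trace_sub, trace_mul_comm (T n)]
      simp [Obj.dim]
    have b1 := norm_trace_mul_le (1 : Matrix (b n).X (b n).X ℂ) (1 - T n * (T n)ᴴ)
    have b2 := norm_trace_mul_le (1 : Matrix (a n).X (a n).X ℂ) (1 - (T n)ᴴ * T n)
    rw [norm_one_eq] at b1 b2
    rw [e1]
    refine (abs_sub _ _).trans ?_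
    have c1 := (Complex.abs_re_le_norm _).trans b1
    have c2 := (Complex.abs_re_le_norm _).trans b2
    unfold Obj.dim
    linarith
  have db : (fun n => ((b n).dim : ℝ)) =O[atTop] fun n => r n ^ 2 := by
    have k1 : ∀ n, ((b n).dim : ℝ) ≤
        4 * (a n).dim + ‖1 - (T n)ᴴ * T n‖ ^ 2 + ‖1 - T n * (T n)ᴴ‖ ^ 2 := by
      intro n
      have h5 := (abs_le.mp (key n)).2
      have s1 := Real.sq_sqrt (Nat.cast_nonneg (α := ℝ) (a n).dim)
      have s2 := Real.sq_sqrt (Nat.cast_nonneg (α := ℝ) (b n).dim)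
      nlinarith [sq_nonneg (√((a n).dim) - ‖1 - (T n)ᴴ * T n‖),
        sq_nonneg (√((b n).dim) - ‖1 - T n * (T n)ᴴ‖), sq_nonneg ‖1 - (T n)ᴴ * T n‖,
        sq_nonneg (√((a n).dim : ℝ))]
    have k2 := ((da.const_mul_left 4).add (h2.pow two_pos).isBigO).add (h3.pow two_pos).isBigO
    refine IsBigO.trans (IsBigO.of_bound' (Eventually.of_forall fun n => ?_)) k2
    rw [Real.norm_of_nonneg (Nat.cast_nonneg _)]
    exact (k1 n).trans (le_abs_self _)
  have k3 := ((sqrt_bigO (fun n => Nat.cast_nonneg _) da).mul_isLittleO h2).add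
    ((sqrt_bigO (fun n => Nat.cast_nonneg _) db).mul_isLittleO h3)
  rw [← isLittleO_abs_left]
  exact lo_of_le (k3.congr_right fun n => (sq (r n)).symm) (fun n => abs_nonneg _) key

lemma Close.dim_bigO {Γ : Type} {r : ℕ → ℝ} {a b : ℕ → Obj Γ} (h : Close C r a b)
    (da : (fun n => ((a n).dim : ℝ)) =O[atTop] fun n => r n ^ 2) :
    (fun n => ((b n).dim : ℝ)) =O[atTop] fun n => r n ^ 2 :=
  ((h.dim_lo da).isBigO.add da).congr_left fun n => by ring

/-- The unitaries of the class. -/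
def Aut (C : Cls) (X : Type) [Fintype X] [DecidableEq X] : Subgroup (unitaryGroup X ℂ) where
  carrier := {u | C.mor u.1}
  one_mem' := C.one
  mul_mem' := fun ha hb => C.mul ha hb
  inv_mem' := fun ha => C.adj ha

/-- A homomorphic object as a monoid homomorphism. -/
def Obj.Hom.toMH {Γ : Type} [Group Γ] {a : Obj Γ} (h : a.Hom C) : Γ →* Aut C a.X :=
  MonoidHom.mk' (fun g => ⟨⟨a.ρ g, (h.1 g).2.1, (h.1 g).2.2⟩, (h.1 g).1⟩)
    fun g k => Subtype.ext (Subtype.ext (h.2 g k))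

lemma hom_of_MH {Γ : Type} [Group Γ] {X : Type} [Fintype X] [DecidableEq X] (f : Γ →* Aut C X) :
    Obj.Hom C ({ X := X, ρ := fun g => (f g).1.1 } : Obj Γ) :=
  ⟨fun g => ⟨(f g).2, (f g).1.2.1, (f g).1.2.2⟩, fun g k => by
    change (f (g * k)).1.1 = (f g).1.1 * (f k).1.1
    rw [map_mul]; rfl⟩

/-- An abstract amalgamated free product. -/
structure Amal (H G₁ G₂ G : Type) [Group H] [Group G₁] [Group G₂] [Group G] where
  i₁ : H →* G₁
  i₂ : H →* G₂
  j₁ : G₁ →* G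
  j₂ : G₂ →* G
  comm : ∀ h, j₁ (i₁ h) = j₂ (i₂ h)
  lift : ∀ (K : Type) [Group K] (f₁ : G₁ →* K) (f₂ : G₂ →* K), (∀ h, f₁ (i₁ h) = f₂ (i₂ h)) →
    ∃ f : G →* K, (∀ g, f (j₁ g) = f₁ g) ∧ ∀ g, f (j₂ g) = f₂ g
  ind : ∀ P : G → Prop, (∀ g, P (j₁ g)) → (∀ g, P (j₂ g)) → (∀ g k, P g → P k → P (g * k)) →
    ∀ g, P g

variable {H G₁ G₂ G : Type} [Group H] [Group G₁] [Group G₂] [Group G] [Fintype H]

omit [Fintype H] in
lemma Amal.close_res (A : Amal H G₁ G₂ G) {r : ℕ → ℝ} {φ : ℕ → Obj G} (hφ : ∀ n, (φ n).InA C)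
    {a : ℕ → Obj G₁} {b : ℕ → Obj G₂} (ha : ∀ n, (a n).Hom C)
    (ca : Close C r (fun n => res A.j₁ (φ n)) a) (cb : Close C r (fun n => res A.j₂ (φ n)) b) :
    Close C r (fun n => res A.i₁ (a n)) (fun n => res A.i₂ (b n)) := by
  have c1 := (ca.res A.i₁).symm (fun n g => hφ n _) (fun n g => (ha n).1 _)
  have c2 := cb.res A.i₂
  have : (fun n => res A.i₁ (res A.j₁ (φ n))) = fun n => res A.i₂ (res A.j₂ (φ n)) := by
    funext n
    simp only [res, A.comm]
  rw [this] at c1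
  exact c1.trans c2

theorem Amal.glue (A : Amal H G₁ G₂ G) (D : TyData C H) {r : ℕ → ℝ} {φ : ℕ → Obj G}
    (hφ : ∀ n, (φ n).InA C) (hm : AM r φ) {a : ℕ → Obj G₁} {b : ℕ → Obj G₂}
    (ha : ∀ n, (a n).Hom C) (hb : ∀ n, (b n).Hom C)
    (ca : Close C r (fun n => res A.j₁ (φ n)) a) (cb : Close C r (fun n => res A.j₂ (φ n)) b)
    (hd : ∀ᶠ n in atTop, (a n).dim = (b n).dim ∧
      D.ty (res A.i₁ (a n)) = D.ty (res A.i₂ (b n))) :
    ∃ ψ : ∀ n, G → Matrix (a n).X (a n).X ℂ, (∀ n, ((a n).re (ψ n)).Hom C) ∧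
      Close C r φ (fun n => (a n).re (ψ n)) := by
  classical
  obtain ⟨T, t1, t2, t3, t4⟩ := ca
  obtain ⟨S, s1, s2, s3, s4⟩ := cb
  -- the almost intertwiner over `H`
  let R : ∀ n, Matrix (b n).X (a n).X ℂ := fun n => S n * (T n)ᴴ
  have r1 : ∀ n, C.mor (R n) := fun n => C.mul (s1 n) (C.adj (t1 n))
  have hR : (fun n => dft (res A.i₁ (a n)) (res A.i₂ (b n)) (R n)) =o[atTop] r := by
    apply dft_lo (a := fun n => res A.i₁ (a n)) (b := fun n => res A.i₂ (b n))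
    · refine lo_of_le (t3.add s2) (fun n => norm_nonneg _) fun n => ?_
      have : 1 - (R n)ᴴ * R n = (1 - T n * (T n)ᴴ) + T n * ((1 - (S n)ᴴ * S n) * (T n)ᴴ) := by
        simp only [R, conjTranspose_mul, conjTranspose_conjTranspose, Matrix.sub_mul,
          Matrix.mul_sub, Matrix.one_mul, Matrix.mul_assoc]
        abel
      rw [this]
      exact (norm_add_le _ _).trans (add_le_add le_rfl
        ((C.left (t1 n) _).trans (C.right (C.adj (t1 n)) _)))
    · refine lo_of_le (s3.add t2) (fun n => norm_nonneg _) fun n => ?_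
      have : 1 - R n * (R n)ᴴ = (1 - S n * (S n)ᴴ) + S n * ((1 - (T n)ᴴ * T n) * (S n)ᴴ) := by
        simp only [R, conjTranspose_mul, conjTranspose_conjTranspose, Matrix.sub_mul,
          Matrix.mul_sub, Matrix.one_mul, Matrix.mul_assoc]
        abel
      rw [this]
      exact (norm_add_le _ _).trans (add_le_add le_rfl
        ((C.left (s1 n) _).trans (C.right (C.adj (s1 n)) _)))
    · intro h
      refine lo_of_le ((s4 (A.i₂ h)).add (t4 (A.i₁ h))) (fun n => norm_nonneg _) fun n => ?_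
      have e0 : (φ n).ρ (A.j₂ (A.i₂ h)) = (φ n).ρ (A.j₁ (A.i₁ h)) := by rw [A.comm]
      have e1 : (b n).ρ (A.i₂ h) * R n - R n * (a n).ρ (A.i₁ h) =
          ((b n).ρ (A.i₂ h) * S n - S n * (φ n).ρ (A.j₂ (A.i₂ h))) * (T n)ᴴ +
            S n * ((φ n).ρ (A.j₁ (A.i₁ h)) * (T n)ᴴ - (T n)ᴴ * (a n).ρ (A.i₁ h)) := by
        rw [e0]
        simp only [R, Matrix.sub_mul, Matrix.mul_sub, Matrix.mul_assoc]
        abel
      change ‖(b n).ρ (A.i₂ h) * R n - R n * (a n).ρ (A.i₁ h)‖ ≤ _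
      rw [e1]
      refine (norm_add_le _ _).trans (add_le_add (C.right (C.adj (t1 n)) _)
        ((C.left (s1 n) _).trans (le_of_eq ?_)))
      have ua := (ha n).1 (A.i₁ h)
      have uφ := hφ n (A.j₁ (A.i₁ h))
      change _ = ‖(a n).ρ (A.i₁ h) * T n - T n * (φ n).ρ (A.j₁ (A.i₁ h))‖
      rw [← frobenius_norm_conjTranspose ((φ n).ρ (A.j₁ (A.i₁ h)) * (T n)ᴴ - _),
        conjTranspose_sub, conjTranspose_mul, conjTranspose_mul, conjTranspose_conjTranspose,
        ← norm_isometry_mul ua.2.1 (T n * _ - _),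
        ← norm_mul_coisometry uφ.2.2 ((a n).ρ (A.i₁ h) * _)]
      congr 1
      rw [Matrix.mul_sub, Matrix.sub_mul]
      congr 1
      · rw [Matrix.mul_assoc, Matrix.mul_assoc, uφ.2.1, Matrix.mul_one]
      · rw [← Matrix.mul_assoc, ua.2.2, Matrix.one_mul]
  have key : ∀ n, ∃ ψ : G → Matrix (a n).X (a n).X ℂ, ((a n).re ψ).Hom C ∧
      (((a n).dim = (b n).dim ∧ D.ty (res A.i₁ (a n)) = D.ty (res A.i₂ (b n))) →
        (∀ g, ψ (A.j₁ g) = (a n).ρ g) ∧ ∀ g, ‖ψ (A.j₂ g) * T n - T n * (φ n).ρ (A.j₂ g)‖ ≤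
          ‖(b n).ρ g * S n - S n * (φ n).ρ (A.j₂ g)‖ +
          2 * (D.c * dft (res A.i₁ (a n)) (res A.i₂ (b n)) (R n) + ‖1 - (T n)ᴴ * T n‖)) := by
    intro n
    by_cases hn : (a n).dim = (b n).dim ∧ D.ty (res A.i₁ (a n)) = D.ty (res A.i₂ (b n))
    · obtain ⟨U, u1, u2, u3, u4, u5⟩ := D.rig (res A.i₁ (a n)) (res A.i₂ (b n))
        ((ha n).res _) ((hb n).res _) hn.1 hn.2 (R n) (r1 n)
      have hc := hom_conj (hb n) (X := (a n).X) u1 u2 u3
      obtain ⟨f, f1, f2⟩ := A.lift (Aut C (a n).X) (ha n).toMH hc.toMH (by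
        intro h
        apply Subtype.ext; apply Subtype.ext
        change (a n).ρ (A.i₁ h) = Uᴴ * (b n).ρ (A.i₂ h) * U
        have := u4 h
        change (b n).ρ (A.i₂ h) * U = U * (a n).ρ (A.i₁ h) at this
        rw [Matrix.mul_assoc, this, ← Matrix.mul_assoc, u2, Matrix.one_mul])
      refine ⟨fun g => (f g).1.1, hom_of_MH f, fun _ => ⟨fun g => ?_, fun g => ?_⟩⟩
      · change (f (A.j₁ g)).1.1 = _
        rw [f1]; rfl
      · have e1 : (f (A.j₂ g)).1.1 = Uᴴ * (b n).ρ g * U := by rw [f2]; rfl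
        have e2 : ‖U * T n - S n‖ ≤
            D.c * dft (res A.i₁ (a n)) (res A.i₂ (b n)) (R n) + ‖1 - (T n)ᴴ * T n‖ := by
          have : U * T n - S n = (U - R n) * T n - S n * (1 - (T n)ᴴ * T n) := by
            simp only [R, Matrix.sub_mul, Matrix.mul_sub, Matrix.mul_one, Matrix.mul_assoc]
            abel
          rw [this]
          exact (norm_sub_le _ _).trans (add_le_add ((C.right (t1 n) _).trans u5)
            (C.left (s1 n) _))
        change ‖(f (A.j₂ g)).1.1 * T n - T n * (φ n).ρ (A.j₂ g)‖ ≤ _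
        rw [e1, ← norm_isometry_mul u2]
        have e3 : U * (Uᴴ * (b n).ρ g * U * T n - T n * (φ n).ρ (A.j₂ g)) =
            ((b n).ρ g * S n - S n * (φ n).ρ (A.j₂ g)) +
            ((b n).ρ g * (U * T n - S n) - (U * T n - S n) * (φ n).ρ (A.j₂ g)) := by
          have h5 : U * (Uᴴ * (b n).ρ g * U * T n) = (U * Uᴴ) * (b n).ρ g * (U * T n) := by
            simp only [Matrix.mul_assoc]
          rw [Matrix.mul_sub, h5, u3, Matrix.one_mul]
          simp only [Matrix.sub_mul, Matrix.mul_sub, Matrix.mul_assoc]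
          abel
        rw [e3]
        refine (norm_add_le _ _).trans (add_le_add le_rfl ?_)
        refine (norm_sub_le _ _).trans ?_
        have k1 := (C.left ((hb n).1 g).1 (U * T n - S n)).trans e2
        have k2 := (C.right (hφ n (A.j₂ g)).1 (U * T n - S n)).trans e2
        linarith
    · exact ⟨fun _ => 1, hom_triv (C := C) (Γ := G) (a n).X, fun h => absurd h hn⟩
  choose ψ hψ hk using key
  refine ⟨ψ, hψ, T, t1, t2, t3, ?_⟩
  apply A.ind
  · intro g
    refine (t4 g).congr' ?_ EventuallyEq.rfl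
    filter_upwards [hd] with n hn
    change _ = ‖ψ n (A.j₁ g) * T n - T n * (φ n).ρ (A.j₁ g)‖
    rw [(hk n hn).1]
  · intro g
    refine IsBigO.trans_isLittleO (IsBigO.of_bound' ?_)
      ((s4 g).add (((hR.const_mul_left D.c).add t2).const_mul_left 2))
    filter_upwards [hd] with n hn
    rw [norm_norm]
    exact ((hk n hn).2 g).trans (le_abs_self _)
  · intro g k pg pk
    refine lo_of_le ((pk.add pg).add (hm g k)) (fun n => norm_nonneg _) fun n => ?_
    have e1 : ψ n (g * k) * T n - T n * (φ n).ρ (g * k) =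
        ψ n g * (ψ n k * T n - T n * (φ n).ρ k) + (ψ n g * T n - T n * (φ n).ρ g) * (φ n).ρ k +
          T n * ((φ n).ρ g * (φ n).ρ k - (φ n).ρ (g * k)) := by
      have := (hψ n).2 g k
      change ψ n (g * k) = ψ n g * ψ n k at this
      rw [this]
      simp only [Matrix.sub_mul, Matrix.mul_sub, Matrix.mul_assoc]
      abel
    change ‖ψ n (g * k) * T n - T n * (φ n).ρ (g * k)‖ ≤ _
    rw [e1]
    refine (norm_add_le _ _).trans (add_le_add ((norm_add_le _ _).trans ?_) (C.left (t1 n) _))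
    exact add_le_add (C.left ((hψ n).1 g).1 _) (C.right (hφ n k).1 _)

end Pool.Agent.H845Z.St
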