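import Pool.Agent.H845Z.St.Glue
import Pool.Agent.H845Z.St.Cone

/-!
The two abstract theorems.
-/

set_option autoImplicit false

namespace Pool.Agent.H845Z.St

open Matrix Finset Filter Asymptotics Obj
open scoped Matrix.Norms.Frobenius

variable {C : Cls}

/-- Finitely many pure types of homomorphisms of `Γ`. -/
structure Lab {H Γ : Type} [Group H] [Fintype H] [Group Γ] (D : TyData C H) (i : H →* Γ) where
  T : Type
  [finT : Fintype T]
  [decT : DecidableEq T]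
  Pure : T → Obj Γ → Prop
  pure_sum : ∀ (τ : T) {ι : Type} [Fintype ι] [DecidableEq ι] (f : ι → Obj Γ),
    (∀ k, (f k).Hom C) → (∀ k, Pure τ (f k)) → Pure τ (Obj.sum f)
  prop : ∀ (τ : T) (a b : Obj Γ), a.Hom C → b.Hom C → Pure τ a → Pure τ b →
    ∀ j, D.ty (res i a) j * b.dim = D.ty (res i b) j * a.dim
  dec : ∀ b : Obj Γ, b.Hom C →
    ∃ f : T → Obj Γ, (∀ τ, (f τ).Hom C ∧ Pure τ (f τ)) ∧ Iso C (Obj.sum f) b
  S : Finset Γ
  c : ℝ
  sep : ∀ τ τ' : T, τ ≠ τ' → ∀ a b : Obj Γ, a.Hom C → b.Hom C → Pure τ a → Pure τ' b →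
    ∀ R : Matrix b.X a.X ℂ, C.mor R →
      (b.dim : ℝ) ≤ c * (‖1 - R * Rᴴ‖ + ∑ s ∈ S, ‖b.ρ s * R - R * a.ρ s‖) ^ 2

attribute [instance] Lab.finT Lab.decT

lemma Sub.dim_le {Γ : Type} {a b : Obj Γ} (h : Sub C a b) : a.dim ≤ b.dim := by
  obtain ⟨J, -, h2, -⟩ := h
  have h1 := norm_one_sub_isometry h2
  have h3 : (0 : ℝ) ≤ (Fintype.card b.X : ℝ) - Fintype.card a.X := by rw [← h1]; positivity
  have : (a.dim : ℝ) ≤ b.dim := by unfold Obj.dim; linarith
  exact_mod_cast this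

lemma Iso.refl {Γ : Type} (a : Obj Γ) : Iso C a a :=
  ⟨1, C.one, by simp, by simp, fun g => by simp⟩

/-- binary sum -/
@[reducible] def Obj.add {Γ : Type} (a b : Obj Γ) : Obj Γ := Obj.sum fun x : Bool => cond x a b

lemma Obj.dim_add {Γ : Type} (a b : Obj Γ) : (a.add b).dim = a.dim + b.dim := by
  rw [dim_sum, Fintype.sum_bool]; rfl

lemma Obj.Hom.add {Γ : Type} [Group Γ] {a b : Obj Γ} (ha : a.Hom C) (hb : b.Hom C) :
    (a.add b).Hom C := Hom.sum fun x => by cases x; exacts [hb, ha]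

lemma sub_add {Γ : Type} (a b : Obj Γ) : Sub C a (a.add b) :=
  sub_sum (fun x : Bool => cond x a b) true

section
variable {H Γ : Type} [Group H] [Fintype H] [Group Γ] {D : TyData C H} {i : H →* Γ}

lemma TyData.ty_res_sum (D : TyData C H) (i : H →* Γ) {ι : Type} [Fintype ι] [DecidableEq ι]
    (f : ι → Obj Γ) (hf : ∀ k, (f k).Hom C) (j : D.I) :
    D.ty (res i (Obj.sum f)) j = ∑ k, D.ty (res i (f k)) j :=
  D.ty_sum (fun k => res i (f k)) (fun k => (hf k).res i) j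

lemma TyData.ty_res_add (D : TyData C H) (i : H →* Γ) {a b : Obj Γ} (ha : a.Hom C) (hb : b.Hom C)
    (j : D.I) : D.ty (res i (a.add b)) j = D.ty (res i a) j + D.ty (res i b) j := by
  rw [D.ty_res_sum i _ (fun x => by cases x; exacts [hb, ha]), Fintype.sum_bool]; rfl

lemma Lab.purify (L : Lab D i) (τ : L.T) {r : ℕ → ℝ} {a b : ℕ → Obj Γ} (ha : ∀ n, (a n).Hom C)
    (hb : ∀ n, (b n).Hom C) (pa : ∀ n, L.Pure τ (a n)) (h : Close C r a b) :
    ∃ Y : ℕ → Obj Γ, (∀ n, (Y n).Hom C ∧ L.Pure τ (Y n) ∧ Sub C (Y n) (b n)) ∧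
      (fun n => ((b n).dim : ℝ) - (Y n).dim) =o[atTop] fun n => r n ^ 2 := by
  choose f hf hiso using fun n => L.dec (b n) (hb n)
  have hsub : ∀ n σ, Sub C (f n σ) (b n) := fun n σ => (sub_sum (f n) σ).trans (hiso n).sub
  refine ⟨fun n => f n τ, fun n => ⟨(hf n τ).1, (hf n τ).2, hsub n τ⟩, ?_⟩
  obtain ⟨T, h1, -, h3, h4⟩ := h
  have small : ∀ σ, σ ≠ τ → (fun n => ((f n σ).dim : ℝ)) =o[atTop] fun n => r n ^ 2 := by
    intro σ hσ
    have k1 := ((h3.add (IsLittleO.fun_sum (s := L.S) fun s _ => h4 s)).pow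
      two_pos).const_mul_left |L.c|
    refine lo_of_le k1 (fun n => Nat.cast_nonneg _) fun n => ?_
    obtain ⟨J, j1, j2, j3⟩ := hsub n σ
    have k2 := L.sep τ σ hσ.symm (a n) (f n σ) (ha n) (hf n σ).1 (pa n) (hf n σ).2 (Jᴴ * T n)
      (C.mul (C.adj j1) (h1 n))
    refine k2.trans ?_
    refine le_trans (mul_le_mul_of_nonneg_right (le_abs_self _) (by positivity)) ?_
    apply mul_le_mul_of_nonneg_left _ (abs_nonneg _)
    apply pow_le_pow_left₀ (by positivity)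
    apply add_le_add
    · have : 1 - Jᴴ * T n * (Jᴴ * T n)ᴴ = Jᴴ * ((1 - T n * (T n)ᴴ) * J) := by
        rw [Matrix.sub_mul, Matrix.mul_sub, Matrix.one_mul, j2, conjTranspose_mul,
          conjTranspose_conjTranspose]
        simp only [Matrix.mul_assoc]
      rw [this]
      exact (C.left (C.adj j1) _).trans (C.right j1 _)
    · refine Finset.sum_le_sum fun s _ => ?_
      have e1 : (f n σ).ρ s * Jᴴ = Jᴴ * (b n).ρ s := by
        have := congrArg conjTranspose (j3 s⁻¹)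
        rw [conjTranspose_mul, conjTranspose_mul, (hb n).inv, (hf n σ).1.inv,
          conjTranspose_conjTranspose, conjTranspose_conjTranspose] at this
        exact this.symm
      have : (f n σ).ρ s * (Jᴴ * T n) - Jᴴ * T n * (a n).ρ s =
          Jᴴ * ((b n).ρ s * T n - T n * (a n).ρ s) := by
        rw [← Matrix.mul_assoc, e1, Matrix.mul_sub]
        simp only [Matrix.mul_assoc]
      rw [this]
      exact C.left (C.adj j1) _
  have k3 := IsLittleO.fun_sum (s := univ.erase τ) fun σ hσ => small σ (ne_of_mem_erase hσ)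
  refine k3.congr_left fun n => ?_
  rw [← (hiso n).dim_eq, dim_sum, ← Finset.add_sum_erase _ _ (mem_univ τ)]
  push_cast; ring

lemma Lab.pad (L : Lab D i) (τ : L.T) {Z : Obj Γ} (hZ : Z.Hom C) (pZ : L.Pure τ Z)
    (hz : 0 < Z.dim) : ∃ B : ℕ, ∀ Y : Obj Γ, Y.Hom C → L.Pure τ Y → ∀ s : ℕ, Z.dim ∣ s →
      (Y.dim + B ≤ s ∨ Y.dim = 0) →
      ∃ c : Obj Γ, c.Hom C ∧ L.Pure τ c ∧ c.dim = s ∧ Sub C Y c := by
  classical
  have : NeZero Z.dim := ⟨hz.ne'⟩
  have key : ∀ ρ : ZMod Z.dim, ∃ m : ℕ,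
      (∃ W : Obj Γ, W.Hom C ∧ L.Pure τ W ∧ ρ + (W.dim : ZMod Z.dim) = 0) →
      ∃ W : Obj Γ, W.Hom C ∧ L.Pure τ W ∧ ρ + (W.dim : ZMod Z.dim) = 0 ∧ W.dim ≤ m := by
    intro ρ
    by_cases h : ∃ W : Obj Γ, W.Hom C ∧ L.Pure τ W ∧ ρ + (W.dim : ZMod Z.dim) = 0
    · obtain ⟨W, h1, h2, h3⟩ := h
      exact ⟨W.dim, fun _ => ⟨W, h1, h2, h3, le_rfl⟩⟩
    · exact ⟨0, fun h' => absurd h' h⟩
  choose m hm using key
  refine ⟨∑ ρ, m ρ, fun Y hY pY s hs hcase => ?_⟩
  obtain ⟨W, w1, w2, w3, w4⟩ : ∃ W : Obj Γ, W.Hom C ∧ L.Pure τ W ∧ Z.dim ∣ Y.dim + W.dim ∧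
      Y.dim + W.dim ≤ s := by
    rcases hcase with h | h
    · obtain ⟨W, h1, h2, h3, h4⟩ := hm (Y.dim : ZMod Z.dim)
        ⟨Obj.sum fun _ : Fin (Z.dim - 1) => Y, Hom.sum fun _ => hY,
          L.pure_sum τ _ (fun _ => hY) (fun _ => pY), by
          rw [dim_sum, Finset.sum_const, card_univ, Fintype.card_fin, smul_eq_mul, ← Nat.cast_add,
            ZMod.natCast_eq_zero_iff]
          refine ⟨Y.dim, ?_⟩
          obtain ⟨z, hz'⟩ : ∃ z, Z.dim = z + 1 := ⟨Z.dim - 1, by omega⟩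
          rw [hz', Nat.add_sub_cancel]; ring⟩
      refine ⟨W, h1, h2, ?_, ?_⟩
      · rwa [← Nat.cast_add, ZMod.natCast_eq_zero_iff] at h3
      · have := Finset.single_le_sum (f := m) (fun _ _ => Nat.zero_le _)
          (mem_univ (Y.dim : ZMod Z.dim))
        omega
    · exact ⟨Y, hY, pY, by simp [h], by omega⟩
  obtain ⟨k, hk⟩ : Z.dim ∣ s - (Y.dim + W.dim) := Nat.dvd_sub hs w3
  let Zs := Obj.sum fun _ : Fin k => Z
  have z1 : Zs.Hom C := Hom.sum fun _ => hZ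
  have z2 : L.Pure τ Zs := L.pure_sum τ _ (fun _ => hZ) (fun _ => pZ)
  have z3 : Zs.dim = Z.dim * k := by
    rw [dim_sum, Finset.sum_const, card_univ, Fintype.card_fin, smul_eq_mul, mul_comm]
  have p1 : L.Pure τ (W.add Zs) :=
    L.pure_sum τ _ (fun x => by cases x; exacts [z1, w1]) (fun x => by cases x; exacts [z2, w2])
  refine ⟨Y.add (W.add Zs), hY.add (w1.add z1), L.pure_sum τ _
    (fun x => by cases x; exacts [w1.add z1, hY]) (fun x => by cases x; exacts [p1, pY]), ?_,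
    sub_add _ _⟩
  rw [dim_add, dim_add, z3]; omega

lemma Lab.adjust [Countable Γ] (L : Lab D i) (hs : StabM C Γ) (τ : L.T) :
    ∃ z : ℕ, 0 < z ∧ ∀ (r : ℕ → ℝ) (a : ℕ → Obj Γ) (s : ℕ → ℕ), (∀ n, (a n).Hom C) →
      (∀ n, L.Pure τ (a n)) → ((fun n => ((a n).dim : ℝ)) =O[atTop] fun n => r n ^ 2) →
      ((fun _ => (1 : ℝ)) =o[atTop] fun n => r n ^ 2) → (∀ n, s n ≤ (a n).dim ∧ z ∣ s n) →
      ((fun n => (s n : ℝ) - (a n).dim) =o[atTop] fun n => r n ^ 2) →
      ∃ c : ℕ → Obj Γ, (∀ n, (c n).Hom C ∧ L.Pure τ (c n) ∧ (c n).dim = s n) ∧ Close C r a c := by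
  by_cases hZ : ∃ Z : Obj Γ, Z.Hom C ∧ L.Pure τ Z ∧ 0 < Z.dim
  · obtain ⟨Z, z1, z2, z3⟩ := hZ
    obtain ⟨B, hB⟩ := L.pad τ z1 z2 z3
    refine ⟨Z.dim, z3, fun r a s ha pa da h1 hs1 hs2 => ?_⟩
    have hsB : (fun n => (s n : ℝ) - ((s n - B : ℕ) : ℝ)) =o[atTop] fun n => r n ^ 2 := by
      refine lo_of_le (h1.const_mul_left B) (fun n => ?_) fun n => ?_
      · have : ((s n - B : ℕ) : ℝ) ≤ s n := by exact_mod_cast Nat.sub_le _ _
        linarith
      · have : (s n : ℝ) ≤ ((s n - B : ℕ) : ℝ) + B := by exact_mod_cast le_tsub_add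
        linarith
    obtain ⟨φ, hφ, c1⟩ := resize (r := r) (fun n => (ha n).1) (fun n => s n - B)
      ((hs2.sub hsB).congr_left fun n => by ring)
    obtain ⟨ψ, hψ, c2⟩ := hs.gen hφ (c1.am ha hφ) (c1.dim_bigO da)
    have c3 := c1.trans (close_of_near ψ c2)
    obtain ⟨Y, hY, dY⟩ := L.purify τ ha hψ pa c3
    have c4 := c3.trans ((close_of_sub (fun n => (hY n).2.2) dY).symm (fun n => (hY n).1.1)
      fun n => (hψ n).1)
    have hle : ∀ n, (Y n).dim ≤ s n - B := fun n => by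
      have := (hY n).2.2.dim_le
      simpa [Obj.dim] using this
    choose c k1 k2 k3 k4 using fun n => hB (Y n) (hY n).1 (hY n).2.1 (s n) (hs1 n).2 (by
      have := hle n; omega)
    refine ⟨c, fun n => ⟨k1 n, k2 n, k3 n⟩, c4.trans (close_of_sub k4 ?_)⟩
    refine (hsB.add dY).congr_left fun n => ?_
    rw [k3]
    simp [Obj.dim]
  · refine ⟨1, one_pos, fun r a s ha pa _ _ hs1 _ => ⟨a, fun n => ⟨ha n, pa n, ?_⟩,
      close_of_iso fun n => Iso.refl _⟩⟩
    have h0 : ¬ 0 < (a n).dim := fun h => hZ ⟨a n, ha n, pa n, h⟩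
    have := (hs1 n).1
    omega

lemma Lab.vec (L : Lab D i) (τ : L.T) : ∃ v : D.I → ℚ, ∀ a : Obj Γ, a.Hom C → L.Pure τ a →
    ∀ j, (D.ty (res i a) j : ℚ) = a.dim * v j := by
  by_cases hZ : ∃ Z : Obj Γ, Z.Hom C ∧ L.Pure τ Z ∧ 0 < Z.dim
  · obtain ⟨Z, z1, z2, z3⟩ := hZ
    refine ⟨fun j => D.ty (res i Z) j / Z.dim, fun a ha pa j => ?_⟩
    have h1 := L.prop τ a Z ha z1 pa z2 j
    have h2 : (D.ty (res i a) j : ℚ) * Z.dim = D.ty (res i Z) j * a.dim := by exact_mod_cast h1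
    have h3 : (Z.dim : ℚ) ≠ 0 := by exact_mod_cast z3.ne'
    field_simp
    linarith
  · refine ⟨fun _ => 0, fun a ha pa j => ?_⟩
    have h0 : a.dim = 0 := by
      by_contra h
      exact hZ ⟨a, ha, pa, Nat.pos_of_ne_zero h⟩
    rw [D.zero (ha.res i) h0]; simp

/-- Rebuild a sequence of homomorphisms with prescribed sizes of the pure parts. -/
lemma Lab.rebuild [Countable Γ] (L : Lab D i) (hs : StabM C Γ) :
    ∃ (z : ℕ) (v : L.T → D.I → ℚ), 0 < z ∧ ∀ (N : ℕ → ℕ) (a : ℕ → Obj Γ), (∀ n, (a n).Hom C) →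
      (∀ n, (a n).dim = N n) → Tendsto N atTop atTop →
      ∃ t : ℕ → L.T → ℕ, (∀ n, ∑ τ, t n τ = N n) ∧
        (∀ n j, (D.ty (res i (a n)) j : ℚ) = ∑ τ, t n τ * v τ j) ∧
        ∀ s : ℕ → L.T → ℕ, (∀ n τ, s n τ ≤ t n τ ∧ z ∣ s n τ) →
          (∀ τ, (fun n => (s n τ : ℝ) - t n τ) =o[atTop] fun n => (N n : ℝ)) →
          ∃ c : ℕ → Obj Γ, (∀ n, (c n).Hom C ∧ (c n).dim = N n ∧
            ∀ j, (D.ty (res i (c n)) j : ℚ) = ∑ τ, s n τ * v τ j +
              D.ty (triv H (Fin (N n - ∑ τ, s n τ))) j) ∧ Close C (fun n => √(N n)) a c := by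
  choose z hz hadj using L.adjust hs
  choose v hv using L.vec
  refine ⟨∏ τ, z τ, v, Finset.prod_pos fun τ _ => hz τ, fun N a ha hN hinf => ?_⟩
  choose f hf hiso using fun n => L.dec (a n) (ha n)
  have hsq : (fun n => √(N n : ℝ) ^ 2) = fun n => (N n : ℝ) :=
    funext fun n => Real.sq_sqrt (Nat.cast_nonneg _)
  have hsum : ∀ n, ∑ τ, (f n τ).dim = N n := fun n => by rw [← dim_sum, (hiso n).dim_eq, hN]
  refine ⟨fun n τ => (f n τ).dim, hsum, fun n j => ?_, fun s s1 s2 => ?_⟩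
  · rw [← D.iso ((Hom.sum fun τ => (hf n τ).1).res i) ((ha n).res i) ((hiso n).res i),
      D.ty_res_sum i _ fun τ => (hf n τ).1]
    push_cast
    exact Finset.sum_congr rfl fun τ _ => hv τ _ (hf n τ).1 (hf n τ).2 j
  · have hone : (fun _ => (1 : ℝ)) =o[atTop] fun n => √(N n : ℝ) ^ 2 := by
      rw [hsq, isLittleO_one_left_iff]
      simpa [Function.comp_def] using tendsto_natCast_atTop_atTop (R := ℝ).comp hinf
    choose c hc hcl using fun τ => hadj τ (fun n => √(N n)) (fun n => f n τ) (fun n => s n τ)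
      (fun n => (hf n τ).1) (fun n => (hf n τ).2) (by
        rw [hsq]
        apply IsBigO.of_bound'
        refine Eventually.of_forall fun n => ?_
        rw [Real.norm_of_nonneg (Nat.cast_nonneg _), Real.norm_of_nonneg (Nat.cast_nonneg _),
          ← hsum n]
        exact_mod_cast Finset.single_le_sum (f := fun τ => (f n τ).dim) (fun _ _ => Nat.zero_le _)
          (mem_univ τ)) hone
      (fun n => ⟨(s1 n τ).1, (Finset.dvd_prod_of_mem z (mem_univ τ)).trans (s1 n τ).2⟩)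
      (by rw [hsq]; exact s2 τ)
    have hle : ∀ n, ∑ τ, s n τ ≤ N n := fun n => by
      rw [← hsum n]; exact Finset.sum_le_sum fun τ _ => (s1 n τ).1
    have hdim : ∀ n, (Obj.sum fun τ => c τ n).dim = ∑ τ, s n τ := fun n => by
      rw [dim_sum]; exact Finset.sum_congr rfl fun τ _ => (hc τ n).2.2
    have hh : ∀ n, (Obj.sum fun τ => c τ n).Hom C := fun n => Hom.sum fun τ => (hc τ n).1
    have hd2 : ∀ n, ((Obj.sum fun τ => c τ n).add (triv Γ (Fin (N n - ∑ τ, s n τ)))).dim = N n := by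
      intro n
      rw [dim_add, hdim, dim_triv, Fintype.card_fin]
      have := hle n
      omega
    refine ⟨fun n => (Obj.sum fun τ => c τ n).add (triv Γ (Fin (N n - ∑ τ, s n τ))),
      fun n => ⟨(hh n).add (hom_triv _), hd2 n, fun j => ?_⟩, ?_⟩
    · rw [D.ty_res_add i (hh n) (hom_triv _), D.ty_res_sum i _ fun τ => (hc τ n).1]
      push_cast
      congr 1
      refine Finset.sum_congr rfl fun τ _ => ?_
      rw [hv τ _ (hc τ n).1 (hc τ n).2.1 j, (hc τ n).2.2]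
    · refine ((close_of_iso fun n => (hiso n).symm).trans (Close.sum hcl)).trans
        (close_of_sub (fun n => sub_add _ _) ?_)
      rw [hsq]
      refine (lo_sum s2).neg_left.congr_left fun n => ?_
      rw [hd2, hdim, ← hsum n, Finset.sum_sub_distrib]
      push_cast; ring

end

variable {H G₁ G₂ G : Type} [Group H] [Group G₁] [Group G₂] [Group G] [Fintype H]

lemma am_res {Γ Δ : Type} [Group Γ] [Group Δ] (j : Δ →* Γ) {r : ℕ → ℝ} {φ : ℕ → Obj Γ}
    (h : AM r φ) : AM r fun n => res j (φ n) := fun g k => by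
  have := h (j g) (j k)
  rw [← map_mul] at this
  exact this

theorem Amal.core (A : Amal H G₁ G₂ G) (D : TyData C H) (L₁ : Lab D A.i₁) (L₂ : Lab D A.i₂)
    [Countable G₁] [Countable G₂] (s₁ : StabM C G₁) (s₂ : StabM C G₂) (φ : ℕ → Obj G)
    (hφ : ∀ n, (φ n).InA C) (hm : AM (fun n => √((φ n).dim)) φ)
    (hc : Tendsto (fun n => (φ n).dim) atTop atTop ∨ ∃ B, ∀ n, (φ n).dim ≤ B) :
    ∃ ψ : ∀ n, G → Matrix (φ n).X (φ n).X ℂ, (∀ n, ((φ n).re (ψ n)).Hom C) ∧
      ∀ g, (fun n => ‖(φ n).ρ g - ψ n g‖) =o[atTop] fun n => √((φ n).dim) := by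
  have hsq : (fun n => √((φ n).dim : ℝ) ^ 2) = fun n => ((φ n).dim : ℝ) :=
    funext fun n => Real.sq_sqrt (Nat.cast_nonneg _)
  have hO : (fun n => ((φ n).dim : ℝ)) =O[atTop] fun n => √((φ n).dim : ℝ) ^ 2 := by
    rw [hsq]
  obtain ⟨ψ₁, h₁, n₁⟩ := s₁.gen (b := fun n => res A.j₁ (φ n)) (fun n g => hφ n _)
    (am_res A.j₁ hm) hO
  obtain ⟨ψ₂, h₂, n₂⟩ := s₂.gen (b := fun n => res A.j₂ (φ n)) (fun n g => hφ n _)
    (am_res A.j₂ hm) hO
  have c₁ := close_of_near (C := C) (a := fun n => res A.j₁ (φ n)) ψ₁ n₁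
  have c₂ := close_of_near (C := C) (a := fun n => res A.j₂ (φ n)) ψ₂ n₂
  have hty := fun j => D.close (A.close_res hφ h₁ c₁ c₂) (fun n => (h₁ n).res _)
    (fun n => (h₂ n).res _) hO hO j
  rw [hsq] at hty
  rcases hc with hc | ⟨B, hB⟩
  · obtain ⟨z₁, v₁, hz₁, r₁⟩ := L₁.rebuild s₁
    obtain ⟨z₂, v₂, hz₂, r₂⟩ := L₂.rebuild s₂
    obtain ⟨t₁, a₁, b₁, e₁⟩ := r₁ (fun n => (φ n).dim) _ h₁ (fun n => rfl) hc
    obtain ⟨t₂, a₂, b₂, e₂⟩ := r₂ (fun n => (φ n).dim) _ h₂ (fun n => rfl) hc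
    let v : L₁.T ⊕ L₂.T → Option D.I → ℚ := fun τ j =>
      Sum.elim (fun τ => j.elim 1 (v₁ τ)) (fun τ => - j.elim 1 (v₂ τ)) τ
    obtain ⟨s, p1, p2, p3⟩ := cone v (z₁ * z₂) (Nat.mul_pos hz₁ hz₂) (fun n => (φ n).dim) hc
      (fun n => Sum.elim (t₁ n) (t₂ n)) (by
        rintro n (τ | τ)
        · rw [← a₁ n]
          exact Finset.single_le_sum (f := t₁ n) (fun _ _ => Nat.zero_le _) (mem_univ τ)
        · rw [← a₂ n]
          exact Finset.single_le_sum (f := t₂ n) (fun _ _ => Nat.zero_le _) (mem_univ τ)) (by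
        rintro (_ | j)
        · refine (isLittleO_zero _ _).congr_left fun n => ?_
          have e1 : ((∑ τ, t₁ n τ : ℕ) : ℝ) = ((∑ τ, t₂ n τ : ℕ) : ℝ) := by rw [a₁, a₂]
          push_cast at e1
          simp [v, Fintype.sum_sum_type, e1]
        · refine (hty j).congr_left fun n => ?_
          have e1 := congrArg (Rat.cast : ℚ → ℝ) (b₁ n j)
          have e2 := congrArg (Rat.cast : ℚ → ℝ) (b₂ n j)
          push_cast at e1 e2
          simp only [v, Fintype.sum_sum_type, Sum.elim_inl, Sum.elim_inr, Option.elim_some]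
          push_cast
          simp only [mul_neg, Finset.sum_neg_distrib]
          rw [← e1, ← e2]; ring)
    obtain ⟨x₁, y₁, w₁⟩ := e₁ (fun n τ => s n (Sum.inl τ))
      (fun n τ => ⟨(p1 n (Sum.inl τ)).1, (Dvd.intro _ rfl).trans (p1 n (Sum.inl τ)).2⟩)
      fun τ => p3 (Sum.inl τ)
    obtain ⟨x₂, y₂, w₂⟩ := e₂ (fun n τ => s n (Sum.inr τ))
      (fun n τ => ⟨(p1 n (Sum.inr τ)).1, (Dvd.intro_left _ rfl).trans (p1 n (Sum.inr τ)).2⟩)
      fun τ => p3 (Sum.inr τ)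
    obtain ⟨ψ, hψ, cψ⟩ := A.glue D hφ hm (fun n => (y₁ n).1) (fun n => (y₂ n).1) (c₁.trans w₁)
      (c₂.trans w₂) (by
        filter_upwards [p2] with n hn
        refine ⟨(y₁ n).2.1.trans (y₂ n).2.1.symm, funext fun j => ?_⟩
        have q0 := hn none
        have q1 := hn (some j)
        simp only [v, Fintype.sum_sum_type, Sum.elim_inl, Sum.elim_inr, Option.elim_some,
          Option.elim_none, mul_neg, Finset.sum_neg_distrib, mul_one] at q0 q1
        have q2 : ∑ τ, s n (Sum.inl τ) = ∑ τ, s n (Sum.inr τ) := by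
          have : ((∑ τ, s n (Sum.inl τ) : ℕ) : ℚ) = ((∑ τ, s n (Sum.inr τ) : ℕ) : ℚ) := by
            push_cast; linarith
          exact_mod_cast this
        have q3 := (y₁ n).2.2 j
        have q4 := (y₂ n).2.2 j
        rw [q2] at q3
        have : (D.ty (res A.i₁ (x₁ n)) j : ℚ) = D.ty (res A.i₂ (x₂ n)) j := by linarith
        exact_mod_cast this)
    exact cψ.near hφ hψ (Eventually.of_forall fun n => (y₁ n).2.1.symm)
  · obtain ⟨ψ, hψ, cψ⟩ := A.glue D hφ hm h₁ h₂ c₁ c₂ (by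
      have : ∀ᶠ n in atTop, ∀ j, D.ty (res A.i₁ ((res A.j₁ (φ n)).re (ψ₁ n))) j =
          D.ty (res A.i₂ ((res A.j₂ (φ n)).re (ψ₂ n))) j := by
        rw [eventually_all]
        intro j
        filter_upwards [(hty j).bound (c := 1 / ((B : ℝ) + 1)) (by positivity)] with n hn
        have h3 : ((φ n).dim : ℝ) ≤ B := by exact_mod_cast hB n
        rw [Real.norm_of_nonneg (Nat.cast_nonneg _), Real.norm_eq_abs] at hn
        have h4 : 1 / ((B : ℝ) + 1) * (φ n).dim < 1 := by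
          rw [div_mul_eq_mul_div, div_lt_one (by positivity)]; linarith
        have h5 := hn.trans_lt h4
        rw [← Int.cast_sub, ← Int.cast_abs] at h5
        have h6 : |D.ty (res A.i₁ ((res A.j₁ (φ n)).re (ψ₁ n))) j -
          D.ty (res A.i₂ ((res A.j₂ (φ n)).re (ψ₂ n))) j| < 1 := by exact_mod_cast h5
        exact sub_eq_zero.mp (Int.abs_lt_one_iff.mp h6)
      filter_upwards [this] with n hn
      exact ⟨rfl, funext hn⟩)
    exact cψ.near hφ hψ (Eventually.of_forall fun n => rfl)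

theorem Amal.stab (A : Amal H G₁ G₂ G) (D : TyData C H) (L₁ : Lab D A.i₁) (L₂ : Lab D A.i₂)
    [Countable G₁] [Countable G₂] [Countable G] (s₁ : StabM C G₁) (s₂ : StabM C G₂) :
    StabM C G := by
  intro k hk φ hφ hm
  have : ∀ n, Nonempty {ψ : G → Matrix (Fin (k n)) (Fin (k n)) ℂ // (finObj (k n) ψ).Hom C} :=
    fun n => ⟨⟨fun _ => 1, hom_triv (C := C) (Γ := G) (Fin (k n))⟩⟩
  obtain ⟨ψ, -, hψ⟩ := approx_choice
    (fun n => {ψ : G → Matrix (Fin (k n)) (Fin (k n)) ℂ // (finObj (k n) ψ).Hom C})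
    (fun _ _ => True) (fun n ψ g => ‖φ n g - ψ.1 g‖) (fun n => √(k n)) (by
      intro F ε hε
      apply ev_of_subseq
      intro ns hns hbad
      obtain ⟨ms, hms, hcase⟩ : ∃ ms : ℕ → ℕ, StrictMono ms ∧
          (Tendsto (fun m => k (ns (ms m))) atTop atTop ∨ ∃ B, ∀ m, k (ns (ms m)) ≤ B) := by
        by_cases h : Tendsto (fun m => k (ns m)) atTop atTop
        · exact ⟨id, strictMono_id, Or.inl h⟩
        · rw [tendsto_atTop, not_forall] at h
          obtain ⟨B, hB⟩ := h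
          rw [Filter.not_eventually] at hB
          obtain ⟨ms, h1, h2⟩ := extraction_of_frequently_atTop hB
          exact ⟨ms, h1, Or.inr ⟨B, fun m => (not_le.mp (h2 m)).le⟩⟩
      have hsub : Tendsto (fun m => ns (ms m)) atTop atTop := (hns.comp hms).tendsto_atTop
      have hdim : ∀ m, (finObj (k (ns (ms m))) (φ (ns (ms m)))).dim = k (ns (ms m)) :=
        fun m => Fintype.card_fin _
      obtain ⟨ψ, hψ, hc⟩ := A.core D L₁ L₂ s₁ s₂ (fun m => finObj _ (φ (ns (ms m))))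
        (fun m => hφ _) (fun g h => by
          simp only [hdim]; exact (hm g h).comp_tendsto hsub) (by simpa only [hdim] using hcase)
      simp only [hdim] at hc
      have hev : ∀ᶠ m in atTop, ∀ g ∈ F,
          ‖‖φ (ns (ms m)) g - ψ m g‖‖ ≤ ε * ‖√(k (ns (ms m)) : ℝ)‖ := by
        rw [eventually_all_finset]
        intro g _
        exact (hc g).bound hε
      obtain ⟨m, hm'⟩ := hev.exists
      exact hbad (ms m) ⟨⟨ψ m, hψ m⟩, trivial, hm'⟩)
  exact ⟨fun n => (ψ n).1, fun n => (ψ n).2, hψ⟩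

/-- Every homomorphism of `G₁` can be complemented so as to match one of `G₂` over `H`. -/
def Ext (D : TyData C H) (i₁ : H →* G₁) (i₂ : H →* G₂) : Prop :=
  ∀ a : Obj G₁, a.Hom C → ∃ (a' : Obj G₁) (y : Obj G₂), a'.Hom C ∧ y.Hom C ∧
    a.dim + a'.dim = y.dim ∧ ∀ j, D.ty (res i₁ a) j + D.ty (res i₁ a') j = D.ty (res i₂ y) j

/-- dimension and type as one vector -/
def vec (D : TyData C H) (i : H →* G₁) (a : Obj G₁) : Option D.I → ℤ :=
  fun j => j.elim (a.dim : ℤ) (D.ty (res i a))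

lemma vec_add (D : TyData C H) (i : H →* G₁) {a b : Obj G₁} (ha : a.Hom C) (hb : b.Hom C) :
    vec D i (a.add b) = vec D i a + vec D i b := by
  funext j
  rcases j with _ | j
  · simp [vec, dim_add]
  · simp [vec, D.ty_res_add i ha hb]

/-- the monoid of vectors of homomorphisms -/
def vecs (D : TyData C H) (i : H →* G₁) : AddSubmonoid (Option D.I → ℤ) where
  carrier := {x | ∃ a : Obj G₁, a.Hom C ∧ x = vec D i a}
  zero_mem' := ⟨triv G₁ Empty, hom_triv _, by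
    funext j
    rcases j with _ | j
    · simp [vec, dim_triv]
    · exact (D.zero ((hom_triv (C := C) (Γ := G₁) Empty).res i) (by simp [Obj.dim]) j).symm⟩
  add_mem' := by
    rintro _ _ ⟨a, ha, rfl⟩ ⟨b, hb, rfl⟩
    exact ⟨a.add b, ha.add hb, (vec_add D i ha hb).symm⟩

lemma Ext.vecs {D : TyData C H} {i₁ : H →* G₁} {i₂ : H →* G₂} (e : Ext D i₁ i₂) :
    ∀ x ∈ vecs D i₁, ∃ x' ∈ vecs D i₁, x + x' ∈ vecs D i₂ := by
  rintro _ ⟨a, ha, rfl⟩
  obtain ⟨a', y, h1, h2, h3, h4⟩ := e a ha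
  refine ⟨_, ⟨a', h1, rfl⟩, y, h2, ?_⟩
  funext j
  rcases j with _ | j
  · simp [vec, ← h3]
  · simp [vec, ← h4]

theorem Amal.flex (A : Amal H G₁ G₂ G) (D : TyData C H) (e₁ : Ext D A.i₁ A.i₂)
    (e₂ : Ext D A.i₂ A.i₁) (s₁ : FlexM C G₁) (s₂ : FlexM C G₂) : FlexM C G := by
  intro k hk φ hφ hm
  obtain ⟨a, ha, ca⟩ := s₁ k hk (fun n g => φ n (A.j₁ g)) (fun n g => hφ n _) (am_res A.j₁ hm)
  obtain ⟨b, hb, cb⟩ := s₂ k hk (fun n g => φ n (A.j₂ g)) (fun n g => hφ n _) (am_res A.j₂ hm)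
  have hsq : (fun n => √(k n : ℝ) ^ 2) = fun n => (k n : ℝ) :=
    funext fun n => Real.sq_sqrt (Nat.cast_nonneg _)
  have hO : (fun n => ((Fintype.card (Fin (k n)) : ℕ) : ℝ)) =O[atTop] fun n => √(k n : ℝ) ^ 2 := by
    rw [hsq]; simpa using isBigO_refl _ _
  have cab := A.close_res (φ := fun n => finObj (k n) (φ n)) hφ ha ca cb
  have da := ca.dim_bigO hO
  have db := cb.dim_bigO hO
  have hty := fun j => D.close cab (fun n => (ha n).res _) (fun n => (hb n).res _) da db j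
  have hdim := cab.dim_lo da
  obtain ⟨c, hc⟩ := lattice (vecs D A.i₁) (vecs D A.i₂) e₁.vecs e₂.vecs none
  choose u hu w hw h1 h2 using fun n => hc _ ⟨a n, ha n, rfl⟩ _ ⟨b n, hb n, rfl⟩
  choose a' ha' hu' using hu
  choose b' hb' hw' using hw
  have small : (fun n => c * ∑ j, |(vec D A.i₁ (a n) j : ℝ) - vec D A.i₂ (b n) j|) =o[atTop]
      fun n => √(k n : ℝ) ^ 2 := by
    refine (lo_sum fun j => ?_).const_mul_left c
    rcases j with _ | j
    · refine hdim.neg_left.abs_left.congr_left fun n => ?_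
      simp [vec, Obj.dim]
    · exact (hty j).abs_left
  have sa : (fun n => ((a' n).dim : ℝ)) =o[atTop] fun n => √(k n : ℝ) ^ 2 := by
    refine lo_of_le small (fun n => Nat.cast_nonneg _) fun n => ?_
    have := h2 n
    rw [hu' n] at this
    simp only [vec, Option.elim_none, Int.cast_natCast] at this
    exact (le_abs_self _).trans this
  have heq : ∀ n, vec D A.i₁ ((a n).add (a' n)) = vec D A.i₂ ((b n).add (b' n)) := fun n => by
    rw [vec_add D _ (ha n) (ha' n), vec_add D _ (hb n) (hb' n), ← hu', ← hw', h1]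
  have hd : ∀ n, ((a n).add (a' n)).dim = ((b n).add (b' n)).dim := fun n => by
    have := congrFun (heq n) none
    simpa [vec] using this
  obtain ⟨ψ, hψ, cψ⟩ := A.glue D (φ := fun n => finObj (k n) (φ n)) hφ hm
    (fun n => (ha n).add (ha' n)) (fun n => (hb n).add (hb' n))
    (ca.trans (close_of_sub (fun n => sub_add _ _) (sa.congr_left fun n => by
      rw [dim_add]; push_cast; ring)))
    (cb.trans (close_of_sub (fun n => sub_add _ _) ((sa.sub hdim).congr_left fun n => by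
      rw [← hd, dim_add]
      change _ - (((b n).dim : ℝ) - (a n).dim) = _
      push_cast; ring)))
    (Eventually.of_forall fun n => ⟨hd n, funext fun j => congrFun (heq n) (some j)⟩)
  exact ⟨_, hψ, cψ⟩

end Pool.Agent.H845Z.St
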