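import Mathlib

/-!
Frobenius norm toolkit for rectangular complex matrices.
-/

set_option autoImplicit false

namespace Pool.Agent.H845Z.St

open Matrix Finset
open scoped Matrix.Norms.Frobenius

variable {X Y Z W : Type} [Fintype X] [Fintype Y] [Fintype Z] [Fintype W]

lemma norm_sq (A : Matrix Y X ℂ) : ‖A‖ ^ 2 = ∑ i, ∑ j, ‖A i j‖ ^ 2 := by
  rw [frobenius_norm_def, ← Real.sqrt_eq_rpow, Real.sq_sqrt]
  · simp
  · positivity

lemma norm_sq_trace (A : Matrix Y X ℂ) : ‖A‖ ^ 2 = (trace (Aᴴ * A)).re := by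
  rw [norm_sq, Finset.sum_comm]
  simp only [trace, diag_apply, mul_apply, conjTranspose_apply, Complex.re_sum]
  refine Finset.sum_congr rfl fun j _ => Finset.sum_congr rfl fun i _ => ?_
  rw [Complex.star_def, Complex.conj_mul']
  norm_cast

lemma trace_conj_mul_self (A : Matrix Y X ℂ) : trace (Aᴴ * A) = ((‖A‖ ^ 2 : ℝ) : ℂ) := by
  rw [norm_sq, Finset.sum_comm]
  simp only [trace, diag_apply, mul_apply, conjTranspose_apply]
  push_cast
  refine Finset.sum_congr rfl fun j _ => Finset.sum_congr rfl fun i _ => ?_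
  rw [Complex.star_def, Complex.conj_mul']

lemma norm_trace_mul_le (A : Matrix Y X ℂ) (B : Matrix X Y ℂ) : ‖trace (A * B)‖ ≤ ‖A‖ * ‖B‖ := by
  have h1 : ‖trace (A * B)‖ ≤ ∑ p : Y × X, ‖A p.1 p.2‖ * ‖B p.2 p.1‖ := by
    simp only [trace, diag_apply, mul_apply]
    rw [← Finset.sum_product', Finset.univ_product_univ]
    refine (norm_sum_le _ _).trans (le_of_eq ?_)
    simp
  have h2 := Finset.sum_mul_sq_le_sq_mul_sq (univ : Finset (Y × X))
    (fun p => ‖A p.1 p.2‖) (fun p => ‖B p.2 p.1‖)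
  have hA : ∑ p : Y × X, ‖A p.1 p.2‖ ^ 2 = ‖A‖ ^ 2 := by
    rw [norm_sq, ← Finset.sum_product', Finset.univ_product_univ]
  have hB : ∑ p : Y × X, ‖B p.2 p.1‖ ^ 2 = ‖B‖ ^ 2 := by
    rw [norm_sq, Finset.sum_comm, ← Finset.sum_product', Finset.univ_product_univ]
  rw [hA, hB, ← mul_pow] at h2
  exact h1.trans (le_of_sq_le_sq_of_nonneg h2 (by positivity))
where
  le_of_sq_le_sq_of_nonneg {a b : ℝ} (h : a ^ 2 ≤ b ^ 2) (hb : 0 ≤ b) : a ≤ b :=
    (abs_le_of_sq_le_sq' h hb).2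

lemma le_of_sq {a b : ℝ} (h : a ^ 2 ≤ b ^ 2) (hb : 0 ≤ b) : a ≤ b :=
  (abs_le_of_sq_le_sq' h hb).2

lemma norm_one_sq [DecidableEq X] : ‖(1 : Matrix X X ℂ)‖ ^ 2 = Fintype.card X := by
  rw [norm_sq_trace]; simp

lemma norm_one_eq [DecidableEq X] : ‖(1 : Matrix X X ℂ)‖ = √(Fintype.card X) := by
  rw [← norm_one_sq, Real.sqrt_sq (norm_nonneg _)]

/-- Contractions. -/
def Ctr (T : Matrix Y X ℂ) : Prop :=
  ∀ (Z : Type) [Fintype Z] (B : Matrix X Z ℂ), ‖T * B‖ ≤ ‖B‖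

lemma Ctr.left {T : Matrix Y X ℂ} (h : Ctr T) (B : Matrix X Z ℂ) : ‖T * B‖ ≤ ‖B‖ := h Z B

lemma Ctr.right {T : Matrix Y X ℂ} (h : Ctr Tᴴ) (B : Matrix Z Y ℂ) : ‖B * T‖ ≤ ‖B‖ := by
  rw [← frobenius_norm_conjTranspose, conjTranspose_mul, ← frobenius_norm_conjTranspose B]
  exact h Z _

lemma Ctr.mul {S : Matrix Z Y ℂ} {T : Matrix Y X ℂ} (hS : Ctr S) (hT : Ctr T) : Ctr (S * T) := by
  intro V _ B
  rw [Matrix.mul_assoc]
  exact (hS.left _).trans (hT.left _)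

lemma Ctr.norm_le [DecidableEq X] {T : Matrix Y X ℂ} (h : Ctr T) : ‖T‖ ≤ √(Fintype.card X) := by
  have := h.left (1 : Matrix X X ℂ)
  rwa [Matrix.mul_one, norm_one_eq] at this

lemma norm_sq_split [DecidableEq X] (e : Matrix X X ℂ) (he : eᴴ = e) (he2 : e * e = e)
    (B : Matrix X Z ℂ) : ‖B‖ ^ 2 = ‖e * B‖ ^ 2 + ‖(1 - e) * B‖ ^ 2 := by
  rw [norm_sq_trace, norm_sq_trace, norm_sq_trace, ← Complex.add_re, ← trace_add]
  congr 2
  rw [conjTranspose_mul, conjTranspose_mul, conjTranspose_sub, conjTranspose_one, he]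
  have h1 : (1 - e) * (1 - e) = 1 - e := by
    rw [Matrix.sub_mul, Matrix.mul_sub, Matrix.mul_sub, he2]; simp
  calc Bᴴ * B = Bᴴ * (e + (1 - e)) * B := by simp
    _ = Bᴴ * (e * e + (1 - e) * (1 - e)) * B := by rw [he2, h1]
    _ = _ := by simp only [Matrix.mul_add, Matrix.add_mul, Matrix.mul_assoc]

lemma ctr_of_idem [DecidableEq X] {T : Matrix Y X ℂ} (h : (Tᴴ * T) * (Tᴴ * T) = Tᴴ * T) :
    Ctr T := by
  intro V _ B
  have he : (Tᴴ * T)ᴴ = Tᴴ * T := by simp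
  have h1 := norm_sq_split (Tᴴ * T) he h B
  have h2 : ‖T * B‖ ^ 2 = ‖(Tᴴ * T) * B‖ ^ 2 := by
    rw [norm_sq_trace, norm_sq_trace]
    congr 2
    rw [conjTranspose_mul (Tᴴ * T), he, conjTranspose_mul]
    calc Bᴴ * Tᴴ * (T * B) = Bᴴ * (Tᴴ * T) * B := by simp only [Matrix.mul_assoc]
      _ = Bᴴ * ((Tᴴ * T) * (Tᴴ * T)) * B := by rw [h]
      _ = _ := by simp only [Matrix.mul_assoc]
  apply le_of_sq _ (norm_nonneg _)
  rw [h2, h1]
  have := sq_nonneg ‖(1 - Tᴴ * T) * B‖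
  linarith

lemma ctr_of_isometry [DecidableEq X] {T : Matrix Y X ℂ} (h : Tᴴ * T = 1) : Ctr T :=
  ctr_of_idem (by rw [h, Matrix.mul_one])

lemma ctr_adj_of_isometry [DecidableEq X] [DecidableEq Y] {T : Matrix Y X ℂ} (h : Tᴴ * T = 1) :
    Ctr Tᴴ := by
  apply ctr_of_idem
  rw [conjTranspose_conjTranspose]
  calc T * Tᴴ * (T * Tᴴ) = T * (Tᴴ * T) * Tᴴ := by simp only [Matrix.mul_assoc]
    _ = T * Tᴴ := by rw [h, Matrix.mul_one]

lemma norm_isometry_mul [DecidableEq X] {T : Matrix Y X ℂ} (h : Tᴴ * T = 1) (B : Matrix X Z ℂ) :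
    ‖T * B‖ = ‖B‖ := by
  have : ‖T * B‖ ^ 2 = ‖B‖ ^ 2 := by
    rw [norm_sq_trace, norm_sq_trace, conjTranspose_mul]
    congr 2
    calc Bᴴ * Tᴴ * (T * B) = Bᴴ * (Tᴴ * T) * B := by simp only [Matrix.mul_assoc]
      _ = _ := by rw [h, Matrix.mul_one]
  exact (pow_left_inj₀ (norm_nonneg _) (norm_nonneg _) two_ne_zero).1 this

lemma norm_mul_coisometry [DecidableEq Y] {T : Matrix Y X ℂ} (h : T * Tᴴ = 1)
    (B : Matrix Z Y ℂ) : ‖B * T‖ = ‖B‖ := by
  rw [← frobenius_norm_conjTranspose, conjTranspose_mul, ← frobenius_norm_conjTranspose B]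
  apply norm_isometry_mul
  rwa [conjTranspose_conjTranspose]

lemma norm_sq_proj (e : Matrix X X ℂ) (he : eᴴ = e) (he2 : e * e = e) :
    ‖e‖ ^ 2 = (trace e).re := by
  rw [norm_sq_trace, he, he2]

lemma norm_one_sub_isometry [DecidableEq X] [DecidableEq Y] {J : Matrix Y X ℂ}
    (h : Jᴴ * J = 1) : ‖1 - J * Jᴴ‖ ^ 2 = Fintype.card Y - Fintype.card X := by
  rw [norm_sq_proj]
  · rw [trace_sub, trace_mul_comm, h]; simp
  · simp
  · have : J * Jᴴ * (J * Jᴴ) = J * Jᴴ := by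
      calc J * Jᴴ * (J * Jᴴ) = J * (Jᴴ * J) * Jᴴ := by simp only [Matrix.mul_assoc]
        _ = J * Jᴴ := by rw [h, Matrix.mul_one]
    rw [Matrix.sub_mul, Matrix.mul_sub, Matrix.mul_sub, this]; simp

/-- The matrix of a map. -/
def emb [DecidableEq Y] (f : X → Y) : Matrix Y X ℂ := fun y x => if y = f x then 1 else 0

omit [Fintype X] [Fintype Y] in
lemma emb_apply [DecidableEq Y] (f : X → Y) (y : Y) (x : X) :
    emb f y x = if y = f x then 1 else 0 := rfl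

omit [Fintype X] [Fintype Z] in
lemma mul_emb [DecidableEq Y] (f : X → Y) (A : Matrix Z Y ℂ) (z : Z) (x : X) :
    (A * emb f) z x = A z (f x) := by
  simp [mul_apply, emb_apply]

omit [Fintype X] [Fintype Z] in
lemma emb_adj_mul [DecidableEq Y] (f : X → Y) (A : Matrix Y Z ℂ) (x : X) (z : Z) :
    ((emb f)ᴴ * A) x z = A (f x) z := by
  simp [mul_apply, emb_apply, apply_ite]

omit [Fintype X] [Fintype Z] in
lemma emb_mul_emb [DecidableEq Y] [DecidableEq Z] (g : Y → Z) (f : X → Y) :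
    emb g * emb f = emb (g ∘ f) := by
  ext z x; rw [mul_emb]; rfl

omit [Fintype X] in
lemma emb_id [DecidableEq X] : emb (id : X → X) = 1 := by
  ext y x; simp [emb_apply, one_apply]

omit [Fintype X] in
lemma emb_adj_emb [DecidableEq X] [DecidableEq Y] {f : X → Y} (hf : Function.Injective f) :
    (emb f)ᴴ * emb f = 1 := by
  ext x x'
  rw [emb_adj_mul, emb_apply, one_apply]
  simp [hf.eq_iff]

omit [Fintype X] [Fintype Y] in
lemma emb_equiv_adj [DecidableEq X] [DecidableEq Y] (e : X ≃ Y) : (emb e)ᴴ = emb e.symm := by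
  ext x y
  simp only [conjTranspose_apply, emb_apply]
  by_cases h : y = e x
  · subst h; simp
  · rw [if_neg h, if_neg]
    · simp
    · intro h'; apply h; rw [h']; simp

lemma norm_sq_blk {ι : Type} [Fintype ι] [DecidableEq ι] {A B : ι → Type} [∀ i, Fintype (A i)]
    [∀ i, Fintype (B i)] (T : ∀ i, Matrix (B i) (A i) ℂ) :
    ‖blockDiagonal' T‖ ^ 2 = ∑ i, ‖T i‖ ^ 2 := by
  rw [norm_sq_trace, blockDiagonal'_conjTranspose, ← blockDiagonal'_mul, trace_blockDiagonal',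
    Complex.re_sum]
  exact Finset.sum_congr rfl fun i _ => (norm_sq_trace _).symm

lemma norm_blk_le {ι : Type} [Fintype ι] [DecidableEq ι] {A B : ι → Type} [∀ i, Fintype (A i)]
    [∀ i, Fintype (B i)] (T : ∀ i, Matrix (B i) (A i) ℂ) :
    ‖blockDiagonal' T‖ ≤ ∑ i, ‖T i‖ := by
  apply le_of_sq _ (by positivity)
  rw [norm_sq_blk]
  exact Finset.sum_sq_le_sq_sum_of_nonneg fun i _ => norm_nonneg _

lemma Ctr.blk {ι : Type} [Fintype ι] [DecidableEq ι] {A B : ι → Type} [∀ i, Fintype (A i)]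
    [∀ i, Fintype (B i)] (T : ∀ i, Matrix (B i) (A i) ℂ) (h : ∀ i, Ctr (T i)) :
    Ctr (blockDiagonal' T) := by
  intro V _ M
  apply le_of_sq _ (norm_nonneg _)
  have h1 : ‖blockDiagonal' T * M‖ ^ 2 =
      ∑ i, ‖T i * (Matrix.of fun (a : A i) (v : V) => M ⟨i, a⟩ v)‖ ^ 2 := by
    simp only [norm_sq]
    rw [Fintype.sum_sigma]
    refine Finset.sum_congr rfl fun i _ => Finset.sum_congr rfl fun b _ =>
      Finset.sum_congr rfl fun v _ => ?_
    congr 2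
    simp only [mul_apply, of_apply]
    rw [Fintype.sum_sigma, Finset.sum_eq_single i]
    · simp [blockDiagonal'_apply_eq]
    · intro j _ hj
      simp [blockDiagonal'_apply_ne _ _ _ hj.symm]
    · simp
  have h2 : ‖M‖ ^ 2 = ∑ i, ‖(Matrix.of fun (a : A i) (v : V) => M ⟨i, a⟩ v)‖ ^ 2 := by
    simp only [norm_sq]
    rw [Fintype.sum_sigma]
    rfl
  rw [h1, h2]
  exact Finset.sum_le_sum fun i _ => pow_le_pow_left₀ (norm_nonneg _) ((h i).left _) 2

omit [Fintype X] in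
lemma blk_mul_emb_mk {ι : Type} [Fintype ι] [DecidableEq ι] {A : ι → Type} [∀ i, Fintype (A i)]
    [∀ i, DecidableEq (A i)] (T : ∀ i, Matrix (A i) (A i) ℂ) (i : ι) :
    blockDiagonal' T * (emb (Sigma.mk i) : Matrix (Σ i, A i) (A i) ℂ) =
      (emb (Sigma.mk i) : Matrix (Σ i, A i) (A i) ℂ) * T i := by
  ext ⟨j, b⟩ a
  rw [mul_emb]
  by_cases h : j = i
  · subst h
    rw [blockDiagonal'_apply_eq]
    simp [mul_apply, emb_apply]
  · rw [blockDiagonal'_apply_ne _ _ _ h]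
    simp [mul_apply, emb_apply, h]

end Pool.Agent.H845Z.St
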