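import Pool.Agent.H845Z.St.Main

/-!
The class of partial permutation matrices.
-/

set_option autoImplicit false

namespace Pool.Agent.H845Z.St

open Matrix Finset Obj Equiv
open scoped Matrix.Norms.Frobenius

open Classical in
/-- number of points with a property -/
noncomputable def nc {X : Type} [Fintype X] (p : X → Prop) : ℕ := (univ.filter p).card

section nc
variable {X Y : Type} [Fintype X] [Fintype Y]

lemma nc_eq (p : X → Prop) [DecidablePred p] : nc p = (univ.filter p).card := by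
  unfold nc; congr

lemma nc_split (p q : X → Prop) :
    nc p = nc (fun x => p x ∧ q x) + nc (fun x => p x ∧ ¬ q x) := by
  classical
  rw [nc_eq, nc_eq, nc_eq, ← Finset.filter_filter, ← Finset.filter_filter,
    Finset.card_filter_add_card_filter_not]

lemma nc_pos (p : X → Prop) : 0 < nc p ↔ ∃ x, p x := by
  classical
  rw [nc_eq, card_pos, filter_nonempty_iff]; simp

lemma nc_mono {p q : X → Prop} (h : ∀ x, p x → q x) : nc p ≤ nc q := by
  classical
  rw [nc_eq, nc_eq]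
  exact card_le_card fun x hx => mem_filter.2 ⟨mem_univ _, h x (mem_filter.1 hx).2⟩

lemma nc_lt {p q : X → Prop} (h : ∀ x, p x → q x) {x : X} (h1 : q x) (h2 : ¬ p x) :
    nc p < nc q := by
  classical
  rw [nc_eq, nc_eq]
  refine card_lt_card ⟨fun x hx => mem_filter.2 ⟨mem_univ _, h x (mem_filter.1 hx).2⟩, fun h3 => ?_⟩
  exact h2 (mem_filter.1 (h3 (mem_filter.2 ⟨mem_univ _, h1⟩))).2

lemma nc_le_card (p : X → Prop) : nc p ≤ Fintype.card X := by
  classical
  rw [nc_eq]; exact card_filter_le _ _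

lemma nc_true : nc (fun _ : X => True) = Fintype.card X := by
  rw [nc_eq]; simp

lemma nc_rel {p : X → Prop} {q : Y → Prop} (R : X → Y → Prop) (h1 : ∀ x, p x → ∃ y, q y ∧ R x y)
    (h2 : ∀ y, q y → ∃ x, p x ∧ R x y) (l : ∀ x x' y, R x y → R x' y → x = x')
    (r : ∀ x y y', R x y → R x y' → y = y') : nc p = nc q := by
  classical
  rw [nc_eq, nc_eq]
  apply Finset.card_bij (fun x hx => (h1 x (mem_filter.1 hx).2).choose)
  · intro x hx
    exact mem_filter.2 ⟨mem_univ _, (h1 x (mem_filter.1 hx).2).choose_spec.1⟩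
  · intro x hx x' hx' h
    exact l x x' _ (h1 x (mem_filter.1 hx).2).choose_spec.2
      (h ▸ (h1 x' (mem_filter.1 hx').2).choose_spec.2)
  · intro y hy
    obtain ⟨x, hx, hr⟩ := h2 y (mem_filter.1 hy).2
    exact ⟨x, mem_filter.2 ⟨mem_univ _, hx⟩, r x _ _ (h1 x hx).choose_spec.2 hr⟩

lemma nc_sum (p : X → Prop) [DecidablePred p] : (nc p : ℤ) = ∑ x, if p x then 1 else 0 := by
  rw [nc_eq, Finset.card_filter]; push_cast; rfl

end nc

/-- partial permutation matrices -/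
def IsPP {X Y : Type} (T : Matrix Y X ℂ) : Prop :=
  (∀ y x, T y x = 0 ∨ T y x = 1) ∧ (∀ y x x', T y x = 1 → T y x' = 1 → x = x') ∧
    ∀ y y' x, T y x = 1 → T y' x = 1 → y = y'

section
variable {X Y Z : Type} {T : Matrix Y X ℂ}

lemma IsPP.zero (h : IsPP T) {y : Y} {x : X} (h1 : T y x ≠ 1) : T y x = 0 :=
  (h.1 y x).resolve_right h1

lemma IsPP.adj_apply (h : IsPP T) (y : Y) (x : X) : Tᴴ x y = T y x := by
  rw [conjTranspose_apply]
  rcases h.1 y x with h1 | h1 <;> simp [h1]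

lemma IsPP.adj (h : IsPP T) : IsPP Tᴴ := by
  refine ⟨fun x y => ?_, fun x y y' => ?_, fun x x' y => ?_⟩
  · rw [h.adj_apply]; exact h.1 y x
  · rw [h.adj_apply, h.adj_apply]; exact h.2.2 y y' x
  · rw [h.adj_apply, h.adj_apply]; exact h.2.1 y x x'

lemma IsPP.row_some [Fintype X] (h : IsPP T) {y : Y} {x : X} (h1 : T y x = 1) (B : Matrix X Z ℂ)
    (z : Z) : (T * B) y z = B x z := by
  rw [mul_apply, Finset.sum_eq_single x]
  · rw [h1, one_mul]
  · intro x' _ hx
    rw [h.zero fun h2 => hx (h.2.1 y x' x h2 h1), zero_mul]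
  · simp

lemma IsPP.row_none [Fintype X] (h : IsPP T) {y : Y} (h1 : ¬ ∃ x, T y x = 1) (B : Matrix X Z ℂ)
    (z : Z) : (T * B) y z = 0 := by
  rw [mul_apply]
  exact Finset.sum_eq_zero fun x _ => by rw [h.zero fun h2 => h1 ⟨x, h2⟩, zero_mul]

lemma IsPP.mul [Fintype Y] {S : Matrix Z Y ℂ} (hS : IsPP S) (h : IsPP T) : IsPP (S * T) := by
  have key : ∀ z x, (S * T) z x = 1 → ∃ y, S z y = 1 ∧ T y x = 1 := by
    intro z x h1
    by_cases h2 : ∃ y, S z y = 1
    · obtain ⟨y, hy⟩ := h2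
      exact ⟨y, hy, by rwa [hS.row_some hy] at h1⟩
    · rw [hS.row_none h2] at h1; exact absurd h1 zero_ne_one
  refine ⟨fun z x => ?_, fun z x x' h1 h2 => ?_, fun z z' x h1 h2 => ?_⟩
  · by_cases h2 : ∃ y, S z y = 1
    · obtain ⟨y, hy⟩ := h2
      rw [hS.row_some hy]; exact h.1 y x
    · exact Or.inl (hS.row_none h2 _ _)
  · obtain ⟨y, a1, a2⟩ := key z x h1
    obtain ⟨y', b1, b2⟩ := key z x' h2
    obtain rfl := hS.2.1 z y y' a1 b1
    exact h.2.1 y x x' a2 b2
  · obtain ⟨y, a1, a2⟩ := key z x h1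
    obtain ⟨y', b1, b2⟩ := key z' x h2
    obtain rfl := h.2.2 y y' x a2 b2
    exact hS.2.2 z z' y a1 b1

open Classical in
lemma IsPP.adj_mul_self [Fintype Y] [DecidableEq X] (h : IsPP T) :
    Tᴴ * T = diagonal fun x => if ∃ y, T y x = 1 then 1 else 0 := by
  ext x x'
  by_cases h1 : ∃ y, T y x = 1
  · obtain ⟨y, hy⟩ := h1
    rw [h.adj.row_some (by rw [h.adj_apply]; exact hy)]
    by_cases h2 : x = x'
    · subst h2; rw [diagonal_apply_eq, if_pos ⟨y, hy⟩, hy]
    · rw [diagonal_apply_ne _ h2]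
      exact h.zero fun h3 => h2 (h.2.1 y x x' hy h3)
  · rw [h.adj.row_none (by simpa only [h.adj_apply] using h1), diagonal_apply, if_neg h1]
    simp

lemma emb_eq_one [DecidableEq Y] (f : X → Y) (y : Y) (x : X) : emb f y x = 1 ↔ y = f x := by
  rw [emb_apply]; split_ifs with h <;> simp [h]

lemma isPP_emb [DecidableEq Y] {f : X → Y} (hf : Function.Injective f) : IsPP (emb f) := by
  refine ⟨fun y x => ?_, fun y x x' h1 h2 => ?_, fun y y' x h1 h2 => ?_⟩
  · rw [emb_apply]; split_ifs <;> simp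
  · rw [emb_eq_one] at h1 h2; exact hf (h1.symm.trans h2)
  · rw [emb_eq_one] at h1 h2; exact h1.trans h2.symm

lemma emb_inj [DecidableEq Y] {f g : X → Y} (h : emb f = emb g) : f = g := by
  funext x
  have : emb g (f x) x = 1 := by rw [← h, emb_eq_one]
  exact (emb_eq_one _ _ _).1 this

lemma IsPP.exists_fun [Fintype Y] [DecidableEq X] [DecidableEq Y] (h : IsPP T)
    (h1 : Tᴴ * T = 1) : ∃ f : X → Y, Function.Injective f ∧ T = emb f := by
  have : ∀ x, ∃ y, T y x = 1 := by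
    intro x
    by_contra h2
    have h3 := congrFun (congrFun h1 x) x
    rw [h.adj_mul_self, diagonal_apply_eq, if_neg h2, one_apply_eq] at h3
    exact zero_ne_one h3
  choose f hf using this
  refine ⟨f, fun x x' h2 => h.2.1 (f x) x x' (hf x) (h2 ▸ hf x'), ?_⟩
  ext y x
  rw [emb_apply]
  split_ifs with h2
  · rw [h2, hf]
  · exact h.zero fun h3 => h2 (h.2.2 y (f x) x h3 (hf x))

lemma norm_sq_one_sub_diag [Fintype X] [DecidableEq X] (p : X → Prop) [DecidablePred p] :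
    ‖(1 : Matrix X X ℂ) - diagonal fun x => if p x then 1 else 0‖ ^ 2 =
      nc fun x => ¬ p x := by
  rw [nc_eq, ← diagonal_one, diagonal_sub, norm_sq_trace, diagonal_conjTranspose, diagonal_mul_diagonal,
    trace_diagonal, Complex.re_sum, Finset.card_filter]
  push_cast
  refine Finset.sum_congr rfl fun x _ => ?_
  by_cases h : p x <;> simp [h]

lemma card_le_norm_sq [Fintype X] [Fintype Y] (M : Matrix Y X ℂ) (P : Finset (Y × X))
    (h : ∀ p ∈ P, M p.1 p.2 = 1) : (P.card : ℝ) ≤ ‖M‖ ^ 2 := by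
  rw [norm_sq, ← Finset.sum_product', Finset.univ_product_univ]
  calc (P.card : ℝ) = ∑ p ∈ P, ‖M p.1 p.2‖ ^ 2 := by
        rw [Finset.card_eq_sum_ones]; push_cast
        exact Finset.sum_congr rfl fun p hp => by rw [h p hp]; simp
    _ ≤ _ := Finset.sum_le_sum_of_subset_of_nonneg (subset_univ _) fun _ _ _ => by positivity

open Classical in
lemma IsPP.card_bad [Fintype X] [Fintype Y] [DecidableEq X] [DecidableEq Y] (h : IsPP T)
    (σ : Perm X) (σ' : Perm Y) :
    ((univ.filter fun p : Y × X => T p.1 p.2 = 1 ∧ T (σ' p.1) (σ p.2) ≠ 1).card : ℝ) ≤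
      ‖emb σ' * T - T * emb σ‖ ^ 2 := by
  have hinj : Function.Injective fun p : Y × X => (σ' p.1, p.2) := fun p q hpq => by
    simp only [Prod.mk.injEq] at hpq
    exact Prod.ext (σ'.injective hpq.1) hpq.2
  rw [← Finset.card_image_of_injective _ hinj]
  apply card_le_norm_sq
  intro q hq
  obtain ⟨p, hp, rfl⟩ := Finset.mem_image.1 hq
  simp only [mem_filter, mem_univ, true_and] at hp
  rw [Matrix.sub_apply, mul_emb, (isPP_emb σ'.injective).row_some ((emb_eq_one _ _ _).2 rfl), hp.1,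
    h.zero hp.2, sub_zero]

open Classical in
lemma IsPP.card_badY [Fintype X] [Fintype Y] [DecidableEq X] [DecidableEq Y] (h : IsPP T)
    {Γ : Type} (S : Finset Γ) (σ : Γ → Perm X) (σ' : Γ → Perm Y) :
    ((nc fun y => ¬ ∃ x, T y x = 1 ∧ ∀ s ∈ S, T (σ' s y) (σ s x) = 1 : ℕ) : ℝ) ≤
      ‖1 - T * Tᴴ‖ ^ 2 + ∑ s ∈ S, ‖emb (σ' s) * T - T * emb (σ s)‖ ^ 2 := by
  have h1 := h.adj.adj_mul_self
  rw [conjTranspose_conjTranspose] at h1
  rw [h1, norm_sq_one_sub_diag, nc_eq, nc_eq]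
  have hsub : (univ.filter fun y => ¬ ∃ x, T y x = 1 ∧ ∀ s ∈ S, T (σ' s y) (σ s x) = 1) ⊆
      (univ.filter fun y => ¬ ∃ x, Tᴴ x y = 1) ∪ S.biUnion fun s =>
        (univ.filter fun p : Y × X => T p.1 p.2 = 1 ∧ T (σ' s p.1) (σ s p.2) ≠ 1).image
          Prod.fst := by
    intro y hy
    simp only [mem_filter, mem_univ, true_and, mem_union, mem_biUnion, mem_image,
      h.adj_apply] at hy ⊢
    by_cases h2 : ∃ x, T y x = 1
    · obtain ⟨x, hx⟩ := h2
      right
      by_contra h3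
      exact hy ⟨x, hx, fun s hs => by
        by_contra h4
        exact h3 ⟨s, hs, (y, x), ⟨hx, h4⟩, rfl⟩⟩
    · exact Or.inl h2
  have h2 := (card_le_card hsub).trans ((card_union_le _ _).trans
    (Nat.add_le_add_left (card_biUnion_le.trans (Finset.sum_le_sum fun s _ => card_image_le)) _))
  refine le_trans (Nat.cast_le.2 h2) ?_
  push_cast
  exact add_le_add le_rfl (Finset.sum_le_sum fun s _ => h.card_bad _ _)

open Classical in
lemma IsPP.card_badX [Fintype X] [Fintype Y] [DecidableEq X] [DecidableEq Y] (h : IsPP T)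
    {Γ : Type} (S : Finset Γ) (σ : Γ → Perm X) (σ' : Γ → Perm Y) :
    ((nc fun x => ¬ ∃ y, T y x = 1 ∧ ∀ s ∈ S, T (σ' s y) (σ s x) = 1 : ℕ) : ℝ) ≤
      ‖1 - Tᴴ * T‖ ^ 2 + ∑ s ∈ S, ‖emb (σ' s) * T - T * emb (σ s)‖ ^ 2 := by
  rw [h.adj_mul_self, norm_sq_one_sub_diag, nc_eq, nc_eq]
  have hsub : (univ.filter fun x => ¬ ∃ y, T y x = 1 ∧ ∀ s ∈ S, T (σ' s y) (σ s x) = 1) ⊆
      (univ.filter fun x => ¬ ∃ y, T y x = 1) ∪ S.biUnion fun s =>
        (univ.filter fun p : Y × X => T p.1 p.2 = 1 ∧ T (σ' s p.1) (σ s p.2) ≠ 1).image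
          Prod.snd := by
    intro x hx
    simp only [mem_filter, mem_univ, true_and, mem_union, mem_biUnion, mem_image] at hx ⊢
    by_cases h2 : ∃ y, T y x = 1
    · obtain ⟨y, hy⟩ := h2
      right
      by_contra h3
      exact hx ⟨y, hy, fun s hs => by
        by_contra h4
        exact h3 ⟨s, hs, (y, x), ⟨hy, h4⟩, rfl⟩⟩
    · exact Or.inl h2
  have h2 := (card_le_card hsub).trans ((card_union_le _ _).trans
    (Nat.add_le_add_left (card_biUnion_le.trans (Finset.sum_le_sum fun s _ => card_image_le)) _))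
  refine le_trans (Nat.cast_le.2 h2) ?_
  push_cast
  exact add_le_add le_rfl (Finset.sum_le_sum fun s _ => h.card_bad _ _)

end

section ext
variable {H X Y : Type} [Group H] [Fintype X] [Fintype Y]

/-- equivariant partial bijections -/
structure EPB (π : H →* Perm X) (π' : H →* Perm Y) (R : X → Y → Prop) : Prop where
  l : ∀ x x' y, R x y → R x' y → x = x'
  r : ∀ x y y', R x y → R x y' → y = y'
  inv : ∀ h x y, R x y → R (π h x) (π' h y)

omit [Fintype X] [Fintype Y] in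
lemma EPB.fix {π : H →* Perm X} {π' : H →* Perm Y} {R : X → Y → Prop} (e : EPB π π' R) {x : X}
    {y : Y} (h : R x y) (g : H) : π g x = x ↔ π' g y = y :=
  ⟨fun h1 => e.r x _ _ (h1 ▸ e.inv g x y h) h, fun h1 => e.l _ _ y (h1 ▸ e.inv g x y h) h⟩

lemma EPB.card_eq {π : H →* Perm X} {π' : H →* Perm Y} {R : X → Y → Prop} (e : EPB π π' R)
    (L : H → Prop) :
    nc (fun x => (∀ g, π g x = x ↔ L g) ∧ ∃ y, R x y) =
      nc (fun y => (∀ g, π' g y = y ↔ L g) ∧ ∃ x, R x y) :=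
  nc_rel R (fun x ⟨h1, y, hy⟩ => ⟨y, ⟨fun g => (e.fix hy g).symm.trans (h1 g), x, hy⟩, hy⟩)
    (fun y ⟨h1, x, hx⟩ => ⟨x, ⟨fun g => (e.fix hx g).trans (h1 g), y, hx⟩, hx⟩) e.l e.r

/-- number of points with prescribed stabiliser -/
noncomputable def cnt (π : H →* Perm X) (L : H → Prop) : ℕ := nc fun x => ∀ g, π g x = x ↔ L g

lemma cnt_split (π : H →* Perm X) (L : H → Prop) (p : X → Prop) :
    cnt π L = nc (fun x => (∀ g, π g x = x ↔ L g) ∧ p x) +
      nc (fun x => (∀ g, π g x = x ↔ L g) ∧ ¬ p x) := nc_split _ _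

lemma EPB.extend {π : H →* Perm X} {π' : H →* Perm Y} (hc : Fintype.card X = Fintype.card Y)
    (hcnt : ∀ L, cnt π L = cnt π' L) (n : ℕ) : ∀ R : X → Y → Prop, EPB π π' R →
    nc (fun x => ¬ ∃ y, R x y) ≤ n →
    ∃ e : X ≃ Y, (∀ g x, e (π g x) = π' g (e x)) ∧ ∀ x y, R x y → e x = y := by
  have base : ∀ R : X → Y → Prop, EPB π π' R → (∀ x, ∃ y, R x y) →
      ∃ e : X ≃ Y, (∀ g x, e (π g x) = π' g (e x)) ∧ ∀ x y, R x y → e x = y := by
    intro R e h
    choose f hf using h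
    have hb : Function.Bijective f := (Fintype.bijective_iff_injective_and_card f).2
      ⟨fun x x' h => e.l x x' _ (hf x) (h ▸ hf x'), hc⟩
    exact ⟨Equiv.ofBijective f hb, fun g x => e.r _ _ _ (hf _) (e.inv g x _ (hf x)),
      fun x y h => e.r x _ _ (hf x) h⟩
  induction n with
  | zero =>
    intro R e h
    refine base R e fun x => ?_
    by_contra h1
    have := (nc_pos fun x => ¬ ∃ y, R x y).2 ⟨x, h1⟩
    omega
  | succ n ih =>
    intro R e h
    by_cases h0 : ∀ x, ∃ y, R x y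
    · exact base R e h0
    obtain ⟨x0, hx0⟩ := not_forall.1 h0
    obtain ⟨y0, hy1, hy0⟩ : ∃ y0, (∀ g, π' g y0 = y0 ↔ π g x0 = x0) ∧ ¬ ∃ x, R x y0 := by
      have h1 := cnt_split π (fun g => π g x0 = x0) fun x => ∃ y, R x y
      have h2 := cnt_split π' (fun g => π g x0 = x0) fun y => ∃ x, R x y
      have h3 := e.card_eq fun g => π g x0 = x0
      have h4 : 0 < nc fun x => (∀ g, π g x = x ↔ π g x0 = x0) ∧ ¬ ∃ y, R x y :=
        (nc_pos _).2 ⟨x0, fun _ => Iff.rfl, hx0⟩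
      have h5 := hcnt fun g => π g x0 = x0
      have h6 : 0 < nc fun y => (∀ g, π' g y = y ↔ π g x0 = x0) ∧ ¬ ∃ x, R x y := by
        omega
      exact (nc_pos _).1 h6
    have ox : ∀ g y, ¬ R (π g x0) y := fun g y h1 => hx0 ⟨π' g⁻¹ y, by
      have := e.inv g⁻¹ _ _ h1
      simpa using this⟩
    have oy : ∀ g x, ¬ R x (π' g y0) := fun g x h1 => hy0 ⟨π g⁻¹ x, by
      have := e.inv g⁻¹ _ _ h1
      simpa using this⟩
    have st : ∀ g k, π g x0 = π k x0 ↔ π' g y0 = π' k y0 := by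
      intro g k
      have := hy1 (k⁻¹ * g)
      rw [map_mul, map_mul, map_inv, map_inv, Perm.mul_apply, Perm.mul_apply,
        Perm.inv_eq_iff_eq, Perm.inv_eq_iff_eq] at this
      exact this.symm
    obtain ⟨f, f1, f2⟩ := ih (fun x y => R x y ∨ ∃ g, x = π g x0 ∧ y = π' g y0) ⟨by
      rintro x x' y (h1 | ⟨g, rfl, rfl⟩) (h2 | ⟨k, rfl, h3⟩)
      · exact e.l x x' y h1 h2
      · exact absurd (h3 ▸ h1) (oy k x)
      · exact absurd h2 (oy g x')
      · exact (st g k).2 h3, by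
      rintro x y y' (h1 | ⟨g, rfl, rfl⟩) (h2 | ⟨k, h3, rfl⟩)
      · exact e.r x y y' h1 h2
      · exact absurd (h3 ▸ h1) (ox k y)
      · exact absurd h2 (ox g y')
      · exact (st g k).1 h3, by
      rintro k x y (h1 | ⟨g, rfl, rfl⟩)
      · exact Or.inl (e.inv k x y h1)
      · exact Or.inr ⟨k * g, by simp, by simp⟩⟩ (by
      have : nc (fun x => ¬ ∃ y, R x y ∨ ∃ g, x = π g x0 ∧ y = π' g y0) <
          nc fun x => ¬ ∃ y, R x y :=
        nc_lt (fun x hx ⟨y, hy⟩ => hx ⟨y, Or.inl hy⟩) hx0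
          (fun h1 => h1 ⟨y0, Or.inr ⟨1, by simp, by simp⟩⟩)
      omega)
    exact ⟨f, f1, fun x y h1 => f2 x y (Or.inl h1)⟩

end ext

lemma norm_emb_sub {X Y : Type} [Fintype X] [Fintype Y] [DecidableEq X] [DecidableEq Y]
    {T : Matrix Y X ℂ} (h : IsPP T) (e : X → Y) (p : X → Prop) [DecidablePred p]
    (hp : ∀ x, p x → T (e x) x = 1) :
    emb e - T = (emb e - T) * ((1 : Matrix X X ℂ) - diagonal fun x => if p x then 1 else 0) := by
  rw [← diagonal_one, diagonal_sub]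
  ext y x
  rw [mul_diagonal]
  by_cases h1 : p x
  · rw [if_pos h1, sub_self, mul_zero, Matrix.sub_apply, emb_apply]
    split_ifs with h2
    · rw [h2, hp x h1, sub_self]
    · rw [h.zero fun h3 => h2 (h.2.2 _ _ x h3 (hp x h1)), sub_self]
  · rw [if_neg h1, sub_zero, mul_one]

lemma IsPP.ctr {X Y : Type} [Fintype X] [Fintype Y] {T : Matrix Y X ℂ} (h : IsPP T) : Ctr T := by
  classical
  apply ctr_of_idem
  rw [h.adj_mul_self, diagonal_mul_diagonal]
  congr 1; funext x; split_ifs <;> simp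

/-- The permutation class. -/
def clsP : Cls where
  mor T := IsPP T
  ctr h := h.ctr
  adj h := h.adj
  mul h1 h2 := h1.mul h2
  emb h := isPP_emb h
  blk := by
    intro ι _ _ A B _ _ T h
    have key : ∀ (p : Σ i, B i) (q : Σ i, A i), blockDiagonal' T p q = 1 →
        ∃ (i : ι) (b : B i) (a : A i), p = ⟨i, b⟩ ∧ q = ⟨i, a⟩ ∧ T i b a = 1 := by
      rintro ⟨i, b⟩ ⟨j, a⟩ h1
      by_cases h2 : i = j
      · subst h2
        rw [blockDiagonal'_apply_eq] at h1
        exact ⟨i, b, a, rfl, rfl, h1⟩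
      · rw [blockDiagonal'_apply_ne _ _ _ h2] at h1
        exact absurd h1 zero_ne_one
    refine ⟨?_, fun p q q' h1 h2 => ?_, fun p p' q h1 h2 => ?_⟩
    · rintro ⟨i, b⟩ ⟨j, a⟩
      by_cases h2 : i = j
      · subst h2
        rw [blockDiagonal'_apply_eq]; exact (h i).1 b a
      · exact Or.inl (blockDiagonal'_apply_ne _ _ _ h2)
    · obtain ⟨i, b, a, rfl, rfl, h3⟩ := key _ _ h1
      obtain ⟨j, b', a', h4, rfl, h5⟩ := key _ _ h2
      cases h4
      rw [(h i).2.1 b a a' h3 h5]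
    · obtain ⟨i, b, a, rfl, rfl, h3⟩ := key _ _ h1
      obtain ⟨j, b', a', rfl, h4, h5⟩ := key _ _ h2
      cases h4
      rw [(h i).2.2 b b' a h3 h5]
  cpl := by
    intro X Y _ _ _ _ T h hc
    classical
    obtain ⟨e, -, he⟩ := EPB.extend (H := Unit) (π := (1 : Unit →* Perm X))
      (π' := (1 : Unit →* Perm Y)) hc (fun L => by
        by_cases hL : L ()
        · simp [cnt, hL, hc, nc_true]
        · simp [cnt, hL, nc]) _ (fun x y => T y x = 1)
      ⟨fun x x' y => h.2.1 y x x', fun x y y' => h.2.2 y y' x, fun _ _ _ h => h⟩ le_rfl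
    have u2 := emb_adj_emb e.injective
    refine ⟨emb e, isPP_emb e.injective, u2, ?_, ?_⟩
    · have := emb_adj_emb e.symm.injective
      rwa [← emb_equiv_adj, conjTranspose_conjTranspose] at this
    · rw [norm_emb_sub h e (fun x => ∃ y, T y x = 1) (fun x ⟨y, hy⟩ => by rw [he x y hy]; exact hy),
        ← h.adj_mul_self, Matrix.sub_mul, norm_sub_rev]
      have : T * (1 - Tᴴ * T) = 0 := by
        rw [h.adj_mul_self, ← diagonal_one, diagonal_sub]
        ext y x
        rw [mul_diagonal]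
        split_ifs with h1
        · simp
        · rw [h.zero fun h2 => h1 ⟨y, h2⟩]; simp
      rw [this, zero_sub, norm_neg, norm_isometry_mul u2]

/-- the object of a permutation action -/
@[reducible] def pobj {Γ X : Type} [Group Γ] [Fintype X] [DecidableEq X] (π : Γ →* Perm X) :
    Obj Γ where
  X := X
  ρ g := emb (π g)

lemma emb_perm_unit {X Y : Type} [Fintype X] [Fintype Y] [DecidableEq X] [DecidableEq Y]
    (e : X ≃ Y) : emb e * (emb e)ᴴ = 1 := by
  have := emb_adj_emb e.symm.injective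
  rwa [← emb_equiv_adj, conjTranspose_conjTranspose] at this

lemma hom_pobj {Γ X : Type} [Group Γ] [Fintype X] [DecidableEq X] (π : Γ →* Perm X) :
    (pobj π).Hom clsP :=
  ⟨fun g => ⟨isPP_emb (π g).injective, emb_adj_emb (π g).injective, emb_perm_unit _⟩,
    fun g k => by
      change emb (π (g * k)) = emb (π g) * emb (π k)
      rw [emb_mul_emb, map_mul]; rfl⟩

lemma inA_perm {Γ : Type} {a : Obj Γ} (h : a.InA clsP) :
    ∃ π : Γ → Perm a.X, ∀ g, a.ρ g = emb (π g) := by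
  choose f h1 h2 using fun g => IsPP.exists_fun (h g).1 (h g).2.1
  exact ⟨fun g => Equiv.ofBijective (f g) (Finite.injective_iff_bijective.1 (h1 g)), h2⟩

lemma hom_perm {Γ : Type} [Group Γ] {a : Obj Γ} (h : a.Hom clsP) :
    ∃ π : Γ →* Perm a.X, ∀ g, a.ρ g = emb (π g) := by
  obtain ⟨π, hπ⟩ := inA_perm h.1
  refine ⟨MonoidHom.mk' π fun g k => ?_, hπ⟩
  have := h.2 g k
  rw [hπ, hπ, hπ, emb_mul_emb] at this
  exact Equiv.ext (congrFun (emb_inj this))

end Pool.Agent.H845Z.St
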