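import Pool.Agent.H845Z.St.PermA

/-!
Types, labels and the extension property for permutation actions.
-/

set_option autoImplicit false

namespace Pool.Agent.H845Z.St

open Matrix Finset Obj Equiv
open scoped Matrix.Norms.Frobenius

lemma diag_one_iff {Γ : Type} {a : Obj Γ} {σ : Perm a.X} {g : Γ} (h : a.ρ g = emb σ) (x : a.X) :
    a.ρ g x x = 1 ↔ σ x = x := by
  rw [h, emb_eq_one, eq_comm]

lemma sq_sum_le {ι : Type} (S : Finset ι) (u : ℝ) (f : ι → ℝ) (hu : 0 ≤ u) (hf : ∀ i, 0 ≤ f i) :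
    u ^ 2 + ∑ i ∈ S, f i ^ 2 ≤ (u + ∑ i ∈ S, f i) ^ 2 := by
  have h1 : ∑ i ∈ S, f i ^ 2 ≤ (∑ i ∈ S, f i) ^ 2 :=
    Finset.sum_sq_le_sq_sum_of_nonneg fun i _ => hf i
  have h2 : 0 ≤ ∑ i ∈ S, f i := Finset.sum_nonneg fun i _ => hf i
  nlinarith

lemma le_sqrt_mul {u d e : ℝ} (h0 : 0 ≤ u) (h1 : u ≤ d) (h2 : u ≤ e ^ 2) (he : 0 ≤ e) :
    u ≤ √d * e := by
  apply le_of_sq _ (by positivity)
  rw [mul_pow, Real.sq_sqrt (h0.trans h1), sq]
  exact mul_le_mul h1 h2 h0 (h0.trans h1)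

section
variable {H : Type} [Group H] [Fintype H]

/-- number of points with prescribed stabiliser, read off the matrices -/
noncomputable def tyP (a : Obj H) (L : H → Prop) : ℤ := nc fun x => ∀ g, a.ρ g x x = 1 ↔ L g

omit [Fintype H] in
lemma tyP_eq {a : Obj H} {π : H →* Perm a.X} (h : ∀ g, a.ρ g = emb (π g)) (L : H → Prop) :
    tyP a L = cnt π L := by
  simp only [tyP, cnt, diag_one_iff (h _)]

lemma epb_of_pp {a b : Obj H} {π : H →* Perm a.X} {π' : H →* Perm b.X}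
    (ha : ∀ g, a.ρ g = emb (π g)) (hb : ∀ g, b.ρ g = emb (π' g)) {T : Matrix b.X a.X ℂ}
    (h : IsPP T) :
    EPB π π' (fun x y => T y x = 1 ∧ ∀ s ∈ (univ : Finset H), T (π' s y) (π s x) = 1) ∧
    ((nc fun x => ¬ ∃ y, T y x = 1 ∧ ∀ s ∈ (univ : Finset H), T (π' s y) (π s x) = 1 : ℕ) : ℝ) ≤
      dft a b T ^ 2 ∧
    ((nc fun y => ¬ ∃ x, T y x = 1 ∧ ∀ s ∈ (univ : Finset H), T (π' s y) (π s x) = 1 : ℕ) : ℝ) ≤
      dft a b T ^ 2 := by
  refine ⟨⟨fun x x' y h1 h2 => h.2.1 y x x' h1.1 h2.1, fun x y y' h1 h2 => h.2.2 y y' x h1.1 h2.1,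
    fun g x y h1 => ⟨h1.2 g (mem_univ _), fun s _ => ?_⟩⟩, ?_, ?_⟩
  · have := h1.2 (s * g) (mem_univ _)
    simpa using this
  · refine (h.card_badX univ π π').trans ((sq_sum_le _ _ _ (norm_nonneg _)
      fun _ => norm_nonneg _).trans (pow_le_pow_left₀ (by positivity) ?_ 2))
    simp only [dft, ha, hb]
    linarith [norm_nonneg (1 - T * Tᴴ)]
  · refine (h.card_badY univ π π').trans ((sq_sum_le _ _ _ (norm_nonneg _)
      fun _ => norm_nonneg _).trans (pow_le_pow_left₀ (by positivity) ?_ 2))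
    simp only [dft, ha, hb]
    linarith [norm_nonneg (1 - Tᴴ * T)]

/-- type data for permutations -/
noncomputable def tyDataP (H : Type) [Group H] [Fintype H] : TyData clsP H where
  I := H → Prop
  finI := Fintype.ofFinite _
  ty := tyP
  c := 2
  ty_sum := by
    intro ι _ _ f _ L
    classical
    simp only [tyP, nc_sum]
    rw [Fintype.sum_sigma]
    simp only [blockDiagonal'_apply_eq]
  cont := by
    intro a b ha hb T hT L
    obtain ⟨π, hπ⟩ := hom_perm ha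
    obtain ⟨π', hπ'⟩ := hom_perm hb
    obtain ⟨e, b1, b2⟩ := epb_of_pp hπ hπ' hT
    rw [tyP_eq hπ, tyP_eq hπ', cnt_split π L (fun x => ∃ y, _), cnt_split π' L (fun y => ∃ x, _),
      e.card_eq L]
    have d0 := dft_nonneg a b T
    have c1 := le_sqrt_mul (Nat.cast_nonneg _) (Nat.cast_le.2 (nc_le_card _))
      ((Nat.cast_le.2 (nc_mono (p := fun x => (∀ g, π g x = x ↔ L g) ∧ ¬ ∃ y, T y x = 1 ∧
        ∀ s ∈ (univ : Finset H), T (π' s y) (π s x) = 1) fun x hx => hx.2)).trans b1) d0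
    have c2 := le_sqrt_mul (Nat.cast_nonneg _) (Nat.cast_le.2 (nc_le_card _))
      ((Nat.cast_le.2 (nc_mono (p := fun y => (∀ g, π' g y = y ↔ L g) ∧ ¬ ∃ x, T y x = 1 ∧
        ∀ s ∈ (univ : Finset H), T (π' s y) (π s x) = 1) fun x hx => hx.2)).trans b2) d0
    have p1 : 0 ≤ √(Fintype.card a.X : ℝ) * dft a b T := by positivity
    have p2 : 0 ≤ √(Fintype.card b.X : ℝ) * dft a b T := by positivity
    push_cast
    unfold Obj.dim
    rw [abs_le]
    constructor <;> nlinarith [Nat.cast_nonneg (α := ℝ) (nc fun x => (∀ g, π g x = x ↔ L g) ∧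
      ¬ ∃ y, T y x = 1 ∧ ∀ s ∈ (univ : Finset H), T (π' s y) (π s x) = 1),
      Nat.cast_nonneg (α := ℝ) (nc fun y => (∀ g, π' g y = y ↔ L g) ∧ ¬ ∃ x, T y x = 1 ∧
        ∀ s ∈ (univ : Finset H), T (π' s y) (π s x) = 1)]
  rig := by
    intro a b ha hb hd hty T hT
    classical
    obtain ⟨π, hπ⟩ := hom_perm ha
    obtain ⟨π', hπ'⟩ := hom_perm hb
    obtain ⟨e, b1, -⟩ := epb_of_pp hπ hπ' hT
    obtain ⟨f, f1, f2⟩ := EPB.extend hd (fun L => by
      have := congrFun hty L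
      rw [tyP_eq hπ, tyP_eq hπ'] at this
      exact_mod_cast this) _ _ e le_rfl
    refine ⟨emb f, isPP_emb f.injective, emb_adj_emb f.injective, emb_perm_unit f, fun h => ?_, ?_⟩
    · rw [hπ, hπ', emb_mul_emb, emb_mul_emb]
      congr 1; funext x; exact (f1 h x).symm
    · rw [norm_emb_sub hT f (fun x => ∃ y, T y x = 1 ∧ ∀ s ∈ (univ : Finset H),
        T (π' s y) (π s x) = 1) (fun x ⟨y, hy⟩ => by rw [f2 x y hy]; exact hy.1), Matrix.sub_mul]
      rw [← norm_sq_one_sub_diag] at b1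
      have b2 := le_of_sq b1 (dft_nonneg a b T)
      refine (norm_sub_le _ _).trans ?_
      have b3 := ((isPP_emb f.injective).ctr.left _).trans b2
      have b4 := (IsPP.ctr hT |>.left _).trans b2
      linarith

end

lemma blk_emb {ι : Type} [DecidableEq ι] {A : ι → Type} [∀ i, DecidableEq (A i)]
    (f : ∀ i, A i → A i) : blockDiagonal' (fun i => emb (f i)) =
      emb (fun p : Σ i, A i => (⟨p.1, f p.1 p.2⟩ : Σ i, A i)) := by
  ext ⟨i, b⟩ ⟨j, a⟩
  by_cases h : i = j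
  · subst h
    rw [blockDiagonal'_apply_eq]
    simp [emb_apply]
  · rw [blockDiagonal'_apply_ne _ _ _ h]
    simp [emb_apply, h]

/-- restriction of an action to an invariant subset -/
def subPerm {Γ X : Type} [Group Γ] (π : Γ →* Perm X) (p : X → Prop)
    (hp : ∀ g x, p (π g x) ↔ p x) : Γ →* Perm {x // p x} :=
  MonoidHom.mk' (fun g => (π g).subtypePerm (hp g)) fun g k => by
    ext x; simp

lemma subPerm_val {Γ X : Type} [Group Γ] (π : Γ →* Perm X) (p : X → Prop)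
    (hp : ∀ g x, p (π g x) ↔ p x) (g : Γ) (x : {x // p x}) : (subPerm π p hp g x).1 = π g x := rfl

lemma iso_fiber {Γ : Type} [Group Γ] {b : Obj Γ} {π : Γ →* Perm b.X}
    (hπ : ∀ g, b.ρ g = emb (π g)) {T : Type} [Fintype T] [DecidableEq T] (lab : b.X → T)
    (hinv : ∀ τ g x, lab (π g x) = τ ↔ lab x = τ) :
    Iso clsP (Obj.sum fun τ => pobj (subPerm π (fun x => lab x = τ) (hinv τ))) b := by
  let e : (Σ τ, {x // lab x = τ}) ≃ b.X := Equiv.sigmaFiberEquiv lab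
  refine ⟨emb e, isPP_emb e.injective, emb_adj_emb e.injective, emb_perm_unit e, fun g => ?_⟩
  have h1 := blk_emb fun τ => (subPerm π (fun x => lab x = τ) (hinv τ) g : _ → _)
  have h2 : b.ρ g * emb e = emb e * blockDiagonal'
      (fun τ => emb (subPerm π (fun x => lab x = τ) (hinv τ) g : _ → _)) := by
    rw [h1, hπ, emb_mul_emb, emb_mul_emb]
    rfl
  exact h2

section lab
variable {Γ : Type} [Group Γ] (S : Finset Γ) (hS : ∀ s ∈ S, ∀ g, g * s * g⁻¹ ∈ S)

/-- conjugacy of patterns -/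
def patSetoid : Setoid (S → Prop) where
  r A B := ∃ g : Γ, ∀ s : S, A s ↔ B ⟨g * s * g⁻¹, hS _ s.2 g⟩
  iseqv := ⟨fun A => ⟨1, fun s => by simp⟩, fun {A B} ⟨g, h⟩ => ⟨g⁻¹, fun s => by
      rw [h]; simp [mul_assoc]⟩, fun {A B E} ⟨g, h⟩ ⟨k, h'⟩ => ⟨k * g, fun s => by
      rw [h, h']; simp [mul_assoc]⟩⟩

/-- the pattern of a point -/
def pat (a : Obj Γ) (x : a.X) : S → Prop := fun s => a.ρ s x x = 1

lemma pat_move {a : Obj Γ} {π : Γ →* Perm a.X} (h : ∀ g, a.ρ g = emb (π g)) (g : Γ) (x : a.X)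
    (s : S) : pat S a x s ↔ pat S a (π g x) ⟨g * s * g⁻¹, hS _ s.2 g⟩ := by
  simp only [pat, diag_one_iff (h _)]
  simp

lemma pure_count {a : Obj Γ} (ha : a.Hom clsP) (τ : Quotient (patSetoid S hS))
    (pa : ∀ x, Quotient.mk (patSetoid S hS) (pat S a x) = τ) :
    ∃ c : ℕ, ∀ p : (S → Prop) → Prop, nc (fun x => p (pat S a x)) =
      c * @nc _ (Fintype.ofFinite _) fun A => Quotient.mk (patSetoid S hS) A = τ ∧ p A := by
  classical
  obtain ⟨π, hπ⟩ := hom_perm ha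
  let _ : Fintype (S → Prop) := Fintype.ofFinite _
  refine ⟨nc fun x => pat S a x = τ.out, fun p => ?_⟩
  rw [nc_eq, nc_eq (fun A => _ ∧ p A), Finset.card_eq_sum_card_fiberwise (f := pat S a)
    (t := univ.filter fun A => Quotient.mk (patSetoid S hS) A = τ ∧ p A) (fun x hx => by
      simp only [coe_filter, mem_univ, true_and, Set.mem_ofPred_eq] at hx ⊢
      exact ⟨pa x, hx⟩), mul_comm, ← smul_eq_mul, ← Finset.sum_const]
  refine Finset.sum_congr rfl fun A hA => ?_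
  obtain ⟨h1, h2⟩ := (mem_filter.1 hA).2
  obtain ⟨g, hg⟩ : (patSetoid S hS).r A τ.out := Quotient.exact (h1.trans τ.out_eq.symm)
  rw [Finset.filter_filter, ← nc_eq]
  refine nc_rel (fun x y => y = π g x) ?_ ?_ (fun x x' y h1 h2 => (π g).injective (h1.symm.trans h2))
    fun x y y' h1 h2 => h1.trans h2.symm
  · rintro x ⟨-, rfl⟩
    refine ⟨_, funext fun s => propext ?_, rfl⟩
    have e1 := hg ⟨g⁻¹ * s * g⁻¹⁻¹, hS _ s.2 _⟩
    have e2 := pat_move S hS hπ g x ⟨g⁻¹ * s * g⁻¹⁻¹, hS _ s.2 _⟩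
    rw [e2] at e1
    simpa [mul_assoc] using e1
  · intro y hy
    have hA' : pat S a (π g⁻¹ y) = A := funext fun s => propext (by
      rw [hg, ← hy, pat_move S hS hπ g]; simp)
    exact ⟨π g⁻¹ y, ⟨hA' ▸ h2, hA'⟩, by simp⟩

/-- labels for permutations -/
noncomputable def labP {H : Type} [Group H] [Fintype H] (i : H →* Γ) (hi : ∀ h, i h ∈ S) :
    Lab (tyDataP H) i where
  T := Quotient (patSetoid S hS)
  finT := Fintype.ofFinite _
  decT := Classical.decEq _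
  Pure τ a := ∀ x, Quotient.mk (patSetoid S hS) (pat S a x) = τ
  pure_sum := by
    rintro τ ι _ _ f - h ⟨k, x⟩
    rw [← h k x]
    congr 1
    funext s
    simp only [pat, blockDiagonal'_apply_eq]
  prop := by
    intro τ a b ha hb pa pb L
    obtain ⟨c, hc⟩ := pure_count S hS ha τ pa
    obtain ⟨d, hd⟩ := pure_count S hS hb τ pb
    have a1 := hc fun A => ∀ g, A ⟨i g, hi g⟩ ↔ L g
    have a2 := hc fun _ => True
    have b1 := hd fun A => ∀ g, A ⟨i g, hi g⟩ ↔ L g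
    have b2 := hd fun _ => True
    rw [nc_true] at a2 b2
    change ((nc fun x => ∀ g, pat S a x ⟨i g, hi g⟩ ↔ L g : ℕ) : ℤ) * (Fintype.card b.X : ℕ) =
      ((nc fun x => ∀ g, pat S b x ⟨i g, hi g⟩ ↔ L g : ℕ) : ℤ) * (Fintype.card a.X : ℕ)
    rw [a1, a2, b1, b2]
    push_cast; ring
  dec := by
    intro b hb
    let _ : Fintype (Quotient (patSetoid S hS)) := Fintype.ofFinite _
    let _ : DecidableEq (Quotient (patSetoid S hS)) := Classical.decEq _
    obtain ⟨π, hπ⟩ := hom_perm hb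
    let lab : b.X → Quotient (patSetoid S hS) := fun x => Quotient.mk _ (pat S b x)
    have hinv : ∀ τ g x, lab (π g x) = τ ↔ lab x = τ := fun τ g x => by
      have : lab x = lab (π g x) := Quotient.sound ⟨g, pat_move S hS hπ g x⟩
      rw [this]
    refine ⟨fun τ => pobj (subPerm π (fun x => lab x = τ) (hinv τ)),
      fun τ => ⟨hom_pobj _, fun x => ?_⟩, iso_fiber hπ lab hinv⟩
    refine Eq.trans ?_ x.2
    simp only [lab]
    congr 1
    funext s
    simp only [pat, diag_one_iff (hπ _), emb_eq_one]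
    rw [Subtype.ext_iff, subPerm_val, eq_comm (a := x.1)]
  S := S
  c := 1
  sep := by
    intro τ τ' hne a b ha hb pa pb R hR
    obtain ⟨π, hπ⟩ := hom_perm ha
    obtain ⟨π', hπ'⟩ := hom_perm hb
    have h1 := (IsPP.card_badY hR S π π').trans (sq_sum_le _ _ _ (norm_nonneg _)
      fun _ => norm_nonneg _)
    simp only [hπ, hπ', one_mul]
    refine le_trans ?_ h1
    rw [Obj.dim, ← nc_true]
    refine Nat.cast_le.2 (nc_mono ?_)
    rintro y - ⟨x, h2, h3⟩
    apply hne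
    rw [← pa x, ← pb y]
    congr 1
    funext s
    simp only [pat, diag_one_iff (hπ _), diag_one_iff (hπ' _)]
    have h4 := h3 s s.2
    exact propext ⟨fun h5 => hR.2.2 _ _ x (h5 ▸ h4) h2, fun h5 => hR.2.1 y _ _ (h5 ▸ h4) h2⟩

end lab

/-- action on functions -/
def fnPerm {Γ Ω : Type} [Group Γ] (π : Γ →* Perm Ω) (V : Type) : Γ →* Perm (Ω → V) :=
  MonoidHom.mk' (fun g => Equiv.arrowCongr (π g) (Equiv.refl V)) fun g k => by
    ext f ω; simp [Perm.mul_def]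

lemma fnPerm_apply {Γ Ω : Type} [Group Γ] (π : Γ →* Perm Ω) (V : Type) (g : Γ) (f : Ω → V)
    (ω : Ω) : fnPerm π V g f ω = f (π g⁻¹ ω) := by
  rw [map_inv]; rfl

/-- `i` stays injective in a finite quotient -/
def Sep {H Γ : Type} [Group H] [Group Γ] (i : H →* Γ) : Prop :=
  ∃ N : Subgroup Γ, N.Normal ∧ N.FiniteIndex ∧ ∀ h, i h ∈ N → h = 1

lemma cnt_free {H X : Type} [Group H] [Fintype X] (π : H →* Perm X)
    (h : ∀ g x, π g x = x → g = 1) (L : H → Prop) :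
    cnt π L = nc fun _ : X => ∀ g, g = 1 ↔ L g := by
  unfold cnt
  congr 1
  funext x
  refine propext (forall_congr' fun g => iff_congr ⟨h g x, ?_⟩ Iff.rfl)
  rintro rfl; simp

theorem extP {H G₁ G₂ : Type} [Group H] [Fintype H] [Group G₁] [Group G₂] {i₁ : H →* G₁}
    {i₂ : H →* G₂} (s₁ : Sep i₁) (s₂ : Sep i₂) : Ext (tyDataP H) i₁ i₂ := by
  intro a ha
  classical
  obtain ⟨π, hπ⟩ := hom_perm ha
  obtain ⟨N₀, n1, n2, n3⟩ := s₁
  obtain ⟨N₂, m1, m2, m3⟩ := s₂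
  let N₁ := N₀ ⊓ π.ker
  have : N₁.Normal := inferInstance
  have : N₁.FiniteIndex := inferInstance
  let _ : Fintype (G₁ ⧸ N₁) := Fintype.ofFinite _
  let _ : Fintype (G₂ ⧸ N₂) := Fintype.ofFinite _
  let Ω := (G₁ ⧸ N₁) × (G₂ ⧸ N₂)
  let p₁ : G₁ →* Perm Ω := MonoidHom.mk'
    (fun g => Equiv.prodCongr (Equiv.mulLeft (g : G₁ ⧸ N₁)) (Equiv.refl _)) fun g k => by
      ext ω <;> simp [mul_assoc]
  let p₂ : G₂ →* Perm Ω := MonoidHom.mk'
    (fun g => Equiv.prodCongr (Equiv.refl _) (Equiv.mulLeft (g : G₂ ⧸ N₂))) fun g k => by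
      ext ω <;> simp [mul_assoc]
  have q₁ : ∀ g (ω : Ω), p₁ g ω = ((g : G₁ ⧸ N₁) * ω.1, ω.2) := fun g ω => rfl
  have q₂ : ∀ g (ω : Ω), p₂ g ω = (ω.1, (g : G₂ ⧸ N₂) * ω.2) := fun g ω => rfl
  obtain ⟨e, he, -⟩ := EPB.extend (π := p₁.comp i₁) (π' := p₂.comp i₂) rfl (fun L => by
    rw [cnt_free, cnt_free]
    · intro g ω h
      have h1 : ((i₂ g : G₂) : G₂ ⧸ N₂) * ω.2 = ω.2 := congrArg Prod.snd h
      exact m3 g ((QuotientGroup.eq_one_iff _).1 (mul_eq_right.1 h1))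
    · intro g ω h
      have h1 : ((i₁ g : G₁) : G₁ ⧸ N₁) * ω.1 = ω.1 := congrArg Prod.fst h
      exact n3 g ((QuotientGroup.eq_one_iff _).1 (mul_eq_right.1 h1)).1) _ (fun _ _ => False)
    ⟨fun _ _ _ h => h.elim, fun _ _ _ h => h.elim, fun _ _ _ h => h.elim⟩ le_rfl
  let πq : G₁ ⧸ N₁ →* Perm a.X := QuotientGroup.lift N₁ π fun g hg => hg.2
  let j : a.X → (Ω → a.X) := fun x ω => πq ω.1⁻¹ x
  have jinj : Function.Injective j := fun x y h => by
    simpa [j] using congrFun h (1, 1)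
  have jeq : ∀ g x, fnPerm p₁ a.X g (j x) = j (π g x) := fun g x => by
    funext ω
    rw [fnPerm_apply, q₁]
    have : πq (g : G₁ ⧸ N₁) = π g := rfl
    simp only [j, QuotientGroup.mk_inv, _root_.mul_inv_rev, inv_inv, map_mul, this, Perm.mul_apply]
  have hinv : ∀ g f, fnPerm p₁ a.X g f ∉ Set.range j ↔ f ∉ Set.range j := fun g f => by
    refine not_congr ⟨?_, ?_⟩
    · rintro ⟨x, hx⟩
      exact ⟨π g⁻¹ x, by rw [← jeq, hx]; simp⟩
    · rintro ⟨x, rfl⟩
      exact ⟨π g x, (jeq g x).symm⟩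
  have key : ∀ L : H → Prop, cnt (π.comp i₁) L +
      cnt ((subPerm (fnPerm p₁ a.X) (fun f => f ∉ Set.range j) hinv).comp i₁) L =
      cnt ((fnPerm p₂ a.X).comp i₂) L := by
    intro L
    have e1 : cnt ((fnPerm p₁ a.X).comp i₁) L = cnt ((fnPerm p₂ a.X).comp i₂) L := by
      have k1 : ∀ (f : Ω → a.X) g, fnPerm p₁ a.X (i₁ g) (f ∘ e) = (f ∘ e) ↔
          fnPerm p₂ a.X (i₂ g) f = f := by
        intro f g
        have : fnPerm p₁ a.X (i₁ g) (f ∘ e) = fnPerm p₂ a.X (i₂ g) f ∘ e := by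
          funext ω
          have := he g⁻¹ ω
          simp only [MonoidHom.comp_apply, map_inv i₁, map_inv i₂] at this
          simp only [fnPerm_apply, Function.comp_apply, this]
        rw [this]
        exact e.surjective.right_cancellable
      refine nc_rel (fun f f' => f = f' ∘ e) (fun f hf => ⟨f ∘ e.symm, fun g => ?_, ?_⟩)
        (fun f hf => ⟨f ∘ e, fun g => (k1 f g).trans (hf g), rfl⟩)
        (fun _ _ _ h1 h2 => h1.trans h2.symm)
        fun _ _ _ h1 h2 => e.surjective.right_cancellable.1 (h1.symm.trans h2)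
      · refine (k1 _ g).symm.trans ?_
        have : (f ∘ e.symm) ∘ e = f := by funext ω; simp
        rw [this]; exact hf g
      · funext ω; simp
    rw [← e1, cnt_split ((fnPerm p₁ a.X).comp i₁) L (fun f => f ∈ Set.range j)]
    congr 1
    · refine nc_rel (fun x f => f = j x) (fun x hx => ⟨j x, ⟨fun g => ?_, x, rfl⟩, rfl⟩) ?_
        (fun _ _ _ h1 h2 => jinj (h1.symm.trans h2)) fun _ _ _ h1 h2 => h1.trans h2.symm
      · rw [MonoidHom.comp_apply, jeq, jinj.eq_iff]; exact hx g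
      · rintro _ ⟨h1, x, rfl⟩
        refine ⟨x, fun g => ?_, rfl⟩
        have := h1 g
        rwa [MonoidHom.comp_apply, jeq, jinj.eq_iff] at this
    · refine nc_rel (fun x f => f = x.1) (fun x hx => ⟨x.1, ⟨fun g => ?_, x.2⟩, rfl⟩) ?_
        (fun _ _ _ h1 h2 => Subtype.ext (h1.symm.trans h2)) fun _ _ _ h1 h2 => h1.trans h2.symm
      · have := hx g
        rw [Subtype.ext_iff] at this
        exact this
      · rintro f ⟨h1, h2⟩
        exact ⟨⟨f, h2⟩, fun g => Iff.trans (Subtype.ext_iff) (h1 g), rfl⟩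
  refine ⟨pobj (subPerm (fnPerm p₁ a.X) (fun f => f ∉ Set.range j) hinv), pobj (fnPerm p₂ a.X),
    hom_pobj _, hom_pobj _, ?_, fun L => ?_⟩
  · unfold Obj.dim
    rw [Fintype.card_subtype_compl, Set.card_range_of_injective jinj]
    have := Fintype.card_le_of_injective j jinj
    change _ = Fintype.card (Ω → a.X)
    omega
  · change tyP _ L + tyP _ L = tyP _ L
    rw [tyP_eq (H := H) (a := res i₁ a) (π := π.comp i₁) fun g => hπ _,
      tyP_eq (H := H) (a := res i₁ (pobj (subPerm (fnPerm p₁ a.X) (fun f => f ∉ Set.range j) hinv)))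
        (π := (subPerm (fnPerm p₁ a.X) (fun f => f ∉ Set.range j) hinv).comp i₁) fun g => rfl,
      tyP_eq (H := H) (a := res i₂ (pobj (fnPerm p₂ a.X))) (π := (fnPerm p₂ a.X).comp i₂)
        fun g => rfl]
    exact_mod_cast key L

end Pool.Agent.H845Z.St
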