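import Pool.Agent.H845Z.St.Cls

/-!
Resizing, stability along arbitrary scales, and gluing over an amalgam.
-/

set_option autoImplicit false

namespace Pool.Agent.H845Z.St

open Matrix Finset Filter Asymptotics Obj
open scoped Matrix.Norms.Frobenius

variable {C : Cls} {Γ : Type}

lemma exists_match (C : Cls) (X Y : Type) [Fintype X] [Fintype Y] [DecidableEq X]
    [DecidableEq Y] : ∃ T : Matrix Y X ℂ, C.mor T ∧
      ‖1 - Tᴴ * T‖ ^ 2 ≤ |(Fintype.card Y : ℝ) - Fintype.card X| ∧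
      ‖1 - T * Tᴴ‖ ^ 2 ≤ |(Fintype.card Y : ℝ) - Fintype.card X| := by
  rcases le_total (Fintype.card X) (Fintype.card Y) with h | h
  · obtain ⟨f⟩ := Function.Embedding.nonempty_of_card_le h
    refine ⟨emb f, C.emb f.injective, ?_, ?_⟩
    · rw [emb_adj_emb f.injective]; simp
    · rw [norm_one_sub_isometry (emb_adj_emb f.injective)]; exact le_abs_self _
  · obtain ⟨f⟩ := Function.Embedding.nonempty_of_card_le h
    refine ⟨(emb f)ᴴ, C.adj (C.emb f.injective), ?_, ?_⟩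
    · rw [conjTranspose_conjTranspose, norm_one_sub_isometry (emb_adj_emb f.injective),
        abs_sub_comm]
      exact le_abs_self _
    · rw [conjTranspose_conjTranspose, emb_adj_emb f.injective]; simp

/-- object on `Fin k` -/
@[reducible] def finObj (k : ℕ) (φ : Γ → Matrix (Fin k) (Fin k) ℂ) : Obj Γ where
  X := Fin k
  ρ := φ

lemma transfer {a : Obj Γ} (ha : a.InA C) {Y : Type} [Fintype Y] [DecidableEq Y]
    {T : Matrix Y a.X ℂ} (hT : C.mor T) (g : Γ) :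
    ∃ U : Matrix Y Y ℂ, (C.mor U ∧ Uᴴ * U = 1 ∧ U * Uᴴ = 1) ∧
      ‖U * T - T * a.ρ g‖ ≤ ‖1 - T * Tᴴ‖ + ‖1 - Tᴴ * T‖ + ‖1 - Tᴴ * T‖ := by
  have hM : C.mor (T * a.ρ g * Tᴴ) := C.mul (C.mul hT (ha g).1) (C.adj hT)
  obtain ⟨U, h1, h2, h3, h4⟩ := C.cpl hM rfl
  refine ⟨U, ⟨h1, h2, h3⟩, ?_⟩
  have e1 : 1 - (T * a.ρ g * Tᴴ)ᴴ * (T * a.ρ g * Tᴴ) =
      (1 - T * Tᴴ) + T * ((a.ρ g)ᴴ * (((1 - Tᴴ * T) * a.ρ g) * Tᴴ)) := by
    have : T * Tᴴ = T * ((a.ρ g)ᴴ * a.ρ g) * Tᴴ := by rw [(ha g).2.1, Matrix.mul_one]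
    simp only [conjTranspose_mul, conjTranspose_conjTranspose, Matrix.sub_mul, Matrix.mul_sub,
      Matrix.one_mul]
    rw [this]
    simp only [Matrix.mul_assoc]
    abel
  have b1 : ‖U - T * a.ρ g * Tᴴ‖ ≤ ‖1 - T * Tᴴ‖ + ‖1 - Tᴴ * T‖ := by
    refine h4.trans ?_
    rw [e1]
    refine (norm_add_le _ _).trans (add_le_add le_rfl ?_)
    exact (C.left hT _).trans ((C.left (C.adj (ha g).1) _).trans
      ((C.right (C.adj hT) _).trans (C.right (ha g).1 _)))
  have e2 : U * T - T * a.ρ g = (U - T * a.ρ g * Tᴴ) * T - T * (a.ρ g * (1 - Tᴴ * T)) := by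
    simp only [Matrix.sub_mul, Matrix.mul_sub, Matrix.mul_one, Matrix.mul_assoc]
    abel
  rw [e2]
  refine (norm_sub_le _ _).trans (add_le_add ((C.right hT _).trans b1) ?_)
  exact (C.left hT _).trans (C.left (ha g).1 _)

lemma resize {r : ℕ → ℝ} {a : ℕ → Obj Γ} (ha : ∀ n, (a n).InA C) (s : ℕ → ℕ)
    (hs : (fun n => (s n : ℝ) - (a n).dim) =o[atTop] fun n => r n ^ 2) :
    ∃ φ : ∀ n, Γ → Matrix (Fin (s n)) (Fin (s n)) ℂ,
      (∀ n, (finObj (s n) (φ n)).InA C) ∧ Close C r a (fun n => finObj (s n) (φ n)) := by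
  choose T h1 h2 h3 using fun n => exists_match C (a n).X (Fin (s n))
  choose U hU hb using fun n g => transfer (ha n) (h1 n) g
  have k2 : (fun n => ‖1 - (T n)ᴴ * T n‖) =o[atTop] r := by
    apply lo_of_sq
    refine lo_of_le hs.abs_left (fun n => by positivity) fun n => ?_
    simpa [Obj.dim] using h2 n
  have k3 : (fun n => ‖1 - T n * (T n)ᴴ‖) =o[atTop] r := by
    apply lo_of_sq
    refine lo_of_le hs.abs_left (fun n => by positivity) fun n => ?_
    simpa [Obj.dim] using h3 n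
  refine ⟨U, fun n g => hU n g, T, h1, k2, k3, fun g => ?_⟩
  exact lo_of_le ((k3.add k2).add k2) (fun n => norm_nonneg _) fun n => hb n g

/-- asymptotic multiplicativity -/
def AM [Group Γ] (r : ℕ → ℝ) (b : ℕ → Obj Γ) : Prop :=
  ∀ g h, (fun n => ‖(b n).ρ g * (b n).ρ h - (b n).ρ (g * h)‖) =o[atTop] r

lemma Close.am [Group Γ] {r : ℕ → ℝ} {a b : ℕ → Obj Γ} (h : Close C r a b)
    (ha : ∀ n, (a n).Hom C) (hb : ∀ n, (b n).InA C) : AM r b := by
  obtain ⟨T, h1, -, h3, h4⟩ := h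
  intro g k
  refine lo_of_le ((h3.add h3).add (((h4 k).add (h4 g)).add (h4 (g * k))))
    (fun n => norm_nonneg _) fun n => ?_
  set M := (b n).ρ g * (b n).ρ k - (b n).ρ (g * k) with hM
  have e1 : M = M * (1 - T n * (T n)ᴴ) + (M * T n) * (T n)ᴴ := by
    simp only [Matrix.mul_sub, Matrix.mul_one, Matrix.mul_assoc]; abel
  have e2 : M * T n = (b n).ρ g * ((b n).ρ k * T n - T n * (a n).ρ k) +
      ((b n).ρ g * T n - T n * (a n).ρ g) * (a n).ρ k -
      ((b n).ρ (g * k) * T n - T n * (a n).ρ (g * k)) := by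
    rw [hM, (ha n).2]
    simp only [Matrix.mul_sub, Matrix.sub_mul, Matrix.mul_assoc]; abel
  rw [e1]
  refine (norm_add_le _ _).trans (add_le_add ?_ ((C.right (C.adj (h1 n)) _).trans ?_))
  · rw [hM, Matrix.sub_mul, Matrix.mul_assoc]
    exact (norm_sub_le _ _).trans (add_le_add
      ((C.left (hb n g).1 _).trans (C.left (hb n k).1 _)) (C.left (hb n _).1 _))
  · rw [e2]
    refine (norm_sub_le _ _).trans (add_le_add ((norm_add_le _ _).trans ?_) le_rfl)
    exact add_le_add (C.left (hb n g).1 _) (C.right ((ha n).1 k).1 _)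

lemma hom_conj [Group Γ] {b : Obj Γ} (hb : b.Hom C) {X : Type} [Fintype X] [DecidableEq X]
    {U : Matrix b.X X ℂ} (h1 : C.mor U) (h2 : Uᴴ * U = 1) (h3 : U * Uᴴ = 1) :
    Obj.Hom C ({ X := X, ρ := fun g => Uᴴ * b.ρ g * U } : Obj Γ) := by
  refine ⟨fun g => ⟨C.mul (C.mul (C.adj h1) (hb.1 g).1) h1, ?_, ?_⟩, fun g k => ?_⟩
  · change (Uᴴ * b.ρ g * U)ᴴ * (Uᴴ * b.ρ g * U) = 1
    simp only [conjTranspose_mul, conjTranspose_conjTranspose]
    calc Uᴴ * ((b.ρ g)ᴴ * U) * (Uᴴ * b.ρ g * U)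
        = Uᴴ * ((b.ρ g)ᴴ * (U * Uᴴ) * b.ρ g) * U := by simp only [Matrix.mul_assoc]
      _ = 1 := by rw [h3, Matrix.mul_one, (hb.1 g).2.1, Matrix.mul_one, h2]
  · change (Uᴴ * b.ρ g * U) * (Uᴴ * b.ρ g * U)ᴴ = 1
    simp only [conjTranspose_mul, conjTranspose_conjTranspose]
    calc Uᴴ * b.ρ g * U * (Uᴴ * ((b.ρ g)ᴴ * U))
        = Uᴴ * (b.ρ g * (U * Uᴴ) * (b.ρ g)ᴴ) * U := by simp only [Matrix.mul_assoc]
      _ = 1 := by rw [h3, Matrix.mul_one, (hb.1 g).2.2, Matrix.mul_one, h2]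
  · change Uᴴ * b.ρ (g * k) * U = (Uᴴ * b.ρ g * U) * (Uᴴ * b.ρ k * U)
    calc Uᴴ * b.ρ (g * k) * U = Uᴴ * (b.ρ g * (U * Uᴴ) * b.ρ k) * U := by
          rw [h3, Matrix.mul_one, hb.2]
      _ = _ := by simp only [Matrix.mul_assoc]

/-- If the dimensions agree, closeness to homomorphisms gives nearby homomorphisms on the same
space. -/
lemma Close.near [Group Γ] {r : ℕ → ℝ} {a b : ℕ → Obj Γ} (h : Close C r a b)
    (ha : ∀ n, (a n).InA C) (hb : ∀ n, (b n).Hom C)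
    (hd : ∀ᶠ n in atTop, (a n).dim = (b n).dim) :
    ∃ ψ : ∀ n, Γ → Matrix (a n).X (a n).X ℂ, (∀ n, ((a n).re (ψ n)).Hom C) ∧
      ∀ g, (fun n => ‖(a n).ρ g - ψ n g‖) =o[atTop] r := by
  classical
  obtain ⟨T, h1, h2, -, h4⟩ := h
  have key : ∀ n, ∃ ψ : Γ → Matrix (a n).X (a n).X ℂ, ((a n).re ψ).Hom C ∧
      ((a n).dim = (b n).dim → ∀ g, ‖(a n).ρ g - ψ g‖ ≤
        ‖(b n).ρ g * T n - T n * (a n).ρ g‖ + (‖1 - (T n)ᴴ * T n‖ + ‖1 - (T n)ᴴ * T n‖)) := by
    intro n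
    by_cases hn : (a n).dim = (b n).dim
    · obtain ⟨U, u1, u2, u3, u4⟩ := C.cpl (h1 n) hn
      refine ⟨fun g => Uᴴ * (b n).ρ g * U, hom_conj (hb n) u1 u2 u3, fun _ g => ?_⟩
      rw [← norm_isometry_mul u2]
      have : U * ((a n).ρ g - Uᴴ * (b n).ρ g * U) = -((b n).ρ g * T n - T n * (a n).ρ g) +
          ((U - T n) * (a n).ρ g - (b n).ρ g * (U - T n)) := by
        rw [Matrix.mul_sub, ← Matrix.mul_assoc, ← Matrix.mul_assoc, u3, Matrix.one_mul]
        simp only [Matrix.mul_sub, Matrix.sub_mul]; abel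
      rw [this]
      refine (norm_add_le _ _).trans (add_le_add (by rw [norm_neg]) ?_)
      exact (norm_sub_le _ _).trans (add_le_add ((C.right (ha n g).1 _).trans u4)
        ((C.left ((hb n).1 g).1 _).trans u4))
    · exact ⟨fun _ => 1, hom_triv (C := C) (Γ := Γ) (a n).X, fun h => absurd h hn⟩
  choose ψ hψ hb' using key
  refine ⟨ψ, hψ, fun g => ?_⟩
  refine IsBigO.trans_isLittleO (IsBigO.of_bound' ?_) ((h4 g).add (h2.add h2))
  filter_upwards [hd] with n hn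
  rw [norm_norm]
  exact (hb' n hn g).trans (le_abs_self _)

/-- Stability, matrix form. -/
def StabM (C : Cls) (Γ : Type) [Group Γ] : Prop :=
  ∀ (k : ℕ → ℕ) (_ : ∀ n, 0 < k n) (φ : ∀ n, Γ → Matrix (Fin (k n)) (Fin (k n)) ℂ),
    (∀ n, (finObj (k n) (φ n)).InA C) → AM (fun n => √(k n)) (fun n => finObj (k n) (φ n)) →
    ∃ ψ : ∀ n, Γ → Matrix (Fin (k n)) (Fin (k n)) ℂ, (∀ n, (finObj (k n) (ψ n)).Hom C) ∧
      ∀ g, (fun n => ‖φ n g - ψ n g‖) =o[atTop] fun n => √(k n)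

/-- Flexible stability, sequential matrix form. -/
def FlexM (C : Cls) (Γ : Type) [Group Γ] : Prop :=
  ∀ (k : ℕ → ℕ) (_ : ∀ n, 0 < k n) (φ : ∀ n, Γ → Matrix (Fin (k n)) (Fin (k n)) ℂ),
    (∀ n, (finObj (k n) (φ n)).InA C) → AM (fun n => √(k n)) (fun n => finObj (k n) (φ n)) →
    ∃ b : ℕ → Obj Γ, (∀ n, (b n).Hom C) ∧
      Close C (fun n => √(k n)) (fun n => finObj (k n) (φ n)) b

lemma StabM.flex [Group Γ] (h : StabM C Γ) : FlexM C Γ := by
  intro k hk φ h1 h2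
  obtain ⟨ψ, h3, h4⟩ := h k hk φ h1 h2
  exact ⟨fun n => finObj (k n) (ψ n), h3, close_of_near (a := fun n => finObj (k n) (φ n)) ψ h4⟩

lemma norm_sub_one_le {a : Obj Γ} (ha : a.InA C) (g : Γ) : ‖a.ρ g - 1‖ ≤ 2 * √(a.dim) := by
  have h1 := (C.ctr (ha g).1).norm_le
  have h2 := norm_one_eq (X := a.X)
  have h3 := norm_sub_le (a.ρ g) 1
  unfold Obj.dim
  linarith

lemma StabM.gen [Group Γ] [Countable Γ] (hs : StabM C Γ) {r : ℕ → ℝ} {b : ℕ → Obj Γ}
    (hb : ∀ n, (b n).InA C) (hm : AM r b)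
    (hd : (fun n => ((b n).dim : ℝ)) =O[atTop] fun n => r n ^ 2) :
    ∃ ψ : ∀ n, Γ → Matrix (b n).X (b n).X ℂ, (∀ n, ((b n).re (ψ n)).Hom C) ∧
      ∀ g, (fun n => ‖(b n).ρ g - ψ n g‖) =o[atTop] r := by
  have : ∀ n, Nonempty {ψ : Γ → Matrix (b n).X (b n).X ℂ // ((b n).re ψ).Hom C} :=
    fun n => ⟨⟨fun _ => 1, hom_triv (C := C) (Γ := Γ) (b n).X⟩⟩
  obtain ⟨ψ, -, hψ⟩ := approx_choice
    (fun n => {ψ : Γ → Matrix (b n).X (b n).X ℂ // ((b n).re ψ).Hom C}) (fun _ _ => True)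
    (fun n ψ g => ‖(b n).ρ g - ψ.1 g‖) r (by
      intro F ε hε
      apply ev_of_subseq
      intro ns hns hbad
      have hbig : ∀ m, ε * ‖r (ns m)‖ < 2 * √((b (ns m)).dim) := by
        intro m
        by_contra hc
        apply hbad m
        refine ⟨⟨fun _ => 1, hom_triv (C := C) (Γ := Γ) (b (ns m)).X⟩, trivial, fun g _ => ?_⟩
        rw [norm_norm]
        exact (norm_sub_one_le (hb _) g).trans (not_lt.mp hc)
      have hpos : ∀ m, 0 < (b (ns m)).dim := by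
        intro m
        rcases Nat.eq_zero_or_pos (b (ns m)).dim with h0 | h0
        · have := hbig m
          rw [h0] at this
          simp only [CharP.cast_eq_zero, Real.sqrt_zero, mul_zero] at this
          exact absurd this (not_lt.mpr (by positivity))
        · exact h0
      let e : ∀ m, Fin (b (ns m)).dim ≃ (b (ns m)).X := fun m => (Fintype.equivFin _).symm
      let U : ∀ m, Matrix (b (ns m)).X (Fin (b (ns m)).dim) ℂ := fun m => emb (e m)
      have u1 : ∀ m, C.mor (U m) := fun m => C.emb (e m).injective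
      have u2 : ∀ m, (U m)ᴴ * U m = 1 := fun m => emb_adj_emb (e m).injective
      have u3 : ∀ m, U m * (U m)ᴴ = 1 := fun m => by
        have := emb_adj_emb (e m).symm.injective
        rw [← emb_equiv_adj, conjTranspose_conjTranspose] at this
        exact this
      have hr1 : (fun m => r (ns m)) =O[atTop] fun m => √((b (ns m)).dim) := by
        apply IsBigO.of_bound (2 / ε)
        refine Eventually.of_forall fun m => ?_
        rw [Real.norm_of_nonneg (Real.sqrt_nonneg _), div_mul_eq_mul_div, le_div_iff₀ hε]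
        linarith [hbig m]
      have hr2 : (fun m => √((b (ns m)).dim)) =O[atTop] fun m => r (ns m) := by
        apply IsBigO.of_pow two_ne_zero
        refine (hd.comp_tendsto hns.tendsto_atTop).congr_left fun m => ?_
        simp
      obtain ⟨ψ, hψ, hc⟩ := hs (fun m => (b (ns m)).dim) hpos
        (fun m g => (U m)ᴴ * (b (ns m)).ρ g * U m) (fun m g => by
          refine ⟨C.mul (C.mul (C.adj (u1 m)) (hb _ g).1) (u1 m), ?_, ?_⟩
          · change ((U m)ᴴ * (b (ns m)).ρ g * U m)ᴴ * ((U m)ᴴ * (b (ns m)).ρ g * U m) = 1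
            simp only [conjTranspose_mul, conjTranspose_conjTranspose]
            calc (U m)ᴴ * (((b (ns m)).ρ g)ᴴ * U m) * ((U m)ᴴ * (b (ns m)).ρ g * U m)
                = (U m)ᴴ * (((b (ns m)).ρ g)ᴴ * (U m * (U m)ᴴ) * (b (ns m)).ρ g) * U m := by
                  simp only [Matrix.mul_assoc]
              _ = 1 := by rw [u3, Matrix.mul_one, (hb _ g).2.1, Matrix.mul_one, u2]
          · change ((U m)ᴴ * (b (ns m)).ρ g * U m) * ((U m)ᴴ * (b (ns m)).ρ g * U m)ᴴ = 1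
            simp only [conjTranspose_mul, conjTranspose_conjTranspose]
            calc (U m)ᴴ * (b (ns m)).ρ g * U m * ((U m)ᴴ * (((b (ns m)).ρ g)ᴴ * U m))
                = (U m)ᴴ * ((b (ns m)).ρ g * (U m * (U m)ᴴ) * ((b (ns m)).ρ g)ᴴ) * U m := by
                  simp only [Matrix.mul_assoc]
              _ = 1 := by rw [u3, Matrix.mul_one, (hb _ g).2.2, Matrix.mul_one, u2])
        (fun g k => by
          refine lo_of_le (((hm g k).comp_tendsto hns.tendsto_atTop).trans_isBigO hr1)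
            (fun n => norm_nonneg _) fun m => ?_
          have : (U m)ᴴ * (b (ns m)).ρ g * U m * ((U m)ᴴ * (b (ns m)).ρ k * U m) -
              (U m)ᴴ * (b (ns m)).ρ (g * k) * U m =
              (U m)ᴴ * (((b (ns m)).ρ g * (b (ns m)).ρ k - (b (ns m)).ρ (g * k)) * U m) := by
            have h5 : (U m)ᴴ * (b (ns m)).ρ g * U m * ((U m)ᴴ * (b (ns m)).ρ k * U m) =
                (U m)ᴴ * ((b (ns m)).ρ g * (U m * (U m)ᴴ) * (b (ns m)).ρ k) * U m := by
              simp only [Matrix.mul_assoc]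
            rw [h5, u3, Matrix.mul_one]
            simp only [Matrix.mul_sub, Matrix.sub_mul, Matrix.mul_assoc]
          change ‖(U m)ᴴ * (b (ns m)).ρ g * U m * ((U m)ᴴ * (b (ns m)).ρ k * U m) -
              (U m)ᴴ * (b (ns m)).ρ (g * k) * U m‖ ≤ _
          rw [this]
          exact (C.left (C.adj (u1 m)) _).trans (C.right (u1 m) _))
      have hev : ∀ᶠ m in atTop, ∀ g ∈ F,
          ‖‖(U m)ᴴ * (b (ns m)).ρ g * U m - ψ m g‖‖ ≤ ε * ‖r (ns m)‖ := by
        rw [eventually_all_finset]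
        intro g _
        exact ((hc g).trans_isBigO hr2).bound hε
      obtain ⟨m, hm'⟩ := hev.exists
      apply hbad m
      have hh := hom_conj (hψ m) (X := (b (ns m)).X) (U := (U m)ᴴ) (C.adj (u1 m))
        (by rw [conjTranspose_conjTranspose]; exact u3 m)
        (by rw [conjTranspose_conjTranspose]; exact u2 m)
      refine ⟨⟨fun g => (U m)ᴴᴴ * ψ m g * (U m)ᴴ, hh⟩, trivial, fun g hg => ?_⟩
      refine le_trans ?_ (hm' g hg)
      rw [norm_norm, norm_norm]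
      have : (b (ns m)).ρ g - (U m)ᴴᴴ * ψ m g * (U m)ᴴ =
          U m * (((U m)ᴴ * (b (ns m)).ρ g * U m - ψ m g) * (U m)ᴴ) := by
        have h5 : U m * ((U m)ᴴ * (b (ns m)).ρ g * U m * (U m)ᴴ) =
            (U m * (U m)ᴴ) * (b (ns m)).ρ g * (U m * (U m)ᴴ) := by simp only [Matrix.mul_assoc]
        rw [Matrix.sub_mul, Matrix.mul_sub, h5, u3, conjTranspose_conjTranspose, Matrix.one_mul,
          Matrix.mul_one, Matrix.mul_assoc]
      change ‖(b (ns m)).ρ g - (U m)ᴴᴴ * ψ m g * (U m)ᴴ‖ ≤ _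
      rw [this]
      exact (C.left (u1 m) _).trans (C.right (C.adj (u1 m)) _))
  exact ⟨fun n => (ψ n).1, fun n => (ψ n).2, hψ⟩

end Pool.Agent.H845Z.St
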