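import Pool.Agent.H845Z.St.Main

/-!
Spectral tools: functional calculus, polar decomposition, extension of partial intertwiners.
-/

set_option autoImplicit false

namespace Pool.Agent.H845Z.St

open Matrix Finset Obj
open scoped Matrix.Norms.Frobenius

variable {X Y : Type} [Fintype X] [Fintype Y] [DecidableEq X] [DecidableEq Y]

/-- diagonalisation data -/
structure Spec (A : Matrix X X ℂ) where
  V : Matrix X X ℂ
  d : X → ℝ
  u1 : Vᴴ * V = 1
  u2 : V * Vᴴ = 1
  eq : A = V * diagonal (fun i => (d i : ℂ)) * Vᴴ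

lemma exists_spec {A : Matrix X X ℂ} (h : Aᴴ = A) : Nonempty (Spec A) := by
  have hA : A.IsHermitian := h
  refine ⟨⟨hA.eigenvectorUnitary, hA.eigenvalues, ?_, ?_, ?_⟩⟩
  · exact hA.eigenvectorUnitary.2.1
  · exact hA.eigenvectorUnitary.2.2
  · exact hA.spectral_theorem

namespace Spec

variable {A : Matrix X X ℂ} (s : Spec A)

/-- functional calculus -/
def fc (f : ℝ → ℝ) : Matrix X X ℂ := s.V * diagonal (fun i => ((f (s.d i) : ℝ) : ℂ)) * s.Vᴴ

lemma fc_id : s.fc (fun t => t) = A := s.eq.symm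

lemma mul_V : A * s.V = s.V * diagonal (fun i => (s.d i : ℂ)) :=
  (congrArg (· * s.V) s.eq).trans (by rw [Matrix.mul_assoc, s.u1, Matrix.mul_one])

lemma V_mul : s.Vᴴ * A = diagonal (fun i => (s.d i : ℂ)) * s.Vᴴ :=
  (congrArg (s.Vᴴ * ·) s.eq).trans (by
    rw [← Matrix.mul_assoc, ← Matrix.mul_assoc, s.u1, Matrix.one_mul])

lemma fc_mul (f g : ℝ → ℝ) : s.fc f * s.fc g = s.fc fun t => f t * g t := by
  unfold fc
  calc _ = s.V * (diagonal (fun i => ((f (s.d i) : ℝ) : ℂ)) * (s.Vᴴ * s.V) *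
        diagonal (fun i => ((g (s.d i) : ℝ) : ℂ))) * s.Vᴴ := by simp only [Matrix.mul_assoc]
    _ = _ := by rw [s.u1, Matrix.mul_one, diagonal_mul_diagonal]; simp

lemma fc_adj (f : ℝ → ℝ) : (s.fc f)ᴴ = s.fc f := by
  unfold fc
  rw [conjTranspose_mul, conjTranspose_mul, conjTranspose_conjTranspose, diagonal_conjTranspose,
    Matrix.mul_assoc]
  congr 3
  funext i; simp

lemma fc_congr {f g : ℝ → ℝ} (h : ∀ i, f (s.d i) = g (s.d i)) : s.fc f = s.fc g := by
  unfold fc; simp only [h]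

lemma fc_one : s.fc (fun _ => 1) = 1 := by
  unfold fc; simp [s.u2]

lemma fc_zero : s.fc (fun _ => 0) = 0 := by
  unfold fc; simp

lemma fc_sub (f g : ℝ → ℝ) : s.fc f - s.fc g = s.fc fun t => f t - g t := by
  unfold fc
  rw [← Matrix.sub_mul, ← Matrix.mul_sub, diagonal_sub]; simp

lemma fc_smul (c : ℝ) (f : ℝ → ℝ) : (c : ℂ) • s.fc f = s.fc fun t => c * f t := by
  unfold fc
  rw [← Matrix.smul_mul, ← Matrix.mul_smul, ← diagonal_smul]
  congr 3
  funext i; simp

lemma fc_sum {ι : Type} [Fintype ι] (f : ι → ℝ → ℝ) :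
    ∑ k, s.fc (f k) = s.fc fun t => ∑ k, f k t := by
  unfold fc
  rw [← Matrix.sum_mul, ← Matrix.mul_sum]
  congr 2
  ext i j
  by_cases h : i = j
  · subst h; simp [Matrix.sum_apply]
  · simp [Matrix.sum_apply, h]

lemma trace_fc (f : ℝ → ℝ) : trace (s.fc f) = ((∑ i, f (s.d i) : ℝ) : ℂ) := by
  unfold fc
  rw [trace_mul_comm, ← Matrix.mul_assoc, s.u1, Matrix.one_mul, trace_diagonal]; simp

lemma fc_comm {B : Matrix X X ℂ} (h : B * A = A * B) (f : ℝ → ℝ) : B * s.fc f = s.fc f * B := by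
  have h1 : (s.Vᴴ * B * s.V) * diagonal (fun i => (s.d i : ℂ)) =
      diagonal (fun i => (s.d i : ℂ)) * (s.Vᴴ * B * s.V) := by
    have h3 := s.mul_V
    have h4 := s.V_mul
    calc _ = s.Vᴴ * (B * (s.V * diagonal (fun i => (s.d i : ℂ)))) := by
          simp only [Matrix.mul_assoc]
      _ = s.Vᴴ * (B * A) * s.V := by rw [← h3]; simp only [Matrix.mul_assoc]
      _ = (s.Vᴴ * A) * B * s.V := by rw [h]; simp only [Matrix.mul_assoc]
      _ = _ := by rw [h4]; simp only [Matrix.mul_assoc]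
  have h5 : (s.Vᴴ * B * s.V) * diagonal (fun i => ((f (s.d i) : ℝ) : ℂ)) =
      diagonal (fun i => ((f (s.d i) : ℝ) : ℂ)) * (s.Vᴴ * B * s.V) := by
    ext i j
    have h6 := congrFun (congrFun h1 i) j
    rw [mul_diagonal, diagonal_mul] at h6 ⊢
    by_cases h7 : s.d i = s.d j
    · rw [h7, mul_comm]
    · have h8 : (s.Vᴴ * B * s.V) i j * ((s.d j : ℂ) - s.d i) = 0 := by
        rw [mul_sub, h6]; ring
      rcases mul_eq_zero.1 h8 with h9 | h9
      · rw [h9]; simp
      · exact absurd (by exact_mod_cast (sub_eq_zero.1 h9).symm) h7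
  unfold fc
  calc _ = (s.V * s.Vᴴ) * B * (s.V * diagonal (fun i => ((f (s.d i) : ℝ) : ℂ)) * s.Vᴴ) := by
        rw [s.u2, Matrix.one_mul]
    _ = s.V * ((s.Vᴴ * B * s.V) * diagonal (fun i => ((f (s.d i) : ℝ) : ℂ))) * s.Vᴴ := by
        simp only [Matrix.mul_assoc]
    _ = s.V * diagonal (fun i => ((f (s.d i) : ℝ) : ℂ)) * s.Vᴴ * B * (s.V * s.Vᴴ) := by
        rw [h5]; simp only [Matrix.mul_assoc]
    _ = _ := by rw [s.u2, Matrix.mul_one]

lemma root (p : Polynomial ℂ) (hp : Polynomial.aeval A p = 0) (i : X) :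
    p.eval (s.d i : ℂ) = 0 := by
  have h3 := s.mul_V
  have key : ∀ q : Polynomial ℂ, Polynomial.aeval A q * s.V =
      s.V * diagonal (fun i => q.eval (s.d i : ℂ)) := by
    intro q
    induction q using Polynomial.induction_on with
    | C a =>
      simp only [Polynomial.aeval_C, Polynomial.eval_C]
      rw [Algebra.algebraMap_eq_smul_one, Matrix.smul_mul, Matrix.one_mul]
      ext i j; simp [mul_diagonal, mul_comm]
    | add p q hp hq =>
      rw [map_add, Matrix.add_mul, hp, hq, ← Matrix.mul_add, diagonal_add]; simp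
    | monomial n a h =>
      rw [pow_succ, ← mul_assoc, map_mul, Polynomial.aeval_X, Matrix.mul_assoc, h3,
        ← Matrix.mul_assoc, h, Matrix.mul_assoc, diagonal_mul_diagonal]
      simp
  have h4 := key p
  rw [hp, Matrix.zero_mul] at h4
  have h5 : diagonal (fun i => p.eval (s.d i : ℂ)) = 0 := by
    calc _ = (s.Vᴴ * s.V) * diagonal (fun i => p.eval (s.d i : ℂ)) := by
          rw [s.u1, Matrix.one_mul]
      _ = 0 := by rw [Matrix.mul_assoc, ← h4, Matrix.mul_zero]
  simpa using congrFun (congrFun h5 i) i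

end Spec

omit [DecidableEq X] [DecidableEq Y] in
lemma eq_zero_of_trace {M : Matrix Y X ℂ} (h : trace (Mᴴ * M) = 0) : M = 0 := by
  have := norm_sq_trace M
  rw [h] at this
  simpa using this

/-- range of a projection -/
lemma exists_range {E : Matrix X X ℂ} (h1 : Eᴴ = E) (h2 : E * E = E) :
    ∃ (Z : Type) (_ : Fintype Z) (_ : DecidableEq Z) (J : Matrix X Z ℂ),
      Jᴴ * J = 1 ∧ J * Jᴴ = E := by
  classical
  obtain ⟨s⟩ := exists_spec h1
  have hd : ∀ i, s.d i = 0 ∨ s.d i = 1 := by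
    intro i
    have := s.root (Polynomial.X * (Polynomial.X - 1)) (by
      rw [map_mul, map_sub, Polynomial.aeval_X, map_one, mul_sub, h2, mul_one, sub_self]) i
    simp only [Polynomial.eval_mul, Polynomial.eval_X, Polynomial.eval_sub, Polynomial.eval_one,
      mul_eq_zero, sub_eq_zero] at this
    exact_mod_cast this
  let K : Matrix X {x // s.d x = 1} ℂ := emb Subtype.val
  let J : Matrix X {x // s.d x = 1} ℂ := s.V * K
  refine ⟨{x // s.d x = 1}, inferInstance, inferInstance, J, ?_, ?_⟩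
  · simp only [J]
    rw [conjTranspose_mul]
    calc _ = Kᴴ * (s.Vᴴ * s.V) * K := by simp only [Matrix.mul_assoc]
      _ = 1 := by rw [s.u1, Matrix.mul_one, emb_adj_emb Subtype.val_injective]
  · simp only [J]
    rw [conjTranspose_mul]
    have : K * Kᴴ = diagonal (fun i => (s.d i : ℂ)) := by
      ext i j
      rw [mul_apply]
      simp only [K, conjTranspose_apply, emb_apply]
      by_cases hi : s.d i = 1
      · rw [Finset.sum_eq_single ⟨i, hi⟩]
        · by_cases hij : i = j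
          · subst hij; simp [hi]
          · simp [hij, Ne.symm hij]
        · intro b _ hb
          rw [if_neg, zero_mul]
          intro h; exact hb (Subtype.ext h.symm)
        · simp
      · rw [Finset.sum_eq_zero]
        · rw [diagonal_apply, (hd i).resolve_right hi]; simp
        · intro b _
          rw [if_neg, zero_mul]
          intro h; exact hi (h ▸ b.2)
    refine Eq.trans ?_ s.eq.symm
    rw [← this]
    simp only [Matrix.mul_assoc]

lemma trace_proj_nat {E : Matrix X X ℂ} (h1 : Eᴴ = E) (h2 : E * E = E) :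
    ∃ n : ℕ, trace E = n := by
  obtain ⟨Z, _, _, J, j1, j2⟩ := exists_range h1 h2
  exact ⟨Fintype.card Z, by rw [← j2, trace_mul_comm, j1, trace_one]⟩

omit [DecidableEq Y] in
/-- polar decomposition, partial isometry form -/
lemma polar0 (T : Matrix Y X ℂ) : ∃ R : Matrix X X ℂ,
    (∀ B : Matrix X X ℂ, B * (Tᴴ * T) = (Tᴴ * T) * B → B * R = R * B) ∧
    ((T * R)ᴴ * (T * R)) * ((T * R)ᴴ * (T * R)) = (T * R)ᴴ * (T * R) ∧
    T * ((T * R)ᴴ * (T * R)) = T ∧
    ‖T * R - T‖ ^ 2 + (trace (1 - (T * R)ᴴ * (T * R))).re ≤ ‖1 - Tᴴ * T‖ ^ 2 := by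
  obtain ⟨s⟩ := exists_spec (A := Tᴴ * T) (by simp)
  have hd : ∀ i, 0 ≤ s.d i := by
    intro i
    have h1 : (T * s.V)ᴴ * (T * s.V) = diagonal (fun i => (s.d i : ℂ)) := by
      rw [conjTranspose_mul]
      calc _ = s.Vᴴ * (Tᴴ * T) * s.V := by simp only [Matrix.mul_assoc]
        _ = _ := by rw [s.V_mul, Matrix.mul_assoc, s.u1, Matrix.mul_one]
    have h2 := congrArg Complex.re (congrFun (congrFun h1 i) i)
    rw [diagonal_apply_eq, Complex.ofReal_re, mul_apply, Complex.re_sum] at h2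
    rw [← h2]
    refine Finset.sum_nonneg fun j _ => ?_
    rw [conjTranspose_apply, Complex.star_def, Complex.conj_mul']
    norm_cast
    positivity
  have sandwich : ∀ f : ℝ → ℝ, (T * s.fc f)ᴴ * (T * s.fc f) = s.fc fun t => f t * t * f t := by
    intro f
    rw [conjTranspose_mul, s.fc_adj, ← s.fc_mul, ← s.fc_mul, s.fc_id]
    simp only [Matrix.mul_assoc]
  have he : (T * s.fc fun t => (√t)⁻¹)ᴴ * (T * s.fc fun t => (√t)⁻¹) =
      s.fc fun t => if t = 0 then 0 else 1 := by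
    rw [sandwich]
    refine s.fc_congr fun i => ?_
    split_ifs with h
    · simp [h]
    · have h1 : √(s.d i) ≠ 0 := by
        rw [Ne, Real.sqrt_eq_zero (hd i)]; exact h
      have h2 := Real.mul_self_sqrt (hd i)
      field_simp
      linarith
  refine ⟨s.fc fun t => (√t)⁻¹, fun B hB => s.fc_comm hB _, ?_, ?_, ?_⟩
  · rw [he, s.fc_mul]
    exact s.fc_congr fun i => by split_ifs <;> simp
  · rw [he, ← sub_eq_zero]
    apply eq_zero_of_trace
    have : T * s.fc (fun t => if t = 0 then 0 else 1) - T =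
        T * s.fc (fun t => (if t = 0 then 0 else 1) - 1) := by
      rw [← s.fc_sub, s.fc_one, Matrix.mul_sub, Matrix.mul_one]
    rw [this, sandwich, s.trace_fc, Finset.sum_eq_zero]
    · simp
    · intro i _
      split_ifs with h <;> simp [h]
  · have e1 : T * s.fc (fun t => (√t)⁻¹) - T = T * s.fc (fun t => (√t)⁻¹ - 1) := by
      rw [← s.fc_sub, s.fc_one, Matrix.mul_sub, Matrix.mul_one]
    have e2 : 1 - Tᴴ * T = s.fc fun t => 1 - t := by rw [← s.fc_sub, s.fc_one, s.fc_id]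
    rw [he, e1, e2, norm_sq_trace, norm_sq_trace, sandwich, s.fc_adj, s.fc_mul, ← s.fc_one,
      s.fc_sub, s.trace_fc, s.trace_fc, s.trace_fc, Complex.ofReal_re, Complex.ofReal_re,
      Complex.ofReal_re, ← Finset.sum_add_distrib]
    refine Finset.sum_le_sum fun i _ => ?_
    split_ifs with h
    · simp [h]
    · have h0 := Real.sqrt_nonneg (s.d i)
      have h1 : √(s.d i) ≠ 0 := by
        rw [Ne, Real.sqrt_eq_zero (hd i)]; exact h
      have h2 := Real.mul_self_sqrt (hd i)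
      set u := √(s.d i)
      have h3 : (u⁻¹ - 1) * s.d i * (u⁻¹ - 1) = (1 - u) ^ 2 := by
        rw [← h2]; field_simp
      rw [h3, ← h2]
      nlinarith [mul_nonneg (sq_nonneg (1 - u)) h0, mul_nonneg (sq_nonneg (1 - u)) (sq_nonneg u)]

/-- unitary representation -/
def URep {H : Type} [Group H] (α : H → Matrix X X ℂ) : Prop :=
  (∀ h, (α h)ᴴ * α h = 1 ∧ α h * (α h)ᴴ = 1) ∧ ∀ g h, α (g * h) = α g * α h

lemma itw_comm {a : Matrix X X ℂ} {b : Matrix Y Y ℂ} {T : Matrix Y X ℂ} (ha : a * aᴴ = 1)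
    (hb : bᴴ * b = 1) (h : b * T = T * a) : a * (Tᴴ * T) = (Tᴴ * T) * a := by
  have h1 : aᴴ * (Tᴴ * T) * a = Tᴴ * T := by
    calc _ = (T * a)ᴴ * (T * a) := by simp only [conjTranspose_mul, Matrix.mul_assoc]
      _ = Tᴴ * (bᴴ * b) * T := by rw [← h]; simp only [conjTranspose_mul, Matrix.mul_assoc]
      _ = _ := by rw [hb, Matrix.mul_one]
  conv_lhs => rw [← h1]
  rw [← Matrix.mul_assoc, ← Matrix.mul_assoc, ha, Matrix.one_mul]

lemma itw_adj {a : Matrix X X ℂ} {b : Matrix Y Y ℂ} {T : Matrix Y X ℂ} (ha : a * aᴴ = 1)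
    (hb : bᴴ * b = 1) (h : b * T = T * a) : a * Tᴴ = Tᴴ * b := by
  have h1 := congrArg conjTranspose h
  rw [conjTranspose_mul, conjTranspose_mul] at h1
  calc a * Tᴴ = a * (Tᴴ * bᴴ) * b := by
        rw [Matrix.mul_assoc, Matrix.mul_assoc, hb, Matrix.mul_one]
    _ = _ := by rw [h1, ← Matrix.mul_assoc, ha, Matrix.one_mul]

lemma avg_itw {H : Type} [Group H] [Fintype H] {α : H → Matrix X X ℂ} {β : H → Matrix Y Y ℂ}
    (hα : URep α) (hβ : URep β) (M : Matrix Y X ℂ) (g : H) :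
    β g * (∑ h, β h * M * (α h)ᴴ) = (∑ h, β h * M * (α h)ᴴ) * α g := by
  rw [Matrix.mul_sum, Matrix.sum_mul]
  refine Fintype.sum_equiv (Equiv.mulLeft g) _ _ fun h => ?_
  simp only [Equiv.coe_mulLeft, hα.2, hβ.2, conjTranspose_mul, Matrix.mul_assoc, (hα.1 g).1,
    Matrix.mul_one]

omit [DecidableEq X] [DecidableEq Y] in
lemma pi_self {W : Matrix Y X ℂ} (h : (Wᴴ * W) * (Wᴴ * W) = Wᴴ * W) : W * (Wᴴ * W) = W := by
  rw [← sub_eq_zero]
  apply eq_zero_of_trace
  have : (W * (Wᴴ * W) - W)ᴴ * (W * (Wᴴ * W) - W) =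
      (Wᴴ * W) * ((Wᴴ * W) * (Wᴴ * W)) - (Wᴴ * W) * (Wᴴ * W) - ((Wᴴ * W) * (Wᴴ * W) - Wᴴ * W) := by
    simp only [conjTranspose_sub, conjTranspose_mul, conjTranspose_conjTranspose, Matrix.sub_mul,
      Matrix.mul_sub, Matrix.mul_assoc]
  rw [this, h, h]; simp

lemma URep.one {H : Type} [Group H] {α : H → Matrix X X ℂ} (h : URep α) : α 1 = 1 := by
  have h1 := h.2 1 1
  rw [mul_one] at h1
  calc α 1 = ((α 1)ᴴ * α 1) * α 1 := by rw [(h.1 1).1, Matrix.one_mul]
    _ = (α 1)ᴴ * (α 1 * α 1) := by rw [Matrix.mul_assoc]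
    _ = 1 := by rw [← h1, (h.1 1).1]

lemma ext_itw {H : Type} [Group H] [Fintype H] {α : H → Matrix X X ℂ} {β : H → Matrix Y Y ℂ}
    (hα : URep α) (hβ : URep β) (hχ : ∀ h, trace (α h) = trace (β h)) (n : ℕ) :
    ∀ W : Matrix Y X ℂ, (Wᴴ * W) * (Wᴴ * W) = Wᴴ * W → (∀ h, β h * W = W * α h) →
      (trace (1 - Wᴴ * W)).re < (n : ℝ) → ∃ U : Matrix Y X ℂ, Uᴴ * U = 1 ∧ U * Uᴴ = 1 ∧
        (∀ h, β h * U = U * α h) ∧ U * (Wᴴ * W) = W := by
  induction n with
  | zero =>
    intro W h1 _ h3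
    rw [← norm_sq_proj (1 - Wᴴ * W) (by simp) (by
      rw [Matrix.sub_mul, Matrix.mul_sub, Matrix.mul_sub, h1]; simp)] at h3
    exact absurd h3 (not_lt.2 (by simp))
  | succ n ih =>
    intro W h1 h2 h3
    have hW := pi_self h1
    have hW' : Wᴴ * (W * Wᴴ) = Wᴴ := by
      have := congrArg conjTranspose hW
      simpa only [conjTranspose_mul, conjTranspose_conjTranspose, Matrix.mul_assoc] using this
    set p : Matrix X X ℂ := 1 - Wᴴ * W with hp
    set q : Matrix Y Y ℂ := 1 - W * Wᴴ with hq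
    have p1 : pᴴ = p := by simp [hp]
    have q1 : qᴴ = q := by simp [hq]
    have Wp : W * p = 0 := by rw [hp, Matrix.mul_sub, hW]; simp
    have Wq : Wᴴ * q = 0 := by rw [hq, Matrix.mul_sub, hW']; simp
    have p2 : p * p = p := by
      nth_rewrite 1 [hp]
      rw [Matrix.sub_mul, Matrix.mul_assoc, Wp]; simp
    have q2 : q * q = q := by
      nth_rewrite 1 [hq]
      rw [Matrix.sub_mul, Matrix.mul_assoc, Wq]; simp
    have pα : ∀ h, α h * p = p * α h := fun h => by
      rw [hp, Matrix.mul_sub, Matrix.sub_mul, itw_comm (hα.1 h).2 (hβ.1 h).1 (h2 h)]; simp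
    have qβ : ∀ h, β h * q = q * β h := fun h => by
      rw [hq, Matrix.mul_sub, Matrix.sub_mul, ← Matrix.mul_assoc, h2, Matrix.mul_assoc,
        itw_adj (hα.1 h).2 (hβ.1 h).1 (h2 h)]
      simp [Matrix.mul_assoc]
    have tr : ∀ h, trace (α h * p) = trace (β h * q) := fun h => by
      rw [hp, hq, Matrix.mul_sub, Matrix.mul_sub, trace_sub, trace_sub, Matrix.mul_one,
        Matrix.mul_one, hχ, ← Matrix.mul_assoc (β h), h2, ← Matrix.mul_assoc (α h),
        trace_mul_comm _ W, Matrix.mul_assoc]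
    by_cases hp0 : p = 0
    · have hq0 : q = 0 := by
        apply eq_zero_of_trace
        have := tr 1
        rw [hα.one, hβ.one, hp0, Matrix.one_mul, Matrix.one_mul] at this
        rw [q1, q2, ← this, trace_zero]
      exact ⟨W, (sub_eq_zero.1 hp0).symm, (sub_eq_zero.1 hq0).symm, h2, hW⟩
    · have hT : ∃ M : Matrix Y X ℂ, ∑ h, β h * (q * M * p) * (α h)ᴴ ≠ 0 := by
        by_contra hc
        push Not at hc
        have k1 : ∑ y : Y, ∑ x : X,
            (∑ h, β h * (q * single y x (1 : ℂ) * p) * (α h)ᴴ : Matrix Y X ℂ) y x = 0 := by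
          simp [hc]
        have k2 : ∀ h (y : Y) (x : X), (β h * (q * single y x (1 : ℂ) * p) * (α h)ᴴ) y x =
            (β h * q) y y * (p * (α h)ᴴ) x x := by
          intro h y x
          have : β h * (q * single y x (1 : ℂ) * p) * (α h)ᴴ =
              (β h * q) * single y x (1 : ℂ) * (p * (α h)ᴴ) := by simp only [Matrix.mul_assoc]
          rw [this, mul_apply, Finset.sum_eq_single x]
          · simp
          · intro b _ hb
            simp [mul_apply, Ne.symm hb]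
          · simp
        have k3 : ∑ h, ((‖trace (α h * p)‖ ^ 2 : ℝ) : ℂ) = 0 := by
          rw [← k1]
          simp only [Matrix.sum_apply, k2]
          simp_rw [Finset.sum_comm (s := (univ : Finset X)) (t := (univ : Finset H))]
          rw [Finset.sum_comm]
          refine Finset.sum_congr rfl fun h _ => ?_
          rw [← Finset.sum_mul_sum]
          change _ = trace (β h * q) * trace (p * (α h)ᴴ)
          rw [← tr, ← p1, ← conjTranspose_mul, trace_conjTranspose, p1, Complex.star_def,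
            Complex.mul_conj']
          norm_cast
        have k4 : ∑ h, ‖trace (α h * p)‖ ^ 2 = 0 := by exact_mod_cast k3
        rw [Finset.sum_eq_zero_iff_of_nonneg fun _ _ => by positivity] at k4
        have k5 := k4 1 (mem_univ _)
        rw [hα.one, Matrix.one_mul, sq_eq_zero_iff, norm_eq_zero] at k5
        exact hp0 (eq_zero_of_trace (by rw [p1, p2, k5]))
      obtain ⟨M, hM⟩ := hT
      set T := ∑ h, β h * (q * M * p) * (α h)ᴴ with hTd
      have Ti : ∀ g, β g * T = T * α g := avg_itw hα hβ _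
      have Tp : T * p = T := by
        rw [hTd, Matrix.sum_mul]
        refine Finset.sum_congr rfl fun h _ => ?_
        have : (α h)ᴴ * p = p * (α h)ᴴ := by
          have := congrArg conjTranspose (pα h)
          rw [conjTranspose_mul, conjTranspose_mul, p1] at this
          exact this.symm
        rw [Matrix.mul_assoc, this]
        simp only [← Matrix.mul_assoc]
        rw [Matrix.mul_assoc _ p p, p2]
      have Tq : q * T = T := by
        rw [hTd, Matrix.mul_sum]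
        refine Finset.sum_congr rfl fun h _ => ?_
        simp only [← Matrix.mul_assoc]
        rw [← qβ, Matrix.mul_assoc _ q q, q2]
      obtain ⟨R, r1, r2, r3, -⟩ := polar0 T
      set W' := T * R with hW'd
      have W'p : W' * p = W' := by
        rw [hW'd, Matrix.mul_assoc, ← r1 p, ← Matrix.mul_assoc, Tp]
        have : p * Tᴴ = Tᴴ := by
          have := congrArg conjTranspose Tp
          rwa [conjTranspose_mul, p1] at this
        rw [← Matrix.mul_assoc, this, Matrix.mul_assoc, Tp]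
      have W'q : q * W' = W' := by rw [hW'd, ← Matrix.mul_assoc, Tq]
      have W'i : ∀ h, β h * W' = W' * α h := fun h => by
        rw [hW'd, ← Matrix.mul_assoc, Ti, Matrix.mul_assoc,
          r1 _ (itw_comm (hα.1 h).2 (hβ.1 h).1 (Ti h)), Matrix.mul_assoc]
      have o1 : Wᴴ * W' = 0 := by rw [← W'q, ← Matrix.mul_assoc, Wq, Matrix.zero_mul]
      have o2 : W'ᴴ * W = 0 := by
        have := congrArg conjTranspose o1
        simpa using this
      have o3 : W' * Wᴴ = 0 := by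
        have : p * Wᴴ = 0 := by
          have := congrArg conjTranspose Wp
          rwa [conjTranspose_mul, p1, conjTranspose_zero] at this
        rw [← W'p, Matrix.mul_assoc, this, Matrix.mul_zero]
      have o4 : W * W'ᴴ = 0 := by
        have := congrArg conjTranspose o3
        simpa using this
      have e1 : (W + W')ᴴ * (W + W') = Wᴴ * W + W'ᴴ * W' := by
        rw [conjTranspose_add, Matrix.add_mul, Matrix.mul_add, Matrix.mul_add, o1, o2]; simp
      have c1 : (Wᴴ * W) * (W'ᴴ * W') = 0 := by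
        rw [Matrix.mul_assoc, ← Matrix.mul_assoc W, o4]; simp
      have c2 : (W'ᴴ * W') * (Wᴴ * W) = 0 := by
        rw [Matrix.mul_assoc, ← Matrix.mul_assoc W', o3]; simp
      obtain ⟨m, hm⟩ := trace_proj_nat (E := W'ᴴ * W') (by simp) r2
      have hm0 : m ≠ 0 := by
        rintro rfl
        apply hM
        have : W' = 0 := eq_zero_of_trace (by simpa using hm)
        rw [← r3, this]; simp
      obtain ⟨U, u1, u2, u3, u4⟩ := ih (W + W') (by
        rw [e1, Matrix.add_mul, Matrix.mul_add, Matrix.mul_add, h1, r2, c1, c2]; simp)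
        (fun h => by rw [Matrix.mul_add, Matrix.add_mul, h2, W'i]) (by
          rw [e1, ← sub_sub, ← hp, trace_sub, hm]
          have : (1 : ℝ) ≤ m := by exact_mod_cast Nat.one_le_iff_ne_zero.2 hm0
          push_cast at h3
          simp only [Complex.sub_re, Complex.natCast_re]
          linarith)
      refine ⟨U, u1, u2, u3, ?_⟩
      calc U * (Wᴴ * W) = U * ((W + W')ᴴ * (W + W')) * (Wᴴ * W) := by
            rw [e1, Matrix.mul_assoc, Matrix.add_mul, h1, c2, add_zero]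
        _ = W := by rw [u4, Matrix.add_mul, hW, ← Matrix.mul_assoc, o3]; simp

lemma rig_itw {H : Type} [Group H] [Fintype H] {α : H → Matrix X X ℂ} {β : H → Matrix Y Y ℂ}
    (hα : URep α) (hβ : URep β) (hχ : ∀ h, trace (α h) = trace (β h)) (T : Matrix Y X ℂ)
    (hT : ∀ h, β h * T = T * α h) : ∃ U : Matrix Y X ℂ, Uᴴ * U = 1 ∧ U * Uᴴ = 1 ∧
      (∀ h, β h * U = U * α h) ∧ ‖U - T‖ ≤ ‖1 - Tᴴ * T‖ := by
  obtain ⟨R, r1, r2, r3, r4⟩ := polar0 T
  set W := T * R with hWd
  obtain ⟨n, hn⟩ := exists_nat_gt (trace (1 - Wᴴ * W)).re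
  obtain ⟨U, u1, u2, u3, u4⟩ := ext_itw hα hβ hχ n W r2 (fun h => by
    rw [hWd, ← Matrix.mul_assoc, hT, Matrix.mul_assoc,
      r1 _ (itw_comm (hα.1 h).2 (hβ.1 h).1 (hT h)), Matrix.mul_assoc]) hn
  refine ⟨U, u1, u2, u3, le_of_sq (le_trans (le_of_eq ?_) r4) (norm_nonneg _)⟩
  have he : (Wᴴ * W)ᴴ = Wᴴ * W := by simp
  have p2 : (1 - Wᴴ * W) * (1 - Wᴴ * W) = 1 - Wᴴ * W := by
    rw [Matrix.sub_mul, Matrix.mul_sub, Matrix.mul_sub, r2]; simp
  rw [← frobenius_norm_conjTranspose, norm_sq_split (Wᴴ * W) he r2,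
    ← frobenius_norm_conjTranspose (Wᴴ * W * _), ← frobenius_norm_conjTranspose ((1 - _) * _),
    conjTranspose_mul (Wᴴ * W), conjTranspose_mul (1 - Wᴴ * W), conjTranspose_conjTranspose,
    conjTranspose_sub, conjTranspose_one, he, Matrix.sub_mul, u4, r3, Matrix.sub_mul,
    Matrix.mul_sub T, r3, Matrix.mul_one, sub_self, sub_zero, norm_isometry_mul u1,
    norm_sq_proj _ (by simp) p2]

/-- the class of contractions -/
def clsU : Cls where
  mor T := Ctr T ∧ Ctr Tᴴ
  ctr h := h.1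
  adj h := ⟨h.2, by rw [conjTranspose_conjTranspose]; exact h.1⟩
  mul hS hT := ⟨hS.1.mul hT.1, by rw [conjTranspose_mul]; exact hT.2.mul hS.2⟩
  emb hf := by
    classical
    exact ⟨ctr_of_isometry (emb_adj_emb hf), ctr_adj_of_isometry (emb_adj_emb hf)⟩
  blk h := ⟨Ctr.blk _ fun i => (h i).1, by
    rw [blockDiagonal'_conjTranspose]; exact Ctr.blk _ fun i => (h i).2⟩
  cpl := by
    intro X Y _ _ _ _ T _ hc
    obtain ⟨U, u1, u2, -, u4⟩ := rig_itw (H := Unit) (α := fun _ => (1 : Matrix X X ℂ))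
      (β := fun _ => (1 : Matrix Y Y ℂ)) ⟨by simp, by simp⟩ ⟨by simp, by simp⟩
      (by simp [hc]) T (by simp)
    exact ⟨U, ⟨ctr_of_isometry u1, ctr_adj_of_isometry u1⟩, u1, u2, u4⟩

lemma mor_of_isometry {J : Matrix Y X ℂ} (h : Jᴴ * J = 1) : clsU.mor J :=
  ⟨ctr_of_isometry h, ctr_adj_of_isometry h⟩

lemma hom_iff_urep {Γ : Type} [Group Γ] {a : Obj Γ} : a.Hom clsU ↔ URep a.ρ :=
  ⟨fun h => ⟨fun g => (h.1 g).2, h.2⟩,
    fun h => ⟨fun g => ⟨mor_of_isometry (h.1 g).1, h.1 g⟩, h.2⟩⟩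

/-- compression to an invariant projection -/
lemma compress {Γ : Type} [Group Γ] {b : Obj Γ} (hb : b.Hom clsU) {P : Matrix b.X b.X ℂ}
    (h1 : Pᴴ = P) (h2 : P * P = P) (h3 : ∀ g, b.ρ g * P = P * b.ρ g) :
    ∃ (c : Obj Γ) (J : Matrix b.X c.X ℂ), c.Hom clsU ∧ Jᴴ * J = 1 ∧ J * Jᴴ = P ∧
      ∀ g, b.ρ g * J = J * c.ρ g := by
  obtain ⟨Z, _, _, J, j1, j2⟩ := exists_range h1 h2
  have PJ : P * J = J := by rw [← j2, Matrix.mul_assoc, j1, Matrix.mul_one]
  have key : ∀ g, b.ρ g * J = J * (Jᴴ * b.ρ g * J) := fun g => by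
    rw [← Matrix.mul_assoc, ← Matrix.mul_assoc, j2, ← h3, Matrix.mul_assoc, PJ]
  have mul : ∀ g h, Jᴴ * b.ρ (g * h) * J = (Jᴴ * b.ρ g * J) * (Jᴴ * b.ρ h * J) := fun g h => by
    rw [Matrix.mul_assoc _ J, ← key, hb.2]; simp only [Matrix.mul_assoc]
  have adj : ∀ g, (Jᴴ * b.ρ g * J)ᴴ = Jᴴ * b.ρ g⁻¹ * J := fun g => by
    rw [hb.inv]; simp only [conjTranspose_mul, conjTranspose_conjTranspose, Matrix.mul_assoc]
  refine ⟨{ X := Z, ρ := fun g => Jᴴ * b.ρ g * J }, J, hom_iff_urep.2 ⟨fun g => ⟨?_, ?_⟩, mul⟩,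
    j1, j2, key⟩
  · change (Jᴴ * b.ρ g * J)ᴴ * (Jᴴ * b.ρ g * J) = 1
    rw [adj, ← mul, inv_mul_cancel, hb.one, Matrix.mul_one, j1]
  · change (Jᴴ * b.ρ g * J) * (Jᴴ * b.ρ g * J)ᴴ = 1
    rw [adj, ← mul, mul_inv_cancel, hb.one, Matrix.mul_one, j1]

end Pool.Agent.H845Z.St
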