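import Pool.Agent.H845Z.St.UniA

/-!
Integer invariants of unitary representations of a finite group.
-/

set_option autoImplicit false

namespace Pool.Agent.H845Z.St

open Matrix Finset Obj
open scoped Matrix.Norms.Frobenius

/-- character -/
def chi {Γ : Type} (a : Obj Γ) (g : Γ) : ℂ := trace (a.ρ g)

lemma chi_sum {Γ ι : Type} [Fintype ι] [DecidableEq ι] (f : ι → Obj Γ) (g : Γ) :
    chi (Obj.sum f) g = ∑ i, chi (f i) g := trace_blockDiagonal' fun i => (f i).ρ g

lemma chi_one {Γ : Type} [Group Γ] {a : Obj Γ} (ha : a.Hom clsU) : chi a 1 = a.dim := by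
  rw [chi, ha.one, trace_one]; rfl

lemma rho_pow {Γ : Type} [Group Γ] {a : Obj Γ} (ha : a.Hom clsU) (g : Γ) (l : ℕ) :
    a.ρ (g ^ l) = a.ρ g ^ l := by
  induction l with
  | zero => rw [pow_zero, pow_zero, ha.one]
  | succ l ih => rw [pow_succ, pow_succ, ha.2, ih]

lemma chi_cont {H : Type} [Fintype H] {a b : Obj H} (ha : a.InA clsU) (hb : b.InA clsU)
    {T : Matrix b.X a.X ℂ} (hT : clsU.mor T) (h : H) :
    ‖chi a h - chi b h‖ ≤ (√(a.dim) + √(b.dim)) * dft a b T := by
  have e : chi a h - chi b h = trace (a.ρ h * (1 - Tᴴ * T)) - trace (b.ρ h * (1 - T * Tᴴ)) -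
      trace ((b.ρ h * T - T * a.ρ h) * Tᴴ) := by
    simp only [chi, Matrix.mul_sub, Matrix.sub_mul, trace_sub, Matrix.mul_one]
    rw [← Matrix.mul_assoc (a.ρ h), trace_mul_comm _ T, Matrix.mul_assoc (b.ρ h),
      Matrix.mul_assoc T]
    ring
  have h1 := (norm_trace_mul_le (a.ρ h) (1 - Tᴴ * T)).trans
    (mul_le_mul_of_nonneg_right (ha h).1.1.norm_le (norm_nonneg _))
  have h2 := (norm_trace_mul_le (b.ρ h) (1 - T * Tᴴ)).trans
    (mul_le_mul_of_nonneg_right (hb h).1.1.norm_le (norm_nonneg _))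
  have h3 := (norm_trace_mul_le (b.ρ h * T - T * a.ρ h) Tᴴ).trans
    (mul_le_mul_of_nonneg_left hT.2.norm_le (norm_nonneg _))
  have h4 : ‖b.ρ h * T - T * a.ρ h‖ ≤ ∑ h, ‖b.ρ h * T - T * a.ρ h‖ :=
    Finset.single_le_sum (f := fun h => ‖b.ρ h * T - T * a.ρ h‖) (fun _ _ => norm_nonneg _)
      (mem_univ h)
  rw [e]
  refine (norm_sub_le _ _).trans ((add_le_add (norm_sub_le _ _) le_rfl).trans ?_)
  unfold dft Obj.dim
  have p1 := Real.sqrt_nonneg (Fintype.card a.X : ℝ)
  have p2 := Real.sqrt_nonneg (Fintype.card b.X : ℝ)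
  have p3 := norm_nonneg (1 - Tᴴ * T)
  have p4 := norm_nonneg (1 - T * Tᴴ)
  have p5 := norm_nonneg (b.ρ h * T - T * a.ρ h)
  nlinarith [mul_nonneg p1 p4, mul_nonneg p2 p3, mul_nonneg p1 (p5.trans h4),
    mul_le_mul_of_nonneg_left h4 p2]

section ty
variable (H : Type) [Group H] [Fintype H]

/-- a common exponent, at least two -/
def mm : ℕ := 2 * Fintype.card H

/-- a primitive root of unity -/
noncomputable def eta : ℂ := Complex.exp (2 * Real.pi * Complex.I / mm H)

lemma two_le_mm : 2 ≤ mm H := by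
  have : 0 < Fintype.card H := Fintype.card_pos
  unfold mm; omega

lemma eta_prim : IsPrimitiveRoot (eta H) (mm H) :=
  Complex.isPrimitiveRoot_exp _ (by have := two_le_mm H; omega)

variable {H}

/-- eigenvalue multiplicities -/
noncomputable def tyC (a : Obj H) (x : H × Fin (mm H)) : ℂ :=
  (mm H : ℂ)⁻¹ * ∑ l ∈ range (mm H), (eta H ^ x.2.val) ^ l * chi a (x.1 ^ l)

lemma tyC_nat {a : Obj H} (ha : a.Hom clsU) (x : H × Fin (mm H)) : ∃ n : ℕ, tyC a x = n := by
  obtain ⟨h, j⟩ := x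
  have hm : (mm H : ℂ) ≠ 0 := by have := two_le_mm H; exact_mod_cast (by omega)
  set c := eta H ^ j.val with hc
  have c1 : c ^ mm H = 1 := by rw [hc, ← pow_mul, mul_comm, pow_mul, (eta_prim H).pow_eq_one, one_pow]
  have c2 : star c * c = 1 := by
    have h1 : ‖c‖ = 1 := Complex.norm_eq_one_of_pow_eq_one c1 (by have := two_le_mm H; omega)
    rw [Complex.star_def, Complex.conj_mul', h1]; simp
  set w : Matrix a.X a.X ℂ := c • a.ρ h with hw
  have w1 : w ^ mm H = 1 := by
    rw [hw, smul_pow, c1, one_smul, ← rho_pow ha, mm, mul_comm, pow_mul, pow_card_eq_one, one_pow,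
      ha.one]
  have w2 : wᴴ * w = 1 := by
    rw [hw, conjTranspose_smul, Matrix.smul_mul, Matrix.mul_smul, smul_smul, c2, one_smul,
      (ha.1 h).2.1]
  set S : Matrix a.X a.X ℂ := ∑ l ∈ range (mm H), w ^ l with hS
  have s1 : w * S = S := by
    have := mul_geom_sum w (mm H)
    rw [w1, sub_self, sub_mul, one_mul, sub_eq_zero] at this
    exact this
  have s2 : wᴴ * S = S := by
    conv_lhs => rw [← s1]
    rw [← Matrix.mul_assoc, w2, Matrix.one_mul]
  have pw : ∀ (u : Matrix a.X a.X ℂ), u * S = S → ∀ l : ℕ, u ^ l * S = S := by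
    intro u hu l
    induction l with
    | zero => simp
    | succ l ih => rw [pow_succ, mul_assoc, hu, ih]
  have s3 : S * S = (mm H : ℂ) • S := by
    nth_rewrite 1 [hS]
    rw [Finset.sum_mul, Finset.sum_congr rfl fun l _ => pw w s1 l]
    simp [Nat.cast_smul_eq_nsmul]
  have s4 : Sᴴ * S = (mm H : ℂ) • S := by
    nth_rewrite 1 [hS]
    rw [conjTranspose_sum, Finset.sum_mul]
    simp only [conjTranspose_pow, pw wᴴ s2]
    simp [Nat.cast_smul_eq_nsmul]
  have s5 : Sᴴ = S := by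
    have := congrArg conjTranspose s4
    rw [conjTranspose_mul, conjTranspose_conjTranspose, s4, conjTranspose_smul] at this
    simp only [star_natCast] at this
    exact (smul_right_injective _ hm this).symm
  obtain ⟨n, hn⟩ := trace_proj_nat (E := (mm H : ℂ)⁻¹ • S)
    (by rw [conjTranspose_smul, s5]; simp) (by
      rw [Matrix.smul_mul, Matrix.mul_smul, s3, smul_smul, smul_smul]
      congr 1
      field_simp)
  refine ⟨n, ?_⟩
  rw [← hn, trace_smul, hS, trace_sum, tyC, smul_eq_mul]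
  congr 1
  refine Finset.sum_congr rfl fun l _ => ?_
  rw [hw, smul_pow, trace_smul, ← rho_pow ha]; rfl

lemma chi_eq (a : Obj H) (h : H) :
    chi a h = ∑ j : Fin (mm H), (eta H ^ j.val)⁻¹ * tyC a (h, j) := by
  have h2 := two_le_mm H
  have hm : (mm H : ℂ) ≠ 0 := by exact_mod_cast (by omega)
  have hη : eta H ≠ 0 := (eta_prim H).ne_zero (by omega)
  have e1 : ∀ j : Fin (mm H), (eta H ^ j.val)⁻¹ * tyC a (h, j) =
      ∑ l ∈ range (mm H), (mm H : ℂ)⁻¹ * chi a (h ^ l) * (eta H ^ l / eta H) ^ j.val := by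
    intro j
    rw [tyC, Finset.mul_sum, Finset.mul_sum]
    refine Finset.sum_congr rfl fun l _ => ?_
    rw [div_pow, ← pow_mul, ← pow_mul, mul_comm l]
    field_simp
  simp only [e1]
  rw [Finset.sum_comm, Finset.sum_eq_single 1]
  · rw [pow_one, pow_one, div_self hη]
    simp only [one_pow, mul_one, sum_const, card_univ, Fintype.card_fin, nsmul_eq_mul]
    field_simp
  · intro l hl hl1
    rw [← Finset.mul_sum, Fin.sum_univ_eq_sum_range (fun j => (eta H ^ l / eta H) ^ j)]
    have k1 : eta H ^ l / eta H ≠ 1 := by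
      intro hc
      rw [div_eq_one_iff_eq hη] at hc
      exact hl1 ((eta_prim H).pow_inj (mem_range.1 hl) (by omega) (by rw [hc, pow_one]))
    have k2 : (eta H ^ l / eta H) ^ mm H = 1 := by
      rw [div_pow, ← pow_mul, mul_comm, pow_mul, (eta_prim H).pow_eq_one]; simp
    rw [geom_sum_eq k1, k2]; simp
  · intro h1
    exact absurd (mem_range.2 (by omega)) h1

/-- integer form -/
noncomputable def tyU (a : Obj H) (x : H × Fin (mm H)) : ℤ := round (tyC a x).re

lemma tyU_eq {a : Obj H} (ha : a.Hom clsU) (x : H × Fin (mm H)) : (tyU a x : ℂ) = tyC a x := by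
  obtain ⟨n, hn⟩ := tyC_nat ha x
  rw [tyU, hn]; simp

lemma ctr_avg {X Y : Type} [Fintype X] [Fintype Y] (f : H → Matrix Y X ℂ) (hf : ∀ h, Ctr (f h)) :
    Ctr ((Fintype.card H : ℂ)⁻¹ • ∑ h, f h) := by
  intro Z _ B
  have hc : (0 : ℝ) < Fintype.card H := by exact_mod_cast Fintype.card_pos
  rw [Matrix.smul_mul, Matrix.sum_mul, norm_smul, norm_inv, Complex.norm_natCast,
    inv_mul_le_iff₀ hc]
  refine (norm_sum_le _ _).trans ((Finset.sum_le_sum fun h _ => (hf h).left B).trans ?_)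
  simp

variable (H) in
/-- type data for unitary groups -/
noncomputable def tyDataU : TyData clsU H where
  I := H × Fin (mm H)
  ty := tyU
  c := 3
  ty_sum := by
    intro ι _ _ f hf j
    have : (tyU (Obj.sum f) j : ℂ) = ((∑ i, tyU (f i) j : ℤ) : ℂ) := by
      push_cast
      simp only [tyU_eq (Hom.sum hf), tyU_eq (hf _), tyC, chi_sum, Finset.mul_sum]
      exact Finset.sum_comm
    exact_mod_cast this
  cont := by
    intro a b ha hb T hT j
    have hm : (0 : ℝ) < mm H := by have := two_le_mm H; exact_mod_cast (by omega)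
    have e1 : |(tyU a j : ℝ) - tyU b j| = ‖tyC a j - tyC b j‖ := by
      rw [← tyU_eq ha, ← tyU_eq hb, ← Real.norm_eq_abs, ← Complex.norm_real]
      push_cast; rfl
    have hη : ‖eta H‖ = 1 := (eta_prim H).norm'_eq_one (by have := two_le_mm H; omega)
    have hd : 0 ≤ (√(a.dim) + √(b.dim)) * dft a b T := mul_nonneg (by positivity) (dft_nonneg _ _ _)
    have e2 : ‖tyC a j - tyC b j‖ ≤ (√(a.dim) + √(b.dim)) * dft a b T := by
      rw [tyC, tyC, ← mul_sub, ← Finset.sum_sub_distrib, norm_mul, norm_inv, Complex.norm_natCast,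
        inv_mul_le_iff₀ hm]
      refine (norm_sum_le _ _).trans ((Finset.sum_le_sum (g := fun _ =>
        (√(a.dim) + √(b.dim)) * dft a b T) fun l _ => ?_).trans (by simp))
      rw [← mul_sub, norm_mul, norm_pow, norm_pow, hη, one_pow, one_pow, one_mul]
      exact chi_cont ha.1 hb.1 hT _
    rw [e1, mul_assoc]
    linarith
  rig := by
    intro a b ha hb _ hty T hT
    have hχ : ∀ h, trace (a.ρ h) = trace (b.ρ h) := fun h => by
      change chi a h = chi b h
      rw [chi_eq, chi_eq]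
      simp only [← tyU_eq ha, ← tyU_eq hb, hty]
    have hα := hom_iff_urep.1 ha
    have hβ := hom_iff_urep.1 hb
    have hc : (Fintype.card H : ℂ) ≠ 0 := by exact_mod_cast Fintype.card_ne_zero
    have hc' : (1 : ℝ) ≤ Fintype.card H := by exact_mod_cast Fintype.card_pos
    have hm : ∀ h, clsU.mor (b.ρ h * T * (a.ρ h)ᴴ) := fun h =>
      clsU.mul (clsU.mul (hb.1 h).1 hT) (clsU.adj (ha.1 h).1)
    set T' : Matrix b.X a.X ℂ := (Fintype.card H : ℂ)⁻¹ • ∑ h, b.ρ h * T * (a.ρ h)ᴴ with hT'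
    have t1 : Ctr T'ᴴ := by
      rw [hT', conjTranspose_smul, conjTranspose_sum]
      simp only [star_inv₀, star_natCast]
      exact ctr_avg _ fun h => (hm h).2
    have t2 : ‖T' - T‖ ≤ ∑ h, ‖b.ρ h * T - T * a.ρ h‖ := by
      have : T' - T = (Fintype.card H : ℂ)⁻¹ • ∑ h, (b.ρ h * T - T * a.ρ h) * (a.ρ h)ᴴ := by
        simp only [Matrix.sub_mul, Matrix.mul_assoc T, (ha.1 _).2.2, Matrix.mul_one,
          Finset.sum_sub_distrib, smul_sub, hT']
        congr 1
        rw [Finset.sum_const, card_univ, ← Nat.cast_smul_eq_nsmul ℂ, smul_smul, inv_mul_cancel₀ hc,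
          one_smul]
      rw [this, norm_smul, norm_inv, Complex.norm_natCast]
      refine (mul_le_of_le_one_left (norm_nonneg _) (inv_le_one_of_one_le₀ hc')).trans
        ((norm_sum_le _ _).trans (Finset.sum_le_sum fun h _ => ?_))
      exact clsU.right (clsU.adj (ha.1 h).1) _
    obtain ⟨U, u1, u2, u3, u4⟩ := rig_itw hα hβ hχ T' fun g => by
      rw [hT', Matrix.mul_smul, Matrix.smul_mul, avg_itw hα hβ]
    refine ⟨U, mor_of_isometry u1, u1, u2, u3, ?_⟩
    have t3 : ‖1 - T'ᴴ * T'‖ ≤ ‖1 - Tᴴ * T‖ + (‖T' - T‖ + ‖T' - T‖) := by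
      have : 1 - T'ᴴ * T' = (1 - Tᴴ * T) - (Tᴴ * (T' - T) + (T' - T)ᴴ * T') := by
        simp only [conjTranspose_sub, Matrix.mul_sub, Matrix.sub_mul]; abel
      rw [this]
      refine (norm_sub_le _ _).trans (add_le_add le_rfl ((norm_add_le _ _).trans (add_le_add
        (hT.2.left _) ((t1.right _).trans (frobenius_norm_conjTranspose _).le))))
    have t4 : ‖U - T‖ ≤ ‖U - T'‖ + ‖T' - T‖ := norm_sub_le_norm_sub_add_norm_sub _ _ _
    unfold dft
    have := norm_nonneg (1 - Tᴴ * T)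
    have := norm_nonneg (1 - T * Tᴴ)
    linarith

end ty

end Pool.Agent.H845Z.St
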