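import Pool.Agent.H845Z.St.UniB
import Pool.Agent.H845Z.St.PermB

/-!
Pure types and complements for unitary representations.
-/

set_option autoImplicit false

namespace Pool.Agent.H845Z.St

open Matrix Finset Obj
open scoped Matrix.Norms.Frobenius

lemma iso_family {Γ ι : Type} [Fintype ι] [DecidableEq ι] {b : Obj Γ} {c : ι → Obj Γ}
    (J : ∀ t, Matrix b.X (c t).X ℂ) (j1 : ∀ t, (J t)ᴴ * J t = 1)
    (j2 : ∀ t u, t ≠ u → (J t)ᴴ * J u = 0) (j3 : ∑ t, J t * (J t)ᴴ = 1)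
    (j4 : ∀ t g, b.ρ g * J t = J t * (c t).ρ g) : Iso clsU (Obj.sum c) b := by
  let U : Matrix b.X (Σ t, (c t).X) ℂ := Matrix.of fun x p => J p.1 x p.2
  have u1 : Uᴴ * U = 1 := by
    ext ⟨t, y⟩ ⟨u, y'⟩
    change ((J t)ᴴ * J u) y y' = _
    by_cases h : t = u
    · subst h
      rw [j1]; simp [one_apply]
    · rw [j2 t u h]; simp [one_apply, h]
  have u2 : U * Uᴴ = 1 := by
    rw [← j3]
    ext x x'
    rw [mul_apply, Fintype.sum_sigma, Matrix.sum_apply]
    rfl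
  refine ⟨U, mor_of_isometry u1, u1, u2, fun g => ?_⟩
  ext x ⟨t, y⟩
  let e : Matrix (Σ t, (c t).X) (c t).X ℂ := emb (Sigma.mk (β := fun t => (c t).X) t)
  have he : U * e = J t := by ext x y; rw [mul_emb]; rfl
  have h1 : b.ρ g * U * e = U * (blockDiagonal' fun t => (c t).ρ g) * e := by
    rw [Matrix.mul_assoc, Matrix.mul_assoc, blk_mul_emb_mk, ← Matrix.mul_assoc U, he, j4]
  have h2 := congrFun (congrFun h1 x) y
  rw [mul_emb, mul_emb] at h2
  exact h2

section lab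
variable {Γ : Type} [Group Γ] (S : Finset Γ) {H : Type} [Group H] (i : H →* Γ)

open Classical in
/-- conjugacy class -/
noncomputable def cl (h : H) : Finset Γ := S.filter (IsConj (i h))

/-- class sum -/
noncomputable def zz (a : Obj Γ) (h : H) : Matrix a.X a.X ℂ := ∑ s ∈ cl S i h, a.ρ s

/-- weights -/
def wt (β : Bool) : ℂ := cond β 1 Complex.I

/-- Hermitian parts of the class sums -/
noncomputable def BB (a : Obj Γ) (k : H × Bool) : Matrix a.X a.X ℂ :=
  wt k.2 • zz S i a k.1 + star (wt k.2) • (zz S i a k.1)ᴴ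

lemma BB_adj (a : Obj Γ) (k : H × Bool) : (BB S i a k)ᴴ = BB S i a k := by
  simp [BB, add_comm]

lemma zz_adj {a : Obj Γ} (ha : a.Hom clsU) (h : H) :
    (zz S i a h)ᴴ = ∑ s ∈ cl S i h, a.ρ s⁻¹ := by
  rw [zz, conjTranspose_sum]; simp only [ha.inv]

lemma BB_itw {a b : Obj Γ} (ha : a.Hom clsU) (hb : b.Hom clsU) {J : Matrix b.X a.X ℂ}
    (h : ∀ g, b.ρ g * J = J * a.ρ g) (k : H × Bool) : BB S i b k * J = J * BB S i a k := by
  simp only [BB, zz_adj S i ha, zz_adj S i hb]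
  simp only [zz, Matrix.add_mul, Matrix.mul_add, Matrix.smul_mul, Matrix.mul_smul, Matrix.sum_mul,
    Matrix.mul_sum, h]

variable {S} in
lemma zz_comm (hS : ∀ s ∈ S, ∀ g, g * s * g⁻¹ ∈ S) {a : Obj Γ} (ha : a.Hom clsU) (h : H) (g : Γ) :
    a.ρ g * zz S i a h = zz S i a h * a.ρ g := by
  classical
  have mem : ∀ g s, s ∈ cl S i h → g * s * g⁻¹ ∈ cl S i h := fun g s hs => by
    simp only [cl, mem_filter] at hs ⊢
    exact ⟨hS s hs.1 g, hs.2.trans (isConj_iff.2 ⟨g, rfl⟩)⟩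
  rw [zz, Matrix.mul_sum, Matrix.sum_mul]
  refine Finset.sum_nbij' (fun s => g * s * g⁻¹) (fun s => g⁻¹ * s * g⁻¹⁻¹) (mem g) (mem g⁻¹)
    (fun s _ => by group) (fun s _ => by group) fun s _ => ?_
  rw [← ha.2, ← ha.2]
  congr 1
  group

variable {S} in
lemma BB_comm (hS : ∀ s ∈ S, ∀ g, g * s * g⁻¹ ∈ S) {a : Obj Γ} (ha : a.Hom clsU) (k : H × Bool)
    (g : Γ) : a.ρ g * BB S i a k = BB S i a k * a.ρ g := by
  have h1 := congrArg conjTranspose (zz_comm i hS ha k.1 g⁻¹)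
  rw [conjTranspose_mul, conjTranspose_mul, ha.inv, conjTranspose_conjTranspose] at h1
  simp only [BB, Matrix.add_mul, Matrix.mul_add, Matrix.smul_mul, Matrix.mul_smul,
    zz_comm i hS ha, h1]

lemma exists_poly (hK : Finite (Subgroup.closure (S : Set Γ))) (k : H × Bool) :
    ∃ p : Polynomial ℂ, p ≠ 0 ∧ ∀ a : Obj Γ, a.Hom clsU → Polynomial.aeval (BB S i a k) p = 0 := by
  classical
  let K := Subgroup.closure (S : Set Γ)
  let ψ : MonoidAlgebra ℂ K →ₐ[ℂ] MonoidAlgebra ℂ Γ :=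
    MonoidAlgebra.lift ℂ _ K ((MonoidAlgebra.of ℂ Γ).comp K.subtype)
  let x : MonoidAlgebra ℂ Γ := wt k.2 • ∑ s ∈ cl S i k.1, MonoidAlgebra.of ℂ Γ s +
    star (wt k.2) • ∑ s ∈ cl S i k.1, MonoidAlgebra.of ℂ Γ s⁻¹
  have hof : ∀ s ∈ K, MonoidAlgebra.of ℂ Γ s ∈ ψ.range := fun s hs =>
    ⟨MonoidAlgebra.of ℂ K ⟨s, hs⟩, MonoidAlgebra.lift_of _ _⟩
  have hcl : ∀ s ∈ cl S i k.1, s ∈ K := fun s hs =>
    Subgroup.subset_closure (mem_filter.1 hs).1
  obtain ⟨y, hy⟩ : x ∈ ψ.range :=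
    add_mem (Subalgebra.smul_mem _ (sum_mem fun s hs => hof s (hcl s hs)) _)
      (Subalgebra.smul_mem _ (sum_mem fun s hs => hof _ (inv_mem (hcl s hs))) _)
  have hint : IsIntegral ℂ x := by
    rw [← hy]
    exact (IsIntegral.of_finite ℂ y).map ψ
  obtain ⟨p, hp, hpx⟩ := hint
  refine ⟨p, hp.ne_zero, fun a ha => ?_⟩
  let ρ : Γ →* Matrix a.X a.X ℂ := { toFun := a.ρ, map_one' := ha.one, map_mul' := ha.2 }
  let Φ := MonoidAlgebra.lift ℂ (Matrix a.X a.X ℂ) Γ ρ
  have h1 : Φ x = BB S i a k := by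
    simp only [x, map_add, map_smul, map_sum, Φ, MonoidAlgebra.lift_of, BB, zz_adj S i ha]
    rfl
  rw [← h1, Polynomial.aeval_algHom_apply, Polynomial.aeval_def, hpx, map_zero]

lemma exists_gap {κ : Type} [Fintype κ] (R : κ → Finset ℝ) :
    ∃ c : ℝ, 0 ≤ c ∧ ∀ k, ∀ t ∈ R k, ∀ u ∈ R k, t ≠ u → 1 ≤ c * |t - u| := by
  classical
  refine ⟨∑ k, ∑ t ∈ R k, ∑ u ∈ R k, |t - u|⁻¹, by positivity, fun k t ht u hu h => ?_⟩
  have h0 : 0 < |t - u| := abs_pos.2 (sub_ne_zero.2 h)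
  rw [← div_le_iff₀ h0, one_div]
  refine le_trans ?_ (Finset.single_le_sum (f := fun k => ∑ t ∈ R k, ∑ u ∈ R k, |t - u|⁻¹)
    (fun _ _ => by positivity) (mem_univ k))
  refine le_trans ?_ (Finset.single_le_sum (f := fun t => ∑ u ∈ R k, |t - u|⁻¹)
    (fun _ _ => by positivity) ht)
  exact Finset.single_le_sum (f := fun u => |t - u|⁻¹) (fun _ _ => by positivity) hu

open scoped IsMulCommutative in
lemma joint {X κ : Type} [Fintype X] [DecidableEq X] [Fintype κ] [DecidableEq κ]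
    {R : κ → Type} [∀ k, Fintype (R k)] (F : ∀ k, R k → Matrix X X ℂ)
    (f1 : ∀ k t, (F k t)ᴴ = F k t) (f2 : ∀ k t, F k t * F k t = F k t)
    (f3 : ∀ k, ∑ t, F k t = 1) (f4 : ∀ k t l u, F k t * F l u = F l u * F k t) :
    ∃ E : (∀ k, R k) → Matrix X X ℂ, ∑ τ, E τ = 1 ∧ ∀ τ, (E τ)ᴴ = E τ ∧ E τ * E τ = E τ ∧
      (∀ k, F k (τ k) * E τ = E τ) ∧
      ∀ M : Matrix X X ℂ, (∀ k t, M * F k t = F k t * M) → M * E τ = E τ * M := by
  let s : Set (Matrix X X ℂ) := Set.range fun p : (Σ k, R k) => F p.1 p.2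
  have : IsMulCommutative (Algebra.adjoin ℂ s) := Algebra.isMulCommutative_adjoin ℂ (by
    rintro _ ⟨p, rfl⟩ _ ⟨q, rfl⟩
    exact f4 _ _ _ _)
  let G : ∀ k, R k → Algebra.adjoin ℂ s := fun k t => ⟨F k t, Algebra.subset_adjoin ⟨⟨k, t⟩, rfl⟩⟩
  have g2 : ∀ k t, G k t * G k t = G k t := fun k t => Subtype.ext (f2 k t)
  refine ⟨fun τ => (∏ k, G k (τ k) : Algebra.adjoin ℂ s).1, ?_, fun τ => ⟨?_, ?_, fun k => ?_,
    fun M hM => ?_⟩⟩
  · have h1 := Finset.prod_univ_sum (fun k => (univ : Finset (R k))) G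
    rw [Fintype.piFinset_univ] at h1
    have h2 : ∀ k, ∑ t, G k t = 1 := fun k => Subtype.ext (by
      rw [AddSubmonoidClass.coe_finsetSum]; exact f3 k)
    rw [← AddSubmonoidClass.coe_finsetSum, ← h1]
    simp [h2]
  · refine Finset.prod_induction _ (fun x : Algebra.adjoin ℂ s => (x.1)ᴴ = x.1) ?_ (by simp)
      fun k _ => f1 k _
    intro x y hx hy
    have := congrArg Subtype.val (mul_comm y x)
    change y.1 * x.1 = x.1 * y.1 at this
    change (x.1 * y.1)ᴴ = x.1 * y.1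
    rw [conjTranspose_mul, hx, hy, this]
  · have : (∏ k, G k (τ k)) * (∏ k, G k (τ k)) = ∏ k, G k (τ k) := by
      rw [← Finset.prod_mul_distrib]; simp only [g2]
    exact congrArg Subtype.val this
  · have : G k (τ k) * (∏ k, G k (τ k)) = ∏ k, G k (τ k) := by
      rw [← Finset.mul_prod_erase _ _ (mem_univ k), ← mul_assoc, g2]
    exact congrArg Subtype.val this
  · refine Finset.prod_induction _ (fun x : Algebra.adjoin ℂ s => M * x.1 = x.1 * M) ?_ (by simp)
      fun k _ => hM k _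
    intro x y hx hy
    change M * (x.1 * y.1) = x.1 * y.1 * M
    rw [← Matrix.mul_assoc, hx, Matrix.mul_assoc, hy, Matrix.mul_assoc]

lemma norm_itw_adj {X Y : Type} [Fintype X] [Fintype Y] [DecidableEq X] [DecidableEq Y]
    {a : Matrix X X ℂ} {b : Matrix Y Y ℂ} (ha : aᴴ * a = 1) (ha' : a * aᴴ = 1) (hb : bᴴ * b = 1)
    (hb' : b * bᴴ = 1) (R : Matrix Y X ℂ) : ‖bᴴ * R - R * aᴴ‖ = ‖b * R - R * a‖ := by
  rw [← norm_isometry_mul hb (bᴴ * R - _), ← norm_mul_coisometry ha' (b * _), norm_sub_rev (b * R)]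
  congr 1
  rw [Matrix.mul_sub, Matrix.sub_mul, ← Matrix.mul_assoc, hb', Matrix.one_mul, Matrix.mul_assoc,
    Matrix.mul_assoc, ha, Matrix.mul_one]

variable {S} in
theorem exists_labU [Fintype H] (hS : ∀ s ∈ S, ∀ g, g * s * g⁻¹ ∈ S) (hi : ∀ h, i h ∈ S)
    (hK : Finite (Subgroup.closure (S : Set Γ))) : Nonempty (Lab (tyDataU H) i) := by
  classical
  choose p hp0 hp using exists_poly S i hK
  let R : H × Bool → Finset ℝ := fun k => (p k).roots.toFinset.image Complex.re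
  obtain ⟨c, hc0, hc⟩ := exists_gap R
  refine ⟨{
    T := ∀ k, R k
    Pure := fun τ a => ∀ k, BB S i a k = (((τ k).1 : ℝ) : ℂ) • (1 : Matrix a.X a.X ℂ)
    pure_sum := ?_
    prop := ?_
    dec := ?_
    S := S
    c := (1 + 2 * c) ^ 2
    sep := ?_ }⟩
  · intro τ ι _ _ f hf h k
    ext x ⟨t, y⟩
    let e : Matrix (Σ t, (f t).X) (f t).X ℂ := emb (Sigma.mk (β := fun t => (f t).X) t)
    have h1 := BB_itw S i (hf t) (Hom.sum hf) (J := e)
      (fun g => blk_mul_emb_mk (fun t => (f t).ρ g) t) k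
    rw [h t k, Matrix.mul_smul, Matrix.mul_one] at h1
    have h2 := congrFun (congrFun h1 x) y
    rw [mul_emb] at h2
    rw [h2]
    simp [e, emb_apply, one_apply]
  · intro τ a b ha hb pa pb j
    have key : ∀ a : Obj Γ, a.Hom clsU →
        (∀ k, BB S i a k = (((τ k).1 : ℝ) : ℂ) • (1 : Matrix a.X a.X ℂ)) → ∀ h,
        2 * ((cl S i h).card : ℂ) * chi a (i h) =
          ((((τ (h, true)).1 : ℝ) : ℂ) - Complex.I * ((τ (h, false)).1 : ℝ)) * a.dim := by
      intro a ha pa h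
      have e1 : (2 : ℂ) • zz S i a h = BB S i a (h, true) - Complex.I • BB S i a (h, false) := by
        simp only [BB, wt, cond_true, cond_false, one_smul, star_one, smul_add, smul_smul,
          Complex.star_def, Complex.conj_I, Complex.I_mul_I, neg_smul, two_smul, smul_neg]
        abel
      have e2 := congrArg trace e1
      rw [pa, pa, trace_smul, trace_sub, trace_smul, trace_smul, trace_smul, trace_one, zz,
        trace_sum, Finset.sum_congr rfl (g := fun _ => chi a (i h))] at e2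
      · simp only [sum_const, nsmul_eq_mul, smul_eq_mul] at e2
        rw [mul_assoc, e2, Obj.dim]; ring
      · intro s hs
        obtain ⟨g, rfl⟩ := isConj_iff.1 (mem_filter.1 hs).2
        rw [ha.2, trace_mul_comm, ← ha.2, chi]
        congr 2
        group
    have hχ : ∀ h, chi a (i h) * b.dim = chi b (i h) * a.dim := by
      intro h
      have h0 : (2 * ((cl S i h).card : ℂ)) ≠ 0 := by
        have : (cl S i h).card ≠ 0 := card_ne_zero.2 ⟨i h, mem_filter.2 ⟨hi h, IsConj.refl _⟩⟩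
        exact mul_ne_zero two_ne_zero (by exact_mod_cast this)
      apply mul_left_cancel₀ h0
      rw [← mul_assoc, ← mul_assoc, key a ha pa, key b hb pb]; ring
    have : ((tyU (res i a) j * b.dim : ℤ) : ℂ) = ((tyU (res i b) j * a.dim : ℤ) : ℂ) := by
      push_cast
      rw [tyU_eq (ha.res i), tyU_eq (hb.res i), tyC, tyC, mul_assoc, mul_assoc, Finset.sum_mul,
        Finset.sum_mul]
      congr 1
      refine Finset.sum_congr rfl fun l _ => ?_
      rw [mul_assoc, mul_assoc]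
      congr 1
      exact hχ _
    exact_mod_cast this
  · intro b hb
    have s : ∀ k, Spec (BB S i b k) := fun k => (exists_spec (BB_adj S i b k)).some
    let F : ∀ k, R k → Matrix b.X b.X ℂ := fun k t => (s k).fc fun u => if u = t.1 then 1 else 0
    have Fρ : ∀ k t g, b.ρ g * F k t = F k t * b.ρ g := fun k t g =>
      (s k).fc_comm (BB_comm i hS hb k g) _
    obtain ⟨E, e0, hE⟩ := joint F (fun k t => (s k).fc_adj _) (fun k t => by
      rw [(s k).fc_mul]
      exact (s k).fc_congr fun x => by split_ifs <;> simp) (fun k => by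
      rw [(s k).fc_sum, ← (s k).fc_one]
      refine (s k).fc_congr fun x => ?_
      have hx : (s k).d x ∈ R k := mem_image.2 ⟨((s k).d x : ℂ), by
        rw [Multiset.mem_toFinset, Polynomial.mem_roots (hp0 k)]
        exact (s k).root _ (hp k b hb) x, by simp⟩
      rw [Finset.sum_eq_single ⟨_, hx⟩]
      · simp
      · intro t _ ht
        rw [if_neg]
        intro h; exact ht (Subtype.ext h.symm)
      · simp) (fun k t l u => (s l).fc_comm (BB_itw S i hb hb (Fρ k t) l).symm _)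
    choose f J hf j1 j2 j3 using fun τ =>
      compress hb (hE τ).1 (hE τ).2.1 fun g => (hE τ).2.2.2 _ fun k t => Fρ k t g
    have BJ : ∀ τ k, BB S i b k * J τ = (((τ k).1 : ℝ) : ℂ) • J τ := by
      intro τ k
      have h1 : E τ * J τ = J τ := by rw [← j2, Matrix.mul_assoc, j1, Matrix.mul_one]
      have h2 : BB S i b k * F k (τ k) = (((τ k).1 : ℝ) : ℂ) • F k (τ k) := by
        have := (s k).fc_mul (fun t => t) fun u => if u = (τ k).1 then 1 else 0
        rw [(s k).fc_id] at this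
        rw [this, (s k).fc_smul]
        exact (s k).fc_congr fun x => by split_ifs with h <;> simp [h]
      rw [← h1, ← (hE τ).2.2.1 k, ← Matrix.mul_assoc, ← Matrix.mul_assoc, h2, Matrix.smul_mul,
        Matrix.smul_mul]
    refine ⟨f, fun τ => ⟨hf τ, fun k => ?_⟩, iso_family J j1 (fun τ σ hne => ?_)
      (by simp only [j2, e0]) j3⟩
    · have h1 := BB_itw S i (hf τ) hb (j3 τ) k
      rw [BJ] at h1
      rw [← j1 τ, ← Matrix.mul_smul, h1, ← Matrix.mul_assoc, j1, Matrix.one_mul]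
    · obtain ⟨k, hk⟩ := Function.ne_iff.1 hne
      have h1 : (J τ)ᴴ * BB S i b k = (((τ k).1 : ℝ) : ℂ) • (J τ)ᴴ := by
        have := congrArg conjTranspose (BJ τ k)
        rw [conjTranspose_mul, BB_adj, conjTranspose_smul] at this
        simpa using this
      have h2 : (((τ k).1 : ℝ) : ℂ) • ((J τ)ᴴ * J σ) = (((σ k).1 : ℝ) : ℂ) • ((J τ)ᴴ * J σ) := by
        rw [← Matrix.smul_mul, ← h1, Matrix.mul_assoc, BJ, Matrix.mul_smul]
      rw [← sub_eq_zero, ← sub_smul, smul_eq_zero] at h2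
      refine h2.resolve_left fun h3 => hk (Subtype.ext ?_)
      exact_mod_cast sub_eq_zero.1 h3
  · intro τ τ' hne a b ha hb pa pb T hT
    obtain ⟨k, hk⟩ := Function.ne_iff.1 hne
    have h1 := hc k _ (τ' k).2 _ (τ k).2 fun h => hk (Subtype.ext h.symm)
    set δ := ∑ s ∈ S, ‖b.ρ s * T - T * a.ρ s‖ with hδ
    have hδ0 : 0 ≤ δ := by positivity
    have hw : ‖wt k.2‖ = 1 := by cases k.2 <;> simp [wt]
    have h2 : ‖BB S i b k * T - T * BB S i a k‖ ≤ 2 * δ := by
      have e : BB S i b k * T - T * BB S i a k =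
          wt k.2 • ∑ s ∈ cl S i k.1, (b.ρ s * T - T * a.ρ s) +
          star (wt k.2) • ∑ s ∈ cl S i k.1, ((b.ρ s)ᴴ * T - T * (a.ρ s)ᴴ) := by
        simp only [BB, zz, conjTranspose_sum, Matrix.add_mul, Matrix.mul_add, Matrix.smul_mul,
          Matrix.mul_smul, Matrix.sum_mul, Matrix.mul_sum, Finset.sum_sub_distrib, smul_sub]
        abel
      have hsub : ∑ s ∈ cl S i k.1, ‖b.ρ s * T - T * a.ρ s‖ ≤ δ :=
        Finset.sum_le_sum_of_subset_of_nonneg (filter_subset _ _) fun _ _ _ => norm_nonneg _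
      rw [e, two_mul]
      refine (norm_add_le _ _).trans (add_le_add ?_ ?_)
      · rw [norm_smul, hw, one_mul]
        exact (norm_sum_le _ _).trans hsub
      · rw [norm_smul, norm_star, hw, one_mul]
        refine (norm_sum_le _ _).trans (le_trans (le_of_eq ?_) hsub)
        exact Finset.sum_congr rfl fun s _ =>
          norm_itw_adj (ha.1 s).2.1 (ha.1 s).2.2 (hb.1 s).2.1 (hb.1 s).2.2 T
    rw [pa, pb, Matrix.smul_mul, Matrix.mul_smul, Matrix.one_mul, Matrix.mul_one, ← sub_smul,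
      norm_smul, ← Complex.ofReal_sub, Complex.norm_real, Real.norm_eq_abs] at h2
    have h3 : ‖T‖ ≤ 2 * c * δ := by
      have := norm_nonneg T
      nlinarith [mul_le_mul_of_nonneg_left h2 hc0, mul_le_mul_of_nonneg_right h1 this]
    have h4 : √(b.dim) ≤ ‖1 - T * Tᴴ‖ + ‖T‖ := by
      rw [Obj.dim, ← norm_one_eq]
      have : (1 : Matrix b.X b.X ℂ) = (1 - T * Tᴴ) + T * Tᴴ := by simp
      nth_rewrite 1 [this]
      exact (norm_add_le _ _).trans (add_le_add le_rfl (clsU.right (clsU.adj hT) _))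
    have h5 : √(b.dim) ≤ (1 + 2 * c) * (‖1 - T * Tᴴ‖ + δ) := by
      have := norm_nonneg (1 - T * Tᴴ)
      nlinarith [mul_nonneg hc0 this]
    rw [← mul_pow, ← Real.sq_sqrt (Nat.cast_nonneg (α := ℝ) b.dim)]
    exact pow_le_pow_left₀ (Real.sqrt_nonneg _) h5 2

end lab

open Kronecker in
theorem extU {H G₁ G₂ : Type} [Group H] [Fintype H] [Group G₁] [Group G₂] {i₁ : H →* G₁}
    {i₂ : H →* G₂} (s₁ : Sep i₁) (s₂ : Sep i₂) : Ext (tyDataU H) i₁ i₂ := by
  intro a ha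
  classical
  obtain ⟨N₁, n1, n2, n3⟩ := s₁
  obtain ⟨N₂, m1, m2, m3⟩ := s₂
  let _ : Fintype (G₁ ⧸ N₁) := Fintype.ofFinite _
  let _ : Fintype (G₂ ⧸ N₂) := Fintype.ofFinite _
  let Ω := (G₁ ⧸ N₁) × (G₂ ⧸ N₂)
  let p₁ : G₁ →* Equiv.Perm Ω := MonoidHom.mk'
    (fun g => Equiv.prodCongr (Equiv.mulLeft (g : G₁ ⧸ N₁)) (Equiv.refl _)) fun g k => by
      ext ω <;> simp [mul_assoc]
  let p₂ : G₂ →* Equiv.Perm Ω := MonoidHom.mk'
    (fun g => Equiv.prodCongr (Equiv.refl _) (Equiv.mulLeft (g : G₂ ⧸ N₂))) fun g k => by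
      ext ω <;> simp [mul_assoc]
  have tr : ∀ σ : Equiv.Perm Ω, (∀ ω, ω ≠ σ ω) → trace (emb σ) = 0 := fun σ h => by
    simp [trace, emb_apply, h]
  have t₁ : ∀ h, trace (emb (p₁ (i₁ h))) = if h = 1 then (Fintype.card Ω : ℂ) else 0 := by
    intro h
    split_ifs with h1
    · rw [h1, map_one, map_one]
      change trace (emb id) = _
      rw [emb_id, trace_one]
    · refine tr _ fun ω h2 => h1 ?_
      have h3 : ((i₁ h : G₁) : G₁ ⧸ N₁) * ω.1 = ω.1 := (congrArg Prod.fst h2).symm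
      exact n3 h ((QuotientGroup.eq_one_iff _).1 (mul_eq_right.1 h3))
  have t₂ : ∀ h, trace (emb (p₂ (i₂ h))) = if h = 1 then (Fintype.card Ω : ℂ) else 0 := by
    intro h
    split_ifs with h1
    · rw [h1, map_one, map_one]
      change trace (emb id) = _
      rw [emb_id, trace_one]
    · refine tr _ fun ω h2 => h1 ?_
      have h3 : ((i₂ h : G₂) : G₂ ⧸ N₂) * ω.2 = ω.2 := (congrArg Prod.snd h2).symm
      exact m3 h ((QuotientGroup.eq_one_iff _).1 (mul_eq_right.1 h3))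
  have kr : ∀ {Γ : Type} [Group Γ] (α : Γ → Matrix a.X a.X ℂ) (p : Γ →* Equiv.Perm Ω), URep α →
      Obj.Hom clsU ({ X := a.X × Ω, ρ := fun g => α g ⊗ₖ emb (p g) } : Obj Γ) := by
    intro Γ _ α p hα
    refine hom_iff_urep.2 ⟨fun g => ⟨?_, ?_⟩, fun g k => ?_⟩
    · change (α g ⊗ₖ emb (p g))ᴴ * (α g ⊗ₖ emb (p g)) = 1
      rw [conjTranspose_kronecker, ← mul_kronecker_mul, (hα.1 g).1, emb_adj_emb (p g).injective,
        one_kronecker_one]
    · change (α g ⊗ₖ emb (p g)) * (α g ⊗ₖ emb (p g))ᴴ = 1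
      rw [conjTranspose_kronecker, ← mul_kronecker_mul, (hα.1 g).2, emb_perm_unit (p g),
        one_kronecker_one]
    · change α (g * k) ⊗ₖ emb (p (g * k)) = (α g ⊗ₖ emb (p g)) * (α k ⊗ₖ emb (p k))
      rw [← mul_kronecker_mul, hα.2, emb_mul_emb, map_mul]; rfl
  have hΩ : (Fintype.card Ω : ℂ) ≠ 0 := by exact_mod_cast Fintype.card_ne_zero
  let A : Matrix Ω Ω ℂ := Matrix.of fun _ _ => (Fintype.card Ω : ℂ)⁻¹
  have a1 : Aᴴ = A := by ext; simp [A]
  have a2 : A * A = A := by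
    ext; simp only [A, mul_apply, of_apply, sum_const, card_univ, nsmul_eq_mul]; field_simp
  have a3 : ∀ σ : Equiv.Perm Ω, A * emb σ = A := fun σ => by ext; rw [mul_emb]; rfl
  have a4 : ∀ σ : Equiv.Perm Ω, emb σ * A = A := fun σ => by
    have := congrArg conjTranspose (a3 σ.symm)
    rwa [conjTranspose_mul, a1, emb_equiv_adj, Equiv.symm_symm] at this
  have a5 : trace A = 1 := by
    simp only [A, trace, diag_apply, of_apply, sum_const, card_univ, nsmul_eq_mul]; field_simp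
  have hb := kr a.ρ p₁ (hom_iff_urep.1 ha)
  have hy := kr (fun _ : G₂ => (1 : Matrix a.X a.X ℂ)) p₂ ⟨by simp, by simp⟩
  obtain ⟨a', J, ha', j1, j2, j3⟩ := compress hb (P := (1 : Matrix a.X a.X ℂ) ⊗ₖ (1 - A))
    (by rw [conjTranspose_kronecker]; simp [a1]) (by
      rw [← mul_kronecker_mul, Matrix.sub_mul, Matrix.mul_sub, Matrix.mul_sub, a2]; simp)
    (fun g => by
      change (a.ρ g ⊗ₖ emb (p₁ g)) * _ = _ * (a.ρ g ⊗ₖ emb (p₁ g))
      rw [← mul_kronecker_mul, ← mul_kronecker_mul, Matrix.sub_mul, Matrix.mul_sub, a3, a4]; simp)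
  have key : ∀ h, chi a (i₁ h) + chi a' (i₁ h) =
      chi ({ X := a.X × Ω, ρ := fun g => (1 : Matrix a.X a.X ℂ) ⊗ₖ emb (p₂ g) } : Obj G₂)
        (i₂ h) := by
    intro h
    have e1 : chi a' (i₁ h) = chi a (i₁ h) * (trace (emb (p₁ (i₁ h))) - 1) := by
      calc chi a' (i₁ h) = trace (Jᴴ * (J * a'.ρ (i₁ h))) := by
            rw [← Matrix.mul_assoc, j1, Matrix.one_mul]; rfl
        _ = trace ((a.ρ (i₁ h) ⊗ₖ emb (p₁ (i₁ h))) * (J * Jᴴ)) := by
            rw [← j3, trace_mul_comm, Matrix.mul_assoc]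
        _ = _ := by
            rw [j2, ← mul_kronecker_mul, trace_kronecker, Matrix.mul_one, Matrix.mul_sub, a4,
              trace_sub, a5, Matrix.mul_one]; rfl
    change _ = trace ((1 : Matrix a.X a.X ℂ) ⊗ₖ emb (p₂ (i₂ h)))
    rw [e1, trace_kronecker, t₁, t₂, trace_one]
    split_ifs with h1
    · rw [h1, map_one, chi_one ha, Obj.dim]; ring
    · ring
  refine ⟨a', _, ha', hy, ?_, fun j => ?_⟩
  · have := key 1
    rw [map_one, map_one, chi_one ha, chi_one ha', chi_one hy] at this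
    exact_mod_cast this
  · have : ((tyU (res i₁ a) j + tyU (res i₁ a') j : ℤ) : ℂ) = (tyU (res i₂
        ({ X := a.X × Ω, ρ := fun g => (1 : Matrix a.X a.X ℂ) ⊗ₖ emb (p₂ g) } : Obj G₂)) j : ℂ) := by
      push_cast
      rw [tyU_eq (ha.res i₁), tyU_eq (ha'.res i₁), tyU_eq (hy.res i₂), tyC, tyC, tyC, ← mul_add,
        ← Finset.sum_add_distrib]
      congr 1
      refine Finset.sum_congr rfl fun l _ => ?_
      rw [← mul_add]
      congr 1
      exact key _
    exact_mod_cast this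

end Pool.Agent.H845Z.St
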